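import Pool.Agent.H34D.L

/-!
Distinct blocks are disjoint, and no block of type T occurs in a dependent triple of blocks.
-/

set_option autoImplicit false
set_option linter.unusedSectionVars false
set_option linter.unusedVariables false

namespace Pool.Agent.H34D

open QS
open Pool.Agent.Helper58.PLine (QData)
open Pool.Agent.ETCP
open Pool.Agent.ETSC
open Pool.Agent.H34C

variable {V Q : Type} [AddCommGroup V] [Module (ZMod 2) V] {S : QData V Q}
  {E E' : Submodule (ZMod 2) (Dl V)}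

theorem Blk.per [Finite V] (he : S.e = 0) (h : Blk S E) : Per S E := by
  rcases h with ⟨ω, A, rfl⟩ | ⟨η, T⟩
  · exact PA_Per he A
  · exact T.per

/-! ### distinct blocks are disjoint -/

theorem TB.le_of [Finite V] {η : Dl V} (T : TB S E η) (hE' : Per S E') {c : Dl V} (hc : c ∈ E)
    (hc' : c ∈ E') (h0 : c ≠ 0) : An E' ≤ An E := by
  have h1 : ∀ h ∈ An E', h ∉ An E → η h = 0 := by
    intro h hh hn
    by_contra h2
    exact hE'.ne_of_mem hc' h0 hh (T.uz_out (z2ne h2) hc (mem_An.1 hh c hc')).2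
  have h2 : η ∈ E' := by
    apply mem_of_kill
    intro d hd
    by_cases h3 : d ∈ An E
    · exact mem_An.1 h3 η T.mem
    · exact h1 d hd h3
  intro h hh
  by_contra hn
  exact hE'.ne_of_mem h2 T.ne hh (T.ins (h1 h hh hn) hn).2

theorem PA_le_of [Finite V] (he : S.e = 0) {ω : Fm V} (A : PA S ω) (hE' : Per S E') {c : Dl V}
    (hc : c ∈ LinearMap.range ω) (hc' : c ∈ E') (h0 : c ≠ 0) :
    An E' ≤ An (LinearMap.range ω) := by
  intro h hh
  rw [range_An he A]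
  obtain ⟨d, rfl⟩ := hc
  have h1 : PP S (ω d) d := PP_of A.mem rfl
  have h2 := (PA_iff A ⟨d, rfl⟩ h0).1 (hE' _ hc' h0 d h hh h1)
  rw [map_add] at h2
  have h3 : ω d + ω h = ω d + 0 := by rw [h2, add_zero]
  exact add_left_cancel h3

theorem Blk.le_of [Finite V] (he : S.e = 0) (hE : Blk S E) (hE' : Per S E') {c : Dl V}
    (hc : c ∈ E) (hc' : c ∈ E') (h0 : c ≠ 0) : An E' ≤ An E := by
  rcases hE with ⟨ω, A, rfl⟩ | ⟨η, T⟩
  · exact PA_le_of he A hE' hc hc' h0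
  · exact T.le_of hE' hc hc' h0

theorem le_of_An [Finite V] (h : An E' ≤ An E) : E ≤ E' := by
  intro μ hμ
  apply mem_of_kill
  intro d hd
  exact mem_An.1 (h hd) μ hμ

/-- **distinct blocks are disjoint** -/
theorem blk_eq [Finite V] (he : S.e = 0) (hE : Blk S E) (hE' : Blk S E') {c : Dl V}
    (hc : c ∈ E) (hc' : c ∈ E') (h0 : c ≠ 0) : E = E' :=
  le_antisymm (le_of_An (hE.le_of he (hE'.per he) hc hc' h0))
    (le_of_An (hE'.le_of he (hE.per he) hc' hc h0))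

/-- disjoint spaces -/
def Dj (E E' : Submodule (ZMod 2) (Dl V)) : Prop := ∀ c ∈ E, c ∈ E' → c = 0

theorem Dj.symm (h : Dj E E') : Dj E' E := fun c h1 h2 => h c h2 h1

theorem dj_of [Finite V] (he : S.e = 0) (hE : Blk S E) (hE' : Blk S E') (hne : E ≠ E') :
    Dj E E' := by
  intro c h1 h2
  by_contra h0
  exact hne (blk_eq he hE hE' h1 h2 h0)

/-- elements of `E` vanishing on `Y'` -/
theorem Dj.kill [Finite V] (h : Dj E E') : ∀ μ ∈ E, (∀ m ∈ An E', μ m = 0) → μ = 0 :=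
  fun μ hμ hm => h μ hμ (mem_of_kill hm)

theorem Dj.sup [Finite V] (h : Dj E E') (x : V) : ∃ y' ∈ An E', x + y' ∈ An E := by
  by_contra hn
  have h1 : x ∉ An E ⊔ An E' := by
    intro hx
    obtain ⟨y, hy, y', hy', e⟩ := Submodule.mem_sup.1 hx
    apply hn
    refine ⟨y', hy', ?_⟩
    rw [← e, add_self']
    exact hy
  obtain ⟨l, hl1, hl⟩ := Pool.Agent.Helper58.PLine.exists_functional h1
  have h2 : l = 0 := h l (mem_of_kill fun d hd => hl d (Submodule.mem_sup_left hd))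
    (mem_of_kill fun d hd => hl d (Submodule.mem_sup_right hd))
  rw [h2, LinearMap.zero_apply] at hl1
  exact zero_ne_one hl1

/-! ### values on a subspace -/

theorem exM_10 {M : Submodule (ZMod 2) V} {f g : Dl V} (hf : ¬ ∀ m ∈ M, f m = 0)
    (hfg : ¬ ∀ m ∈ M, (f + g) m = 0) : ∃ m ∈ M, f m = 1 ∧ g m = 0 := by
  have h1 : f.domRestrict M ≠ 0 := by
    intro h
    apply hf
    intro m hm
    exact LinearMap.congr_fun h (⟨m, hm⟩ : M)
  have h2 : g.domRestrict M ≠ f.domRestrict M := by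
    intro h
    apply hfg
    intro m hm
    have h3 : g m = f m := LinearMap.congr_fun h (⟨m, hm⟩ : M)
    rw [LinearMap.add_apply, h3]
    exact CharTwo.add_self_eq_zero _
  obtain ⟨v, hv1, hv2⟩ := ex_10 h1 h2
  exact ⟨v, v.2, hv1, hv2⟩

theorem exM_vals {M : Submodule (ZMod 2) V} {f g : Dl V} (hf : ¬ ∀ m ∈ M, f m = 0)
    (hg : ¬ ∀ m ∈ M, g m = 0) (hfg : ¬ ∀ m ∈ M, (f + g) m = 0) (i j : ZMod 2) :
    ∃ m ∈ M, f m = i ∧ g m = j := by
  obtain ⟨v1, k1, a1, a2⟩ := exM_10 hf hfg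
  obtain ⟨v2, k2, b1, b2⟩ := exM_10 hg (by rw [add_comm]; exact hfg)
  refine ⟨i • v1 + j • v2, M.add_mem (M.smul_mem _ k1) (M.smul_mem _ k2), ?_, ?_⟩
  · rw [map_add, map_smul, map_smul, a1, b2]
    simp
  · rw [map_add, map_smul, map_smul, a2, b1]
    simp

/-- `P_c` is large for blocks of type T -/
theorem TB.big {η : Dl V} (T : TB S E η) {c : Dl V} (hc : c ∈ E) (h0 : c ≠ 0)
    {M : Submodule (ZMod 2) V} (hM : ∀ μ ∈ E, (∀ m ∈ M, μ m = 0) → μ = 0) :
    ∃ N : Submodule (ZMod 2) V, (∃ m ∈ M, c m = 0 ∧ m ∉ N) ∧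
      ∀ m ∈ M, c m = 0 → m ∉ N → PP S c m := by
  by_cases hcη : c = η
  · subst hcη
    obtain ⟨θ, t1, t2, t3⟩ := T.two
    refine ⟨An E, ?_, fun m _ hm hn => (T.ins hm hn).2⟩
    obtain ⟨m, hm, m1, m2⟩ := exM_10 (M := M) (f := θ) (g := c) (fun h => t2 (hM θ t1 h))
      (fun h => t3 (eo (hM _ (E.add_mem t1 T.mem) h)))
    refine ⟨m, hm, m2, ?_⟩
    intro hY
    rw [mem_An.1 hY θ t1] at m1
    exact zero_ne_one m1
  · refine ⟨LinearMap.ker η, ?_, fun m _ hm hn => (T.uz_out (z2ne hn) hc hm).2⟩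
    obtain ⟨m, hm, m1, m2⟩ := exM_10 (M := M) (f := η) (g := c) (fun h => T.ne (hM η T.mem h))
      (fun h => hcη (eo (hM _ (E.add_mem T.mem hc) h)).symm)
    refine ⟨m, hm, m2, ?_⟩
    intro hY
    rw [LinearMap.mem_ker, m1] at hY
    exact one_ne_zero hY

/-- no two blocks of type T in a triple -/
theorem noTT [Finite V] {E1 E2 E3 : Submodule (ZMod 2) (Dl V)} {η1 η3 : Dl V}
    (T1 : TB S E1 η1) (T3 : TB S E3 η3) (h2 : Per S E2) (d12 : Dj E1 E2) (d32 : Dj E3 E2)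
    {c1 c2 c3 : Dl V} (m1 : c1 ∈ E1) (m2 : c2 ∈ E2) (m3 : c3 ∈ E3) (n1 : c1 ≠ 0) (n2 : c2 ≠ 0)
    (n3 : c3 ≠ 0) (e : c1 + c2 = c3) : False := by
  obtain ⟨N1, ⟨x1, a1, a2, a3⟩, hN1⟩ := T1.big m1 n1 d12.kill
  obtain ⟨N3, ⟨x3, b1, b2, b3⟩, hN3⟩ := T3.big m3 n3 d32.kill
  have e13 : ∀ m ∈ An E2, c1 m = c3 m := by
    intro m hm
    rw [← e, LinearMap.add_apply, mem_An.1 hm c2 m2, add_zero]
  have hex : ∃ m ∈ An E2, c1 m = 0 ∧ m ∉ N1 ∧ m ∉ N3 := by
    by_cases k1 : x1 ∈ N3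
    · by_cases k3 : x3 ∈ N1
      · refine ⟨x1 + x3, (An E2).add_mem a1 b1, ?_, ?_, ?_⟩
        · rw [map_add, a2, e13 x3 b1, b2, add_zero]
        · intro h
          apply a3
          have h5 := N1.add_mem h k3
          rwa [add_self'] at h5
        · intro h
          apply b3
          have h5 := N3.add_mem k1 h
          rwa [← add_assoc, ZModModule.add_self, zero_add] at h5
      · exact ⟨x3, b1, by rw [e13 x3 b1]; exact b2, k3, b3⟩
    · exact ⟨x1, a1, a2, a3, k1⟩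
  obtain ⟨m, hm, c0, k1, k3⟩ := hex
  have p1 := hN1 m hm c0 k1
  have p3 := hN3 m hm (by rw [← e13 m hm]; exact c0) k3
  have p2 := PP_add_form p1 p3
  rw [← e, ← add_assoc, ZModModule.add_self, zero_add] at p2
  exact h2.ne_of_mem m2 n2 hm p2

/-- one block of type T and two atoms -/
theorem noTAA [Finite V] (he : S.e = 0) {ω1 ω2 : Fm V} (A1 : PA S ω1) (A2 : PA S ω2)
    {η : Dl V} (T : TB S E η) (d12 : Dj (LinearMap.range ω1) (LinearMap.range ω2))
    (d13 : Dj (LinearMap.range ω1) E) (d23 : Dj (LinearMap.range ω2) E) {c1 c2 c3 : Dl V}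
    (m1 : c1 ∈ LinearMap.range ω1) (m2 : c2 ∈ LinearMap.range ω2) (m3 : c3 ∈ E) (n1 : c1 ≠ 0)
    (n2 : c2 ≠ 0) (n3 : c3 ≠ 0) (e : c1 + c2 = c3) : False := by
  set E1 := LinearMap.range ω1 with hE1
  set E2 := LinearMap.range ω2 with hE2
  have P2 : Per S E2 := PA_Per he A2
  -- the basic fact
  have F : ∀ a1 a2 a3 : Dl V, a1 ∈ E1 → a2 ∈ E2 → a1 ≠ 0 → a2 ≠ 0 → a1 + a2 = a3 →
      ∃ x0 ∈ An E2, ω1 x0 = a1 ∧ ∀ u, u ∈ An E1 → u ∈ An E2 →
        ¬ PP S a3 (x0 + u) ∧ a3 (x0 + u) = 0 := by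
    intro a1 a2 a3 k1 k2 l1 l2 e3
    obtain ⟨x, hx⟩ := k1
    obtain ⟨y, hy, hy1⟩ := d12.sup x
    have hy2 : ω1 y = a1 := by
      have h5 := (range_An he A1).1 hy1
      rw [map_add] at h5
      rw [← eo h5, hx]
    refine ⟨y, hy, hy2, ?_⟩
    intro u u1 u2
    have h6 : ω1 (y + u) = a1 := by
      rw [map_add, (range_An he A1).1 u1, add_zero, hy2]
    have h7 : PP S a1 (y + u) := PP_of A1.mem h6
    have h8 : y + u ∈ An E2 := (An E2).add_mem hy u2
    constructor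
    · intro h9
      have h10 := PP_add_form h7 h9
      rw [← e3, ← add_assoc, ZModModule.add_self, zero_add] at h10
      exact P2.ne_of_mem k2 l2 h8 h10
    · rw [← e3, LinearMap.add_apply, PP_ker he h7, mem_An.1 h8 a2 k2, add_zero]
  -- `E1 + E2`
  have hsup : ∀ μ : Dl V, (∀ u, u ∈ An E1 → u ∈ An E2 → μ u = 0) →
      ∃ a1 ∈ E1, ∃ a2 ∈ E2, a1 + a2 = μ := by
    intro μ hμ
    have h5 : μ ∈ E1 ⊔ E2 := by
      apply mem_of_kill
      intro d hd
      exact hμ d (mem_An.2 fun ν hν => mem_An.1 hd ν (Submodule.mem_sup_left hν))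
        (mem_An.2 fun ν hν => mem_An.1 hd ν (Submodule.mem_sup_right hν))
    exact Submodule.mem_sup.1 h5
  -- `η ∈ E1 + E2`
  have hη : ∀ u, u ∈ An E1 → u ∈ An E2 → η u = 0 := by
    intro u u1 u2
    by_cases h5 : c3 = η
    · rw [← h5, ← e, LinearMap.add_apply, mem_An.1 u1 c1 m1, mem_An.1 u2 c2 m2, add_zero]
    · obtain ⟨x0, k1, k2, k3⟩ := F c1 c2 c3 m1 m2 n1 n2 e
      have k4 : ∀ u, u ∈ An E1 → u ∈ An E2 → η (x0 + u) = 0 := by
        intro u u1 u2
        by_contra h6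
        obtain ⟨k5, k6⟩ := k3 u u1 u2
        exact k5 (T.uz_out (z2ne h6) m3 k6).2
      have k5 := k4 u u1 u2
      have k6 := k4 0 (Submodule.zero_mem _) (Submodule.zero_mem _)
      rw [add_zero] at k6
      rw [map_add, k6, zero_add] at k5
      exact k5
  obtain ⟨a1, p1, a2, p2, e3⟩ := hsup η hη
  have q1 : a1 ≠ 0 := by
    rintro rfl
    rw [zero_add] at e3
    exact T.ne (d23 η (e3 ▸ p2) T.mem)
  have q2 : a2 ≠ 0 := by
    rintro rfl
    rw [add_zero] at e3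
    exact T.ne (d13 η (e3 ▸ p1) T.mem)
  obtain ⟨x0, k1, k2, k3⟩ := F a1 a2 η p1 p2 q1 q2 e3
  have k4 : ∀ u, u ∈ An E1 → u ∈ An E2 → x0 + u ∈ An E := by
    intro u u1 u2
    by_contra h6
    obtain ⟨k5, k6⟩ := k3 u u1 u2
    exact k5 (T.ins k6 h6).2
  have k5 := k4 0 (Submodule.zero_mem _) (Submodule.zero_mem _)
  rw [add_zero] at k5
  obtain ⟨θ, t1, t2, t3⟩ := T.two
  obtain ⟨b1, r1, b2, r2, e4⟩ := hsup θ (by
    intro u u1 u2
    have h5 := (An E).add_mem k5 (k4 u u1 u2)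
    rw [← add_assoc, ZModModule.add_self, zero_add] at h5
    exact mem_An.1 h5 θ t1)
  have s1 : b1 ≠ 0 := by
    rintro rfl
    rw [zero_add] at e4
    exact t2 (d23 θ (e4 ▸ r2) t1)
  -- the form `ω2 + η ∧ θ`
  obtain ⟨d, hd⟩ := r2
  obtain ⟨y, hy, y1, y2⟩ := exM_vals (M := An E2) (f := η) (g := θ)
    (fun h => T.ne (d23.symm.kill η T.mem h)) (fun h => t2 (d23.symm.kill θ t1 h))
    (fun h => t3 (eo (d23.symm.kill _ (E.add_mem T.mem t1) h)).symm) (1 + η d) (θ d)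
  have key : ∀ x, ω2 x = b2 → η x = 1 → θ x = 0 → ω1 x = b1 := by
    intro x x1 x2 x3
    have h5 : ω2 + ETCO.wd η θ ∈ R S := (R S).add_mem A2.mem (T.wd θ t1)
    have h6 : (ω2 + ETCO.wd η θ) x = b1 := by
      have h7 : ETCO.wd η θ x = θ := by
        apply LinearMap.ext
        intro v
        rw [ETCO.wd_apply, x2, x3, one_mul, zero_mul, add_zero]
      rw [LinearMap.add_apply, x1, h7, ← e4, add_comm b1 b2, ← add_assoc, ZModModule.add_self,
        zero_add]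
    exact (PA_iff A1 r1 s1).1 (PP_of h5 h6)
  have z1 := key (d + y) (by
    rw [map_add, (range_An he A2).1 hy, add_zero, hd]) (by
    rw [map_add, y1]
    have f : ∀ a : ZMod 2, a + (1 + a) = 1 := by decide
    exact f _) (by
    rw [map_add, y2]
    exact CharTwo.add_self_eq_zero _)
  have z2 := key (d + y + x0) (by
    rw [map_add, map_add, (range_An he A2).1 hy, (range_An he A2).1 k1, add_zero, add_zero, hd])
    (by
      rw [map_add, map_add, y1, mem_An.1 k5 η T.mem, add_zero]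
      have f : ∀ a : ZMod 2, a + (1 + a) = 1 := by decide
      exact f _) (by
      rw [map_add, map_add, y2, mem_An.1 k5 θ t1, add_zero]
      exact CharTwo.add_self_eq_zero _)
  rw [map_add, z1, k2] at z2
  apply q1
  have h5 : b1 + a1 = b1 + 0 := by rw [z2, add_zero]
  exact add_left_cancel h5

end Pool.Agent.H34D
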