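import Pool.Agent.ETCO.Color
import Pool.Agent.H34C.Emb

/-!
# Blocks at set level (note 34V)

`S : QData V Q` is a set valued structure with `S.e = 0`.  No form space is assumed to be large.
-/

set_option autoImplicit false
set_option linter.unusedSectionVars false
set_option linter.unusedVariables false

namespace Pool.Agent.H34D

open QS
open Pool.Agent.Helper58.PLine (QData)
open Pool.Agent.ETCP
open Pool.Agent.ETSC
open Pool.Agent.H34C

variable {V Q : Type} [AddCommGroup V] [Module (ZMod 2) V]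

/-- perfect spaces of functionals -/
def Per (S : QData V Q) (E : Submodule (ZMod 2) (Dl V)) : Prop :=
  ∀ b ∈ E, b ≠ 0 → ∀ x h, h ∈ An E → PP S b x → PP S b (x + h)

/-- blocks of type T -/
structure TB (S : QData V Q) (E : Submodule (ZMod 2) (Dl V)) (η : Dl V) : Prop where
  per : Per S E
  mem : η ∈ E
  ne : η ≠ 0
  two : ∃ θ ∈ E, θ ≠ 0 ∧ θ ≠ η
  wd : ∀ μ ∈ E, ETCO.wd η μ ∈ R S

/-- blocks -/
def Blk (S : QData V Q) (E : Submodule (ZMod 2) (Dl V)) : Prop :=
  (∃ ω, PA S ω ∧ LinearMap.range ω = E) ∨ ∃ η, TB S E η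

/-- every sharp functional has a form of rank two -/
def SRS (S : QData V Q) : Prop :=
  ∀ l : Dl V, l ≠ 0 → (∃ x, PP S l x) → (∀ c ∈ El S l, c = 0 ∨ c = l) →
    ∃ th : Dl V, th ≠ 0 ∧ th ≠ l ∧ ETCO.wd l th ∈ R S

/-- the functionals allowed at `x` are sums of such functionals in the blocks -/
def SumL (S : QData V Q) : Prop :=
  ∀ (b : Dl V) (x : V), PP S b x → ∃ (T : Finset (Submodule (ZMod 2) (Dl V)))
    (f : Submodule (ZMod 2) (Dl V) → Dl V),
    (∀ E ∈ T, Blk S E ∧ f E ∈ E ∧ PP S (f E) x) ∧ b = ∑ E ∈ T, f E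

/-- the blocks are independent -/
def IndB (S : QData V Q) : Prop :=
  ∀ (T : Finset (Submodule (ZMod 2) (Dl V))) (f : Submodule (ZMod 2) (Dl V) → Dl V),
    (∀ E ∈ T, Blk S E ∧ f E ∈ E) → ∑ E ∈ T, f E = 0 → ∀ E ∈ T, f E = 0

end Pool.Agent.H34D
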