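import Pool.Agent.H34D.Pr

/-!
Every functional is good relative to some block.
-/

set_option autoImplicit false
set_option linter.unusedSectionVars false
set_option linter.unusedVariables false

namespace Pool.Agent.H34D

open QS
open Pool.Agent.Helper58.PLine (QData)
open Pool.Agent.ETCP
open Pool.Agent.ETSC
open Pool.Agent.H34C
open Pool.Agent.ETCISO (Rk2)

variable {V Q : Type} [AddCommGroup V] [Module (ZMod 2) V] {S : QData V Q}

/-- the functionals vanishing on `Y` -/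
def anY (Y : Submodule (ZMod 2) V) : Submodule (ZMod 2) (Dl V) where
  carrier := {μ | ∀ y ∈ Y, μ y = 0}
  add_mem' := by
    intro a b ha hb y hy
    rw [LinearMap.add_apply, ha y hy, hb y hy, add_zero]
  zero_mem' := fun y _ => rfl
  smul_mem' := by
    intro c a ha y hy
    rw [LinearMap.smul_apply, ha y hy, smul_zero]

theorem An_anY [Finite V] (Y : Submodule (ZMod 2) V) {d : V} : d ∈ An (anY Y) ↔ d ∈ Y := by
  rw [mem_An]
  constructor
  · intro h
    by_contra hn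
    obtain ⟨l, h1, h2⟩ := Pool.Agent.Helper58.PLine.exists_functional hn
    rw [h l h2] at h1
    exact zero_ne_one h1
  · intro h μ hμ
    exact hμ d h

/-- **COLOR** at set level -/
theorem colorS [Finite V] (he : S.e = 0) {l th : Dl V} (hl : l ≠ 0) (hth : th ≠ 0)
    (hne : th ≠ l) (h : ETCO.wd l th ∈ R S) :
    ∃ (E : Submodule (ZMod 2) (Dl V)) (η : Dl V), TB S E η ∧ l ∈ E ∧ th ∈ E := by
  classical
  have hX : Rk2 S (l.prod th) := by
    refine ⟨he, ?_, ?_⟩
    · obtain ⟨v1, a1, a2⟩ := ex_10 hl hne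
      obtain ⟨v2, b1, b2⟩ := ex_10 hth (Ne.symm hne)
      rintro ⟨i, j⟩
      refine ⟨i • v1 + j • v2, ?_⟩
      show (l (i • v1 + j • v2), th (i • v1 + j • v2)) = (i, j)
      rw [map_add, map_add, map_smul, map_smul, map_smul, map_smul, a1, a2, b1, b2]
      simp
    · intro a b hc
      exact h a b hc
  obtain ⟨i, hi, hG⟩ := ETCO.color hX
  obtain ⟨eta, Y, X, hle, hf⟩ := hG.exists_full
  have hlY : ∀ y ∈ Y, l y = 0 := fun y hy => congrArg Prod.fst (hX.T_ker (hle hy))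
  have htY : ∀ y ∈ Y, th y = 0 := fun y hy => congrArg Prod.snd (hX.T_ker (hle hy))
  have heta : eta ≠ 0 := by
    rintro rfl
    obtain ⟨v, hv⟩ := X.ne
    exact zero_ne_one hv
  refine ⟨anY Y, eta, ⟨?_, X.le, heta, ?_, ?_⟩, hlY, htY⟩
  · intro b hb hb0 x h' hh hx
    exact X.per hf hb hx ((An_anY Y).1 hh)
  · by_cases he : l = eta
    · exact ⟨th, htY, hth, fun e => hne (e.trans he.symm)⟩
    · exact ⟨l, hlY, hl, he⟩
  · intro μ hμ
    exact X.wd_mem hμ

/-- **Domination by blocks** -/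
theorem domG [Finite V] (he : S.e = 0) (hSR : SRS S) {β : Dl V} (hβ : β ≠ 0)
    (hx : ∃ x, PP S β x) : ∃ E, Blk S E ∧ Good S E β := by
  classical
  have := Fintype.ofFinite V
  have hf := finite_Dl (V := V)
  by_contra hbad
  obtain ⟨b, ⟨hb0, hbx, hb⟩, hmax⟩ := Set.exists_max_image
    {b : Dl V | b ≠ 0 ∧ (∃ x, PP S b x) ∧ ¬ ∃ E, Blk S E ∧ Good S E b} (fun b => mass S b)
    (Set.toFinite _) ⟨β, hβ, hx, hbad⟩
  obtain ⟨x0, hx0⟩ := hbx
  apply hb
  by_cases hl : LM S b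
  · by_cases hN : ∃ γ ∈ El S b, γ ≠ 0 ∧ γ ≠ b
    · obtain ⟨ω, h1, h2, h3⟩ := hl.atom he ⟨x0, hx0⟩ hN
      have A : PA S ω := by
        refine ⟨h1, ?_, ?_⟩
        · rintro rfl
          apply hb0
          have h4 : b ∈ LinearMap.range (0 : Fm V) := by
            rw [h2]
            exact self_El he b
          obtain ⟨y, hy⟩ := h4
          exact hy.symm
        · intro q γ hγ hγ0 hp
          rw [h2] at hγ
          exact (h3 q γ hγ hγ0).1 hp
      refine ⟨LinearMap.range ω, Or.inl ⟨ω, A, rfl⟩, Or.inl (tu_of_mem ?_ hb0)⟩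
      rw [h2]
      exact self_El he b
    · push Not at hN
      obtain ⟨th, t1, t2, t3⟩ := hSR b hb0 ⟨x0, hx0⟩ (fun c hc => by
        by_cases h : c = 0
        · exact Or.inl h
        · exact Or.inr (hN c hc h))
      obtain ⟨E, η, T, h1, h2⟩ := colorS he hb0 t1 t2 t3
      exact ⟨E, Or.inr ⟨η, T⟩, Or.inl (tu_of_mem h1 hb0)⟩
  · obtain ⟨κ, k1, k2, k3⟩ : ∃ κ ∈ El S b, κ ≠ 0 ∧ mass S b < mass S κ := by
      by_contra hn
      push Not at hn
      exact hl ⟨hb0, hn⟩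
    obtain ⟨y, hy⟩ := exists_of_mass_pos ((mass_nonneg b).trans_lt k3)
    have h4 : ∃ E, Blk S E ∧ Good S E κ := by
      by_contra hn
      exact absurd (hmax κ ⟨k2, ⟨y, hy⟩, hn⟩) (not_le.2 k3)
    obtain ⟨E, hE, h5⟩ := h4
    exact ⟨E, hE, prop he hE (El_const k1 hx0) hx0 h5⟩

end Pool.Agent.H34D
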