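import Pool.Agent.H34D.P0

/-!
Good functionals relative to a block.
-/

set_option autoImplicit false
set_option linter.unusedSectionVars false
set_option linter.unusedVariables false

namespace Pool.Agent.H34D

open QS
open Pool.Agent.Helper58.PLine (QData)
open Pool.Agent.ETCP
open Pool.Agent.ETSC
open Pool.Agent.H34C

variable {V Q : Type} [AddCommGroup V] [Module (ZMod 2) V] {S : QData V Q}
  {E : Submodule (ZMod 2) (Dl V)}

/-! ### values of functionals -/

theorem ex_one {f : Dl V} (hf : f ≠ 0) : ∃ v, f v = 1 := by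
  by_contra hc
  push Not at hc
  apply hf
  apply LinearMap.ext
  intro x
  exact (z2 (f x)).resolve_right (hc x)

theorem ex_10 {f g : Dl V} (hf : f ≠ 0) (hfg : g ≠ f) : ∃ v, f v = 1 ∧ g v = 0 := by
  by_contra hc
  push Not at hc
  have h1 : ∀ v, f v = 1 → g v = 1 := fun v hv => z2ne (hc v hv)
  obtain ⟨v0, hv0⟩ := ex_one hf
  apply hfg
  apply LinearMap.ext
  intro v
  rcases z2 (f v) with e | e
  · have h3 := h1 (v + v0) (by rw [map_add, e, hv0, zero_add])
    rw [map_add, h1 v0 hv0] at h3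
    rw [e]
    have f' : ∀ a : ZMod 2, a + 1 = 1 → a = 0 := by decide
    exact f' _ h3
  · rw [h1 v e, e]

theorem ex_11 {f g : Dl V} (hf : f ≠ 0) (hg : g ≠ 0) : ∃ v, f v = 1 ∧ g v = 1 := by
  obtain ⟨v, h1, h2⟩ := ex_10 (f := f) (g := f + g) hf (by
    intro h
    apply hg
    have h' : f + g = f + 0 := by rw [add_zero, h]
    exact add_left_cancel h')
  refine ⟨v, h1, ?_⟩
  rw [LinearMap.add_apply, h1] at h2
  have f' : ∀ a : ZMod 2, 1 + a = 0 → a = 1 := by decide
  exact f' _ h2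

/-- a functional vanishing where two functionals vanish -/
theorem of_ker2 [Finite V] {f g h : Dl V} (hk : ∀ v, f v = 0 → g v = 0 → h v = 0) :
    h = 0 ∨ h = f ∨ h = g ∨ h = f + g := by
  have h1 : h ∈ Submodule.span (ZMod 2) {f, g} := by
    apply mem_of_kill
    intro d hd
    exact hk d (mem_An.1 hd f (Submodule.subset_span (by simp)))
      (mem_An.1 hd g (Submodule.subset_span (by simp)))
  obtain ⟨a, b, e⟩ := Submodule.mem_span_pair.1 h1
  rcases z2 a with rfl | rfl <;> rcases z2 b with rfl | rfl <;>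
    simp only [zero_smul, one_smul, zero_add, add_zero] at e
  · exact Or.inl e.symm
  · exact Or.inr (Or.inr (Or.inl e.symm))
  · exact Or.inr (Or.inl e.symm)
  · exact Or.inr (Or.inr (Or.inr e.symm))

/-! ### blocks -/

theorem range_An [Finite V] (he : S.e = 0) {ω : Fm V} (A : PA S ω) {d : V} :
    d ∈ An (LinearMap.range ω) ↔ ω d = 0 := by
  rw [mem_An]
  constructor
  · intro h
    apply LinearMap.ext
    intro x
    rw [R_symm he A.mem]
    exact h _ ⟨x, rfl⟩
  · rintro h _ ⟨x, rfl⟩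
    rw [R_symm he A.mem, h]
    rfl

theorem PA_iff {ω : Fm V} (A : PA S ω) {β : Dl V} (hβ : β ∈ LinearMap.range ω) (h0 : β ≠ 0) {x : V} :
    PP S β x ↔ ω x = β :=
  ⟨A.per x β hβ h0, fun h => PP_of A.mem h⟩

theorem PA_Per [Finite V] (he : S.e = 0) {ω : Fm V} (A : PA S ω) : Per S (LinearMap.range ω) := by
  intro b hb h0 x h hh hx
  rw [PA_iff A hb h0] at hx ⊢
  rw [map_add, (range_An he A).1 hh, add_zero, hx]

theorem Uz_PA {ω : Fm V} (A : PA S ω) {z : V} {b : Dl V} (hb : b ∈ Uz S (LinearMap.range ω) z)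
    (h0 : b ≠ 0) : b = ω z := ((PA_iff A hb.1 h0).1 hb.2).symm

theorem mem_Uz_PA {ω : Fm V} (A : PA S ω) (z : V) : ω z ∈ Uz S (LinearMap.range ω) z :=
  ⟨⟨z, rfl⟩, PP_of A.mem rfl⟩

namespace TB

variable {η : Dl V} (T : TB S E η)
include T

theorem hd {μ : Dl V} (hμ : μ ∈ E) {x v : V} (h : C S x v) : η x * μ v + μ x * η v = 0 :=
  T.wd μ hμ x v h

theorem out {z v : V} (hz : η z = 1) (h : C S z v) {μ : Dl V} (hμ : μ ∈ E) :
    μ v = μ z * η v := by
  have h1 := T.hd hμ h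
  rw [hz, one_mul] at h1
  exact z2add h1

theorem uz_out {z : V} (hz : η z = 1) {b : Dl V} (hb : b ∈ E) (h0 : b z = 0) : b ∈ Uz S E z := by
  refine ⟨hb, ?_⟩
  intro v hv
  rw [T.out hz hv hb, h0, zero_mul]

theorem ins {z : V} (hz : η z = 0) (hn : z ∉ An E) : η ∈ Uz S E z := by
  refine ⟨T.mem, ?_⟩
  intro v hv
  rw [mem_An] at hn
  push Not at hn
  obtain ⟨μ, hμ, h1⟩ := hn
  have h2 := T.hd hμ hv
  rw [hz, zero_mul, zero_add, z2ne h1, one_mul] at h2
  exact h2

end TB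

theorem Uz_ker (he : S.e = 0) {z : V} {b : Dl V} (hb : b ∈ Uz S E z) : b z = 0 := PP_ker he hb.2

/-! ### central functionals -/

theorem Cen.pp {l b0 : Dl V} (h : Cen S E (l + b0)) (hb : b0 ∈ E) {x : V} (hx : PP S l x) :
    PP S b0 x := by
  have h1 : PP S (l + b0) x := h x (fun y hy hc => by
    rw [LinearMap.add_apply, hx y hc, mem_An.1 hy b0 hb, add_zero])
  have h2 := PP_add_form hx h1
  rwa [← add_assoc, ZModModule.add_self, zero_add] at h2

theorem C_of_all [Finite V] {v w : V} (h : ∀ f : Dl V, PP S f v → f w = 0) : C S v w := by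
  by_contra hn
  have h1 : w ∉ S.ann v := hn
  obtain ⟨l, hl1, hl⟩ := Pool.Agent.Helper58.PLine.exists_functional h1
  rw [h l hl] at hl1
  exact zero_ne_one hl1

/-- a functional vanishing on `V_v ∩ Y` -/
theorem split_Y [Finite V] {l : Dl V} {v : V} (h : ∀ y ∈ An E, C S v y → l y = 0) :
    ∃ b ∈ E, PP S (l + b) v := by
  have hfin : Module.Finite (ZMod 2) V := Module.Finite.of_finite
  by_contra hn
  have h1 : l ∉ Uz S ⊤ v ⊔ E := by
    intro hl
    obtain ⟨f, hf, b, hb, e⟩ := Submodule.mem_sup.1 hl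
    apply hn
    refine ⟨b, hb, ?_⟩
    rw [← e, add_self']
    exact hf.2
  obtain ⟨w, h2, h3⟩ := dsep _ h1
  have h4 : w ∈ An E := mem_An.2 fun μ hμ => h2 μ (Submodule.mem_sup_right hμ)
  have h5 : C S v w := C_of_all fun f hf => h2 f (Submodule.mem_sup_left ⟨trivial, hf⟩)
  rw [h w h4 h5] at h3
  exact zero_ne_one h3

theorem cen_of_unique [Finite V] (hE : Per S E) {l b : Dl V} (hb : b ∈ E)
    (hu : ∀ b', BB S E l b' → b' = b) : Cen S E (l + b) := by
  intro v hv
  obtain ⟨b2, hb2, h2⟩ := split_Y (S := S) (E := E) (l := l) (v := v) (fun y hy hc => by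
    have h1 := hv y hy hc
    rw [LinearMap.add_apply, mem_An.1 hy b hb, add_zero] at h1
    exact h1)
  obtain ⟨b3, h3, h4, h, hh, hP⟩ := (meet_iff hE (l + b2) v).1 ⟨v, h2, by
    rw [ZModModule.add_self]
    exact Submodule.zero_mem _⟩
  have h5 : b2 + b3 = b := hu _ ⟨E.add_mem hb2 h4, h, hh, by rw [← add_assoc]; exact hP⟩
  rw [← h5, ← add_assoc]
  exact PP_add_form h2 h3.2

/-- type `U` -/
def TU (S : QData V Q) (E : Submodule (ZMod 2) (Dl V)) (l : Dl V) : Prop :=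
  ∃ b0 ∈ E, b0 ≠ 0 ∧ Cen S E (l + b0)

/-- good functionals -/
def Good (S : QData V Q) (E : Submodule (ZMod 2) (Dl V)) (l : Dl V) : Prop :=
  TU S E l ∨ ∃ η, TB S E η ∧ ∀ x, PP S l x → η x = 1

theorem tu_of_mem {l : Dl V} (hl : l ∈ E) (h0 : l ≠ 0) : TU S E l :=
  ⟨l, hl, h0, by
    rw [ZModModule.add_self]
    exact fun v _ => PP_zero v⟩

/-- a good functional has no zeros in `Y` -/
theorem Good.miss (hE : Per S E) {l : Dl V} (hl : Good S E l) {x : V} (hx : PP S l x) :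
    x ∉ An E := by
  intro hY
  rcases hl with ⟨b0, h1, h2, h3⟩ | ⟨η, T, h⟩
  · exact hE.ne_of_mem h1 h2 hY (h3.pp h1 hx)
  · have h1 := h x hx
    rw [mem_An.1 hY η T.mem] at h1
    exact zero_ne_one h1

/-! ### the comparison -/

theorem star1 [Fintype V] [Fintype (Dl V)] (hE : Per S E) {κ b b0 : Dl V} {c : ZMod 2}
    (hc : ∀ a, PP S b a → κ a = c) (hb0 : b0 ∈ E) (hcen : Cen S E (κ + b0)) {b' : Dl V} {z : V}
    (hz : b' ∈ Uz S E z) :
    Zc S E S.z 0 (b + b') 0 = sg (c + b0 z) * Zc S E S.z (κ + b0) (b + b') 0 := by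
  classical
  set s : ℤ := sg (c + b0 z) with hs
  have hss : s * s = 1 := sg_mul_self _
  have e0 : Zc S E S.z (κ + b0) b z = s * Zc S E S.z 0 b z := by
    unfold Zc
    rw [Finset.mul_sum]
    apply Finset.sum_congr rfl
    intro a _
    by_cases h : a + z ∈ An E
    · rw [if_pos h, if_pos h, LinearMap.zero_apply, sg_zero, one_mul]
      by_cases h1 : inn S S.z b a = 0
      · rw [h1, mul_zero, mul_zero]
      · have h2 := hc a (inn_ne h1).1
        have h3 : b0 a = b0 z := by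
          have h4 := mem_An.1 h b0 hb0
          rw [map_add] at h4
          exact z2add h4
        rw [LinearMap.add_apply, h2, h3, hs]
    · rw [if_neg h, if_neg h, mul_zero]
  have i1 := Zc_id hE (nulE_z (S := S) (E := E)) (Tw_zero S.z) b z
  have i2 := Zc_id hE (nulE_z (S := S) (E := E)) (Tw_cen hcen) b z
  have e1 : ∑ b' : Dl V, (if b' ∈ Uz S E z then Zc S E S.z 0 (b + b') 0 -
      s * Zc S E S.z (κ + b0) (b + b') 0 else 0) = 0 := by
    have e2 : ∀ b' : Dl V, (if b' ∈ Uz S E z then Zc S E S.z 0 (b + b') 0 -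
        s * Zc S E S.z (κ + b0) (b + b') 0 else 0) =
        (if b' ∈ Uz S E z then Zc S E S.z 0 (b + b') 0 else 0) -
        s * (if b' ∈ Uz S E z then Zc S E S.z (κ + b0) (b + b') 0 else 0) := by
      intro b'
      by_cases h : b' ∈ Uz S E z
      · rw [if_pos h, if_pos h, if_pos h]
      · rw [if_neg h, if_neg h, if_neg h, mul_zero, sub_zero]
    rw [Finset.sum_congr rfl fun b' _ => e2 b', Finset.sum_sub_distrib, ← Finset.mul_sum, ← i1,
      ← i2, e0]
    calc nU S E z * Zc S E S.z 0 b z - s * (nU S E z * (s * Zc S E S.z 0 b z)) =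
        nU S E z * Zc S E S.z 0 b z - (s * s) * (nU S E z * Zc S E S.z 0 b z) := by ring
      _ = 0 := by rw [hss]; ring
  have hnn : ∀ b' ∈ (Finset.univ : Finset (Dl V)), 0 ≤ (if b' ∈ Uz S E z then
      Zc S E S.z 0 (b + b') 0 - s * Zc S E S.z (κ + b0) (b + b') 0 else 0) := by
    intro b' _
    by_cases h : b' ∈ Uz S E z
    · rw [if_pos h]
      have h1 := Zc_abs (S := S) (E := E) (κ + b0) (b + b') 0
      have h2 := abs_le.1 h1
      rcases sg_cases (c + b0 z) with h3 | h3 <;> rw [hs, h3] <;> linarith [h2.1, h2.2]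
    · rw [if_neg h]
  have h4 := (Finset.sum_eq_zero_iff_of_nonneg hnn).1 e1 b' (Finset.mem_univ _)
  rw [if_pos hz] at h4
  linarith

/-- **(★)**: `b0` is constant on the elements at which `b'` is allowed -/
theorem star [Finite V] (hE : Per S E) {κ b b0 : Dl V} {c : ZMod 2}
    (hc : ∀ a, PP S b a → κ a = c) (hb0 : b0 ∈ E) (hcen : Cen S E (κ + b0)) {b' : Dl V}
    (hB : BB S E b b') {z z' : V} (hz : b' ∈ Uz S E z) (hz' : b' ∈ Uz S E z') : b0 z = b0 z' := by
  classical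
  have := Fintype.ofFinite V
  have hf := finite_Dl (V := V)
  have := Fintype.ofFinite (Dl V)
  have h1 := star1 hE hc hb0 hcen hz
  have h2 := star1 hE hc hb0 hcen hz'
  obtain ⟨-, h, hh, hP⟩ := hB
  have h3 : 0 < Zc S E S.z 0 (b + b') 0 := Zc_zp hP (by rw [add_zero]; exact hh)
  by_contra hne
  have h4 : sg (c + b0 z) = - sg (c + b0 z') := by
    have f : ∀ c a a' : ZMod 2, a ≠ a' → sg (c + a) = - sg (c + a') := by decide
    exact f _ _ _ hne
  rw [h4] at h1
  have h5 : Zc S E S.z 0 (b + b') 0 = - Zc S E S.z 0 (b + b') 0 := by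
    conv_lhs => rw [h1]
    rw [neg_mul]
    congr 1
    exact h2.symm
  omega

/-- `P_b` misses `Y` -/
theorem star0 [Finite V] (hE : Per S E) {κ b b0 : Dl V} {c : ZMod 2}
    (hc : ∀ a, PP S b a → κ a = c) (hb0 : b0 ∈ E) (h0 : b0 ≠ 0) (hcen : Cen S E (κ + b0)) :
    ¬ BB S E b 0 := by
  intro hB
  obtain ⟨v, hv⟩ := ex_one h0
  have h1 := star hE hc hb0 hcen hB (z := v) (z' := 0) (Submodule.zero_mem _)
    (Submodule.zero_mem _)
  rw [hv, map_zero] at h1
  exact one_ne_zero h1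

/-- type `U` from uniqueness -/
theorem tu_of [Finite V] (hE : Per S E) {l b : Dl V} (hb : BB S E l b) (h0 : b ≠ 0)
    (hu : ∀ b', BB S E l b' → b' = b) : TU S E l :=
  ⟨b, hb.1, h0, cen_of_unique hE hb.1 hu⟩

theorem meet_self {l : Dl V} {x : V} (hx : PP S l x) : ∃ a, PP S l a ∧ a + x ∈ An E :=
  ⟨x, hx, by
    rw [ZModModule.add_self]
    exact Submodule.zero_mem _⟩

/-- **propagation**, atoms -/
theorem prop_A [Finite V] (he : S.e = 0) {ω : Fm V} (A : PA S ω) {κ b : Dl V} {c : ZMod 2}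
    (hc : ∀ a, PP S b a → κ a = c) {x : V} (hx : PP S b x) (hκ : TU S (LinearMap.range ω) κ) :
    TU S (LinearMap.range ω) b := by
  have hE := PA_Per he A
  obtain ⟨b0, hb0, h0, hcen⟩ := hκ
  have hn0 := star0 hE hc hb0 h0 hcen
  obtain ⟨b1, h1, hB1⟩ := (meet_iff hE b x).1 (meet_self hx)
  have hb1 : b1 ≠ 0 := by
    rintro rfl
    exact hn0 hB1
  refine tu_of hE hB1 hb1 ?_
  intro b2 hB2
  have hb2 : b2 ≠ 0 := by
    rintro rfl
    exact hn0 hB2
  obtain ⟨z2, hz2⟩ := hB2.1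
  have h2 : b2 ∈ Uz S (LinearMap.range ω) z2 := by
    rw [← hz2]
    exact mem_Uz_PA A z2
  obtain ⟨b3, h3, h3', hB3⟩ := helly hE (meet_self hx) ((meet_iff hE b z2).2 ⟨b2, h2, hB2⟩)
  have hb3 : b3 ≠ 0 := by
    rintro rfl
    exact hn0 hB3
  rw [Uz_PA A h2 hb2, ← Uz_PA A h3' hb3, Uz_PA A h3 hb3, ← Uz_PA A h1 hb1]

end Pool.Agent.H34D
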