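import Pool.Agent.H34C.Ind
import Pool.Agent.H34D.Bl

/-!
Three perfect atoms are not dependent, if the functionals in the sum of two of them are dominated by
perfect atoms in this sum.
-/

set_option autoImplicit false
set_option linter.unusedSectionVars false
set_option linter.unusedVariables false

namespace Pool.Agent.H34D

open Pool.Agent.ESL Pool.Agent.H34B Pool.Agent.H34C
open Pool.Agent.Helper58.PLine (QData)
open scoped BigOperators

variable {V Q : Type} [AddCommGroup V] [Module (ZMod 2) V] [Finite V] {S : QData V Q}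

/-- domination inside `I` -/
def DI (S : QData V Q) (I : Submodule (ZMod 2) (ESL.D V)) : Prop :=
  ∀ b ∈ I, b ≠ 0 → (∃ x, ETSC.PP S b x) → ∃ w, PA S w ∧ LinearMap.range w ≤ I ∧ Cst S w b

/-- the forms with range in `I` -/
def RI (S : QData V Q) (I : Submodule (ZMod 2) (ESL.D V)) : FS V where
  carrier := {r | r ∈ RS S ∧ LinearMap.range r ≤ I}
  add_mem' := by
    rintro a b ⟨h1, h2⟩ ⟨h3, h4⟩
    refine ⟨(RS S).add_mem h1 h3, ?_⟩
    rintro _ ⟨x, rfl⟩
    rw [LinearMap.add_apply]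
    exact I.add_mem (h2 ⟨x, rfl⟩) (h4 ⟨x, rfl⟩)
  zero_mem' := by
    refine ⟨(RS S).zero_mem, ?_⟩
    rintro _ ⟨x, rfl⟩
    exact I.zero_mem
  smul_mem' := by
    rintro c a ⟨h1, h2⟩
    refine ⟨(RS S).smul_mem c h1, ?_⟩
    rintro _ ⟨x, rfl⟩
    rw [LinearMap.smul_apply]
    exact I.smul_mem c (h2 ⟨x, rfl⟩)

variable {I : Submodule (ZMod 2) (ESL.D V)}

theorem RI_alt (he : S.e = 0) : IsAlt (RI S I) := fun k hk x => ETSC.R_alt he hk.1 x

/-- **Lemma L** inside `I` -/
theorem lemLI (he : S.e = 0) (hN : DI S I) {β : ESL.D V} (hβ : β ∈ I) {x : V}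
    (hx : ETSC.PP S β x) : β ∈ Lx (RI S I) x := by
  classical
  have := Fintype.ofFinite V
  have hf := finite_Dl (V := V)
  by_contra hbad
  obtain ⟨b, ⟨hbI, x0, hx0, hb⟩, hmax⟩ := Set.exists_max_image
    {b : ESL.D V | b ∈ I ∧ ∃ x, ETSC.PP S b x ∧ ¬ b ∈ Lx (RI S I) x}
    (fun b => Set.ncard {y | ETSC.PP S b y}) (Set.toFinite _) ⟨β, hβ, x, hx, hbad⟩
  by_cases hb0 : b = 0
  · exact hb ⟨0, Submodule.zero_mem _, by rw [hb0]; rfl⟩
  obtain ⟨ω, A, hωI, hc⟩ := hN b hbI hb0 ⟨x0, hx0⟩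
  have hsub : {y | ETSC.PP S b y} ⊆ {y | ETSC.PP S (b + ω x0) y} := by
    intro y hy v hv
    rw [LinearMap.add_apply, hc x0 y hx0 hy, A.mem _ _ hv, hy v hv, add_zero]
  have t := Z_two he A (nul_z A.mem) b x0
  have s1 : 0 < Z S ω S.z 0 b x0 := Zz_pos hx0 rfl
  have s0 : Z S ω S.z 0 b 0 = 0 := by
    by_contra hn
    obtain ⟨y, a1, _, a2⟩ := Z0_ne hn
    rw [map_zero] at a2
    exact hc.ne he A a1 a2
  obtain ⟨d, d1, d2⟩ := Zz_ex (show 0 < Z S ω S.z 0 (b + ω x0) 0 by omega)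
  rw [map_zero] at d2
  have hlt : Set.ncard {y | ETSC.PP S b y} < Set.ncard {y | ETSC.PP S (b + ω x0) y} := by
    apply Set.ncard_lt_ncard _ (Set.toFinite _)
    refine ⟨hsub, fun h => ?_⟩
    exact hc.ne he A (h d1) d2
  by_cases h1 : b + ω x0 ∈ Lx (RI S I) x0
  · obtain ⟨ρ, h2, h3⟩ := h1
    apply hb
    refine ⟨ρ + ω, (RI S I).add_mem h2 ⟨A.mem, hωI⟩, ?_⟩
    rw [LinearMap.add_apply, h3, add_assoc, ZModModule.add_self, add_zero]
  · exact absurd (hmax _ ⟨I.add_mem hbI (hωI ⟨x0, rfl⟩), x0, hsub hx0, h1⟩) (not_le.2 hlt)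

theorem pp_of_LxI {b : ESL.D V} {x : V} (h : b ∈ Lx (RI S I) x) : ETSC.PP S b x := by
  obtain ⟨k, hk, rfl⟩ := h
  exact ETSC.PP_of (S := S) hk.1 rfl

theorem PAtomI_pa (he : S.e = 0) (hN : DI S I) {w : ESL.Fm V} (hw : PAtom (RI S I) w) :
    PA S w :=
  ⟨hw.1.1, hw.2.1, fun q b hb hb0 hp => hw.2.2 q b hb hb0 (lemLI he hN (hw.1.2 hb) hp)⟩

theorem PAtomI_of {w : ESL.Fm V} (A : PA S w) (h : LinearMap.range w ≤ I) :
    PAtom (RI S I) w :=
  ⟨⟨A.mem, h⟩, A.ne, fun q b hb hb0 hp => A.per q b hb hb0 (pp_of_LxI hp)⟩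

/-- domination with constancy inside `I` -/
theorem domCI (he : S.e = 0) (hN : DI S I) {b : ESL.D V} (hI : b ∈ I) (hb : b ≠ 0)
    (hx : ∃ x, ETSC.PP S b x) :
    ∃ w, PAtom (RI S I) w ∧ (∀ r ∈ RI S I, b ∈ LinearMap.range r →
      LinearMap.range w ≤ LinearMap.range r) ∧ Cst S w b := by
  obtain ⟨w, A, hwI, hc⟩ := hN b hI hb hx
  refine ⟨w, PAtomI_of A hwI, ?_, hc⟩
  rintro r hr ⟨y, hy⟩
  rw [range_le_iff (RI_alt he w ⟨A.mem, hwI⟩) (RI_alt he r hr)]
  intro d hd
  rw [LinearMap.mem_ker] at hd ⊢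
  have h1 : ETSC.PP S b y := ETSC.PP_of (S := S) hr.1 hy
  have h2 : ETSC.PP S b (y + d) := ETSC.PP_of (S := S) hr.1 (by rw [map_add, hd, add_zero, hy])
  have h3 := hc y (y + d) h1 h2
  rw [map_add] at h3
  have h4 : w y + 0 = w y + w d := by rw [add_zero]; exact h3
  exact (add_left_cancel h4).symm

theorem DomI (he : S.e = 0) (hN : DI S I) : Dom (RI S I) := by
  rintro b hb ⟨x, hx⟩
  have hI : b ∈ I := by
    obtain ⟨r, hr, e⟩ := hx
    rw [← e]
    exact hr.2 ⟨x, rfl⟩
  obtain ⟨w, h1, h2, _⟩ := domCI he hN hI hb ⟨x, pp_of_LxI hx⟩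
  exact ⟨w, h1, h2⟩

/-- every element of `I` lies in the range of an atom inside `I` -/
theorem cover_I (he : S.e = 0) {a b c : ESL.Fm V}
    (hN : DI S (LinearMap.range a ⊔ LinearMap.range b))
    (ha : PAtom (RI S (LinearMap.range a ⊔ LinearMap.range b)) a)
    (hb : PAtom (RI S (LinearMap.range a ⊔ LinearMap.range b)) b)
    (hc : PAtom (RI S (LinearMap.range a ⊔ LinearMap.range b)) c) (hab : a ≠ b)
    (hac : a ≠ c) (hbc : b ≠ c) (h : LinearMap.range c ≤ LinearMap.range a ⊔ LinearMap.range b)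
    {β : ESL.D V} (hβ : β ∈ LinearMap.range a ⊔ LinearMap.range b) (h0 : β ≠ 0) :
    ∃ w, PAtom (RI S (LinearMap.range a ⊔ LinearMap.range b)) w ∧
      LinearMap.range w ≤ LinearMap.range a ⊔ LinearMap.range b ∧ β ∈ LinearMap.range w := by
  have hA := RI_alt (S := S) (I := LinearMap.range a ⊔ LinearMap.range b) he
  have hD := DomI he hN
  have hs : LinearMap.range (a + b) = LinearMap.range a ⊔ LinearMap.range b := range_pair hA ha hb hab
  have hs' : LinearMap.range (a + c) = LinearMap.range a ⊔ LinearMap.range b := by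
    rw [range_pair hA ha hc hac, sup_comm]
    exact triple hA ha hb hc hab hac hbc h
  have hbc' : LinearMap.range (b + c) = LinearMap.range a ⊔ LinearMap.range b := by
    rw [range_pair hA hb hc hbc]
    exact span_I hA ha hb hab hb hc hbc le_sup_right h
  have hsR := Submodule.add_mem _ ha.1 hb.1
  have hsR' := Submodule.add_mem _ ha.1 hc.1
  obtain ⟨x, hx⟩ : β ∈ LinearMap.range (a + b) := by rw [hs]; exact hβ
  obtain ⟨x', hx'⟩ : β ∈ LinearMap.range (a + c) := by rw [hs']; exact hβ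
  have hpx : ETSC.PP S β x := ETSC.PP_of (S := S) hsR.1 hx
  have hpx' : ETSC.PP S β x' := ETSC.PP_of (S := S) hsR'.1 hx'
  obtain ⟨w, hw, hdom, hcst⟩ := domCI he hN hβ h0 ⟨x, hpx⟩
  have hwI : LinearMap.range w ≤ LinearMap.range a ⊔ LinearMap.range b := hw.1.2
  obtain ⟨hw', hw'I⟩ := add_atom hA hD ha hb hab hsR hs hw hwI
  have hsum : w + ((a + b) + w) = a + b := by
    rw [add_comm (a + b) w, add_add_self]
  by_cases hz : ((a + b) + w) x = 0
  · refine ⟨w, hw, hwI, x, ?_⟩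
    have h1 := congrArg (fun k : ESL.Fm V => k x) hsum
    simp only [LinearMap.add_apply] at h1 hz
    have h2 : (a + b) x = β := hx
    rw [LinearMap.add_apply] at h2
    rw [h2] at hz
    exact (eq_of_add hz).symm
  · exfalso
    have hcc : ∀ z, ETSC.PP S β z → ((a + b) + w) z = ((a + b) + w) x := by
      have h1 := cst_other (S := S) hw.1.1 (PAtomI_pa he hN hw') (x := x) hz (by
        intro z hz'
        rw [hsum, hx] at hz'
        exact hcst z x hz' hpx)
      rw [hsum, hx] at h1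
      exact h1
    have k2 : (a + b) x' = β := by
      rw [← hsum, LinearMap.add_apply, hcst x' x hpx' hpx, hcc x' hpx', ← LinearMap.add_apply, hsum,
        hx]
    have k3 : (b + c) x' = 0 := by
      have e : b + c = (a + b) + (a + c) := by
        rw [add_comm a b, add_assoc, add_add_self]
      rw [e, LinearMap.add_apply, k2, hx', add_self']
    have k4 : (a + b) x' = 0 := by
      have h1 : LinearMap.range (a + b) ≤ LinearMap.range (b + c) := by rw [hs, hbc']
      exact (range_le_iff (hA _ hsR) (hA _ (Submodule.add_mem _ hb.1 hc.1))).1 h1 k3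
    exact h0 (k2 ▸ k4)

/-- no atom lies inside the sum of two others -/
theorem no_tripleI (he : S.e = 0) {a b c : ESL.Fm V}
    (hN : DI S (LinearMap.range a ⊔ LinearMap.range b)) (Aa : PA S a) (Ab : PA S b)
    (Ac : PA S c) (hab : a ≠ b) (hac : a ≠ c) (hbc : b ≠ c)
    (h : LinearMap.range c ≤ LinearMap.range a ⊔ LinearMap.range b) : False := by
  classical
  have ha := PAtomI_of Aa (I := LinearMap.range a ⊔ LinearMap.range b) le_sup_left
  have hb := PAtomI_of Ab (I := LinearMap.range a ⊔ LinearMap.range b) le_sup_right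
  have hc := PAtomI_of Ac h
  have hA := RI_alt (S := S) (I := LinearMap.range a ⊔ LinearMap.range b) he
  have hD := DomI he hN
  have : Fintype (ESL.D V) := Fintype.ofFinite _
  have : Fintype (ESL.Fm V) := Fintype.ofFinite _
  let Om : Finset (ESL.Fm V) := Finset.univ.filter (fun w =>
    PAtom (RI S (LinearMap.range a ⊔ LinearMap.range b)) w ∧
    LinearMap.range w ≤ LinearMap.range a ⊔ LinearMap.range b)
  have hOm : ∀ w, w ∈ Om ↔ PAtom (RI S (LinearMap.range a ⊔ LinearMap.range b)) w ∧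
      LinearMap.range w ≤ LinearMap.range a ⊔ LinearMap.range b := by
    intro w; simp [Om]
  have hs := range_pair hA ha hb hab
  have hsR := Submodule.add_mem _ ha.1 hb.1
  have hs0 : a + b ≠ 0 := fun he => hab (eq_of_add he)
  have h1 : ∑ w ∈ Om, (1 : ZMod 2) = 0 := by
    apply Finset.sum_involution (fun w _ => (a + b) + w)
    · intro w hw; decide
    · intro w hw _ he
      apply hs0
      have := congrArg (fun t => t + w) he
      simpa [add_add_self', add_self'] using this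
    · intro w hw
      rw [hOm] at hw ⊢
      exact add_atom hA hD ha hb hab hsR hs hw.1 hw.2
    · intro w hw
      exact add_add_self _ _
  have h2 : Finset.univ.filter (fun β : ESL.D V => β ∈ LinearMap.range a ⊔ LinearMap.range b ∧ β ≠ 0) =
      Om.biUnion (fun w => Finset.univ.filter (fun β : ESL.D V => β ∈ LinearMap.range w ∧ β ≠ 0)) := by
    ext β
    simp only [Finset.mem_filter, Finset.mem_univ, true_and, Finset.mem_biUnion]
    constructor
    · rintro ⟨hβ, h0⟩
      obtain ⟨w, hw, hwI, hβw⟩ := cover_I he hN ha hb hc hab hac hbc h hβ h0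
      exact ⟨w, (hOm w).2 ⟨hw, hwI⟩, hβw, h0⟩
    · rintro ⟨w, hw, hβw, h0⟩
      exact ⟨((hOm w).1 hw).2 hβw, h0⟩
  have h3 := congrArg (fun t : Finset (ESL.D V) => (t.card : ZMod 2)) h2
  rw [Finset.card_biUnion (by
    intro w hw w' hw' hne
    rw [Function.onFun, Finset.disjoint_left]
    intro β hβ hβ'
    simp only [Finset.mem_filter, Finset.mem_univ, true_and] at hβ hβ'
    exact hne (atom_eq hA ((hOm w).1 hw).1 ((hOm w').1 hw').1 hβ.2 hβ.1 hβ'.1)), Nat.cast_sum,
    Finset.sum_congr rfl (fun w hw => card_nz_odd (LinearMap.range w) ((hOm w).1 hw).1.nz), h1] at h3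
  obtain ⟨β, hβ, h0⟩ := ha.nz
  rw [card_nz_odd _ ⟨β, Submodule.mem_sup_left hβ, h0⟩] at h3
  exact one_ne_zero h3

end Pool.Agent.H34D
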