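import Pool.Agent.H34D.Ia

/-!
The blocks are independent.
-/

set_option autoImplicit false
set_option linter.unusedSectionVars false
set_option linter.unusedVariables false

namespace Pool.Agent.H34D

open QS
open Pool.Agent.Helper58.PLine (QData)
open Pool.Agent.ETCP
open Pool.Agent.ETSC
open Pool.Agent.H34C

variable {V Q : Type} [AddCommGroup V] [Module (ZMod 2) V] {S : QData V Q}
  {E E' : Submodule (ZMod 2) (Dl V)}

/-- functionals in a block occur -/
theorem Blk.ex (hE : Blk S E) {c : Dl V} (hc : c ∈ E) (h0 : c ≠ 0) : ∃ x, PP S c x := by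
  rcases hE with ⟨ω, A, rfl⟩ | ⟨η, T⟩
  · obtain ⟨d, rfl⟩ := hc
    exact ⟨d, PP_of A.mem rfl⟩
  · obtain ⟨N, ⟨m, h1, h2, h3⟩, h4⟩ := T.big (M := ⊤) hc h0 (fun μ _ h =>
      LinearMap.ext fun v => h v trivial)
    exact ⟨m, h4 m h1 h2 h3⟩

/-- a good functional is constant on the coset of a space: an element of the block -/
theorem Good.mem [Finite V] (he : S.e = 0) {b : Dl V} (hb : Good S E b)
    {F : Submodule (ZMod 2) (Dl V)} {x0 : V} (hx : ∀ u ∈ An F, PP S b (x0 + u)) :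
    ∃ c ∈ E, c ≠ 0 ∧ c ∈ F := by
  rcases hb with ⟨b0, h1, h2, h3⟩ | ⟨η, T, h⟩
  · refine ⟨b0, h1, h2, mem_of_kill ?_⟩
    intro d hd
    have k1 := PP_ker he (h3.pp h1 (hx d hd))
    have k2 := PP_ker he (h3.pp h1 (hx 0 (Submodule.zero_mem _)))
    rw [add_zero] at k2
    rw [map_add, k2, zero_add] at k1
    exact k1
  · refine ⟨η, T.mem, T.ne, mem_of_kill ?_⟩
    intro d hd
    have k1 := h _ (hx d hd)
    have k2 := h _ (hx 0 (Submodule.zero_mem _))
    rw [add_zero] at k2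
    rw [map_add, k2] at k1
    have f : ∀ a : ZMod 2, 1 + a = 1 → a = 0 := by decide
    exact f _ k1

/-- two blocks: the sum of two functionals -/
theorem sum_two [Finite V] (h1 : Per S E) (h2 : Per S E') (d : Dj E E') {c c' : Dl V}
    (hc : c ∈ E) (hc' : c' ∈ E') {x x' : V} (hx : PP S c x) (hx' : PP S c' x') :
    ∃ x0, ∀ u ∈ An (E ⊔ E'), PP S (c + c') (x0 + u) := by
  obtain ⟨y', hy', hy⟩ := d.sup (x + x')
  refine ⟨x' + y', ?_⟩
  intro u hu
  have u1 : u ∈ An E := mem_An.2 fun ν hν => mem_An.1 hu ν (Submodule.mem_sup_left hν)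
  have u2 : u ∈ An E' := mem_An.2 fun ν hν => mem_An.1 hu ν (Submodule.mem_sup_right hν)
  apply PP_add_form
  · rw [h1.coset hc (z := x)]
    · exact hx
    · have e : x' + y' + u + x = (x + x' + y') + u := by abel
      rw [e]
      exact (An E).add_mem hy u1
  · rw [h2.coset hc' (z := x')]
    · exact hx'
    · have e : x' + y' + u + x' = y' + u := by
        have e1 : x' + y' + u + x' = (x' + x') + (y' + u) := by abel
        rw [e1, ZModModule.add_self, zero_add]
      rw [e]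
      exact (An E').add_mem hy' u2

/-- atoms with a common functional lie in the range of a form -/
theorem PA_le_range [Finite V] (he : S.e = 0) {ω r : Fm V} (A : PA S ω) (hr : r ∈ R S)
    {c : Dl V} (h1 : c ∈ LinearMap.range ω) (h0 : c ≠ 0) (h2 : c ∈ LinearMap.range r)
    {I : Submodule (ZMod 2) (Dl V)} (hI : ∀ u ∈ An I, r u = 0) : LinearMap.range ω ≤ I := by
  apply le_of_An
  intro u hu
  rw [range_An he A]
  obtain ⟨x, hx⟩ := h2
  have k1 : ω x = c := (PA_iff A h1 h0).1 (PP_of hr hx)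
  have k2 : ω (x + u) = c := (PA_iff A h1 h0).1 (PP_of hr (by
    rw [map_add, hI u hu, add_zero, hx]))
  rw [map_add, k1] at k2
  have h3 : c + ω u = c + 0 := by rw [k2, add_zero]
  exact add_left_cancel h3

theorem mem_range_pair [Finite V] (he : S.e = 0) {ω1 ω2 : Fm V} (A1 : PA S ω1) (A2 : PA S ω2)
    (d : Dj (LinearMap.range ω1) (LinearMap.range ω2)) {c : Dl V}
    (hc : c ∈ LinearMap.range ω1 ⊔ LinearMap.range ω2) : c ∈ LinearMap.range (ω1 + ω2) := by
  obtain ⟨_, ⟨x, rfl⟩, _, ⟨x', rfl⟩, rfl⟩ := Submodule.mem_sup.1 hc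
  obtain ⟨y', hy', hy⟩ := d.sup (x + x')
  refine ⟨x' + y', ?_⟩
  have h1 := (range_An he A1).1 hy
  have h2 := (range_An he A2).1 hy'
  have e : x + x' + y' = x + (x' + y') := by abel
  rw [e, map_add] at h1
  rw [LinearMap.add_apply, ← eo h1, map_add, h2, add_zero]

/-- good functionals for an atom -/
theorem Good.cst [Finite V] (he : S.e = 0) {ω : Fm V} (A : PA S ω) {b : Dl V}
    (hb : Good S (LinearMap.range ω) b) : Cst S ω b := by
  intro x x' hx hx'
  have hE := PA_Per he A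
  obtain ⟨b3, h1, h2, hB⟩ := helly hE (meet_self hx) (meet_self hx')
  have h3 : b3 ≠ 0 := by
    rintro rfl
    obtain ⟨-, h, hh, hP⟩ := hB
    rw [add_zero] at hP
    exact hb.miss hE hP hh
  rw [← Uz_PA A h1 h3, ← Uz_PA A h2 h3]

/-- domination inside the sum of two atoms -/
theorem di_pair [Finite V] (he : S.e = 0) (hSR : SRS S) {ω1 ω2 : Fm V} (A1 : PA S ω1)
    (A2 : PA S ω2) (d : Dj (LinearMap.range ω1) (LinearMap.range ω2)) :
    DI S (LinearMap.range ω1 ⊔ LinearMap.range ω2) := by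
  intro b hb hb0 hbx
  have B1 : Blk S (LinearMap.range ω1) := Or.inl ⟨ω1, A1, rfl⟩
  have B2 : Blk S (LinearMap.range ω2) := Or.inl ⟨ω2, A2, rfl⟩
  obtain ⟨E, hE, hG⟩ := domG he hSR hb0 hbx
  obtain ⟨e1, h1, e2, h2, e⟩ := Submodule.mem_sup.1 hb
  have hx1 : ∃ x, PP S e1 x := by
    obtain ⟨x, rfl⟩ := h1
    exact ⟨x, PP_of A1.mem rfl⟩
  have hx2 : ∃ x, PP S e2 x := by
    obtain ⟨x, rfl⟩ := h2
    exact ⟨x, PP_of A2.mem rfl⟩
  obtain ⟨x1, hx1⟩ := hx1
  obtain ⟨x2, hx2⟩ := hx2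
  obtain ⟨x0, hx0⟩ := sum_two (PA_Per he A1) (PA_Per he A2) d h1 h2 hx1 hx2
  rw [e] at hx0
  obtain ⟨c, hcE, hc0, hcI⟩ := hG.mem he hx0
  -- `E` is the range of an atom
  obtain ⟨ω, A, hω⟩ : ∃ ω, PA S ω ∧ LinearMap.range ω = E := by
    rcases hE with h | ⟨η, T⟩
    · exact h
    by_cases k1 : LinearMap.range ω1 = E
    · exact ⟨ω1, A1, k1⟩
    by_cases k2 : LinearMap.range ω2 = E
    · exact ⟨ω2, A2, k2⟩
    exfalso
    have hE : Blk S E := Or.inr ⟨η, T⟩
    obtain ⟨a1, l1, a2, l2, e'⟩ := Submodule.mem_sup.1 hcI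
    have d1 := dj_of he B1 hE k1
    have d2 := dj_of he B2 hE k2
    have n1 : a1 ≠ 0 := by
      rintro rfl
      rw [zero_add] at e'
      exact hc0 (d2 c (e' ▸ l2) hcE)
    have n2 : a2 ≠ 0 := by
      rintro rfl
      rw [add_zero] at e'
      exact hc0 (d1 c (e' ▸ l1) hcE)
    exact noTAA he A1 A2 T d d1 d2 l1 l2 hcE n1 n2 hc0 e'
  subst hω
  refine ⟨ω, A, ?_, hG.cst he A⟩
  refine PA_le_range he A ((R S).add_mem A1.mem A2.mem) hcE hc0
    (mem_range_pair he A1 A2 d hcI) ?_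
  intro u hu
  have u1 : u ∈ An (LinearMap.range ω1) :=
    mem_An.2 fun ν hν => mem_An.1 hu ν (Submodule.mem_sup_left hν)
  have u2 : u ∈ An (LinearMap.range ω2) :=
    mem_An.2 fun ν hν => mem_An.1 hu ν (Submodule.mem_sup_right hν)
  rw [LinearMap.add_apply, (range_An he A1).1 u1, (range_An he A2).1 u2, add_zero]

/-- no dependent triple of atoms -/
theorem noAAA [Finite V] (he : S.e = 0) (hSR : SRS S) {ω1 ω2 ω3 : Fm V} (A1 : PA S ω1)
    (A2 : PA S ω2) (A3 : PA S ω3) (d12 : Dj (LinearMap.range ω1) (LinearMap.range ω2))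
    (d13 : Dj (LinearMap.range ω1) (LinearMap.range ω3))
    (d23 : Dj (LinearMap.range ω2) (LinearMap.range ω3)) {c1 c2 c3 : Dl V}
    (m1 : c1 ∈ LinearMap.range ω1) (m2 : c2 ∈ LinearMap.range ω2)
    (m3 : c3 ∈ LinearMap.range ω3) (n1 : c1 ≠ 0) (n2 : c2 ≠ 0) (n3 : c3 ≠ 0)
    (e : c1 + c2 = c3) : False := by
  have hcI : c3 ∈ LinearMap.range ω1 ⊔ LinearMap.range ω2 := by
    rw [← e]
    exact Submodule.add_mem_sup m1 m2
  refine no_tripleI he (di_pair he hSR A1 A2 d12) A1 A2 A3 ?_ ?_ ?_ ?_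
  · rintro rfl
    exact n1 (d12 c1 m1 m1)
  · rintro rfl
    exact n1 (d13 c1 m1 m1)
  · rintro rfl
    exact n2 (d23 c2 m2 m2)
  · refine PA_le_range he A3 ((R S).add_mem A1.mem A2.mem) m3 n3
      (mem_range_pair he A1 A2 d12 hcI) ?_
    intro u hu
    have u1 : u ∈ An (LinearMap.range ω1) :=
      mem_An.2 fun ν hν => mem_An.1 hu ν (Submodule.mem_sup_left hν)
    have u2 : u ∈ An (LinearMap.range ω2) :=
      mem_An.2 fun ν hν => mem_An.1 hu ν (Submodule.mem_sup_right hν)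
    rw [LinearMap.add_apply, (range_An he A1).1 u1, (range_An he A2).1 u2, add_zero]

/-- **no dependent triple of blocks** -/
theorem noTriple [Finite V] (he : S.e = 0) (hSR : SRS S) {E1 E2 E3 : Submodule (ZMod 2) (Dl V)}
    (B1 : Blk S E1) (B2 : Blk S E2) (B3 : Blk S E3) (k12 : E1 ≠ E2) (k13 : E1 ≠ E3)
    (k23 : E2 ≠ E3) {c1 c2 c3 : Dl V} (m1 : c1 ∈ E1) (m2 : c2 ∈ E2) (m3 : c3 ∈ E3)
    (n1 : c1 ≠ 0) (n2 : c2 ≠ 0) (n3 : c3 ≠ 0) (e : c1 + c2 = c3) : False := by
  have d12 := dj_of he B1 B2 k12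
  have d13 := dj_of he B1 B3 k13
  have d23 := dj_of he B2 B3 k23
  have p1 := B1.per he
  have p2 := B2.per he
  have p3 := B3.per he
  have e1 : c2 + c3 = c1 := by rw [← e, add_comm c1 c2, ← add_assoc, ZModModule.add_self, zero_add]
  have e2 : c1 + c3 = c2 := by rw [← e, ← add_assoc, ZModModule.add_self, zero_add]
  rcases B1 with ⟨ω1, A1, rfl⟩ | ⟨η1, T1⟩
  · rcases B2 with ⟨ω2, A2, rfl⟩ | ⟨η2, T2⟩
    · rcases B3 with ⟨ω3, A3, rfl⟩ | ⟨η3, T3⟩
      · exact noAAA he hSR A1 A2 A3 d12 d13 d23 m1 m2 m3 n1 n2 n3 e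
      · exact noTAA he A1 A2 T3 d12 d13 d23 m1 m2 m3 n1 n2 n3 e
    · rcases B3 with ⟨ω3, A3, rfl⟩ | ⟨η3, T3⟩
      · exact noTAA he A1 A3 T2 d13 d12 d23.symm m1 m3 m2 n1 n3 n2 e2
      · exact noTT T2 T3 p1 d12.symm d13.symm m2 m1 m3 n2 n1 n3 (by rw [add_comm]; exact e)
  · rcases B2 with ⟨ω2, A2, rfl⟩ | ⟨η2, T2⟩
    · rcases B3 with ⟨ω3, A3, rfl⟩ | ⟨η3, T3⟩
      · exact noTAA he A2 A3 T1 d23 d12.symm d13.symm m2 m3 m1 n2 n3 n1 e1
      · exact noTT T1 T3 p2 d12 d23.symm m1 m2 m3 n1 n2 n3 e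
    · exact noTT T1 T2 p3 d13 d23 m1 m3 m2 n1 n3 n2 e2

/-! ### sums of blocks -/

/-- independence of a finite family -/
def IndOn (T : Finset (Submodule (ZMod 2) (Dl V))) : Prop :=
  ∀ f : Submodule (ZMod 2) (Dl V) → Dl V, (∀ E ∈ T, f E ∈ E) → ∑ E ∈ T, f E = 0 →
    ∀ E ∈ T, f E = 0

/-- the sum of a finite family -/
def SM (T : Finset (Submodule (ZMod 2) (Dl V))) : Submodule (ZMod 2) (Dl V) where
  carrier := {μ | ∃ f : Submodule (ZMod 2) (Dl V) → Dl V, (∀ E ∈ T, f E ∈ E) ∧ μ = ∑ E ∈ T, f E}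
  add_mem' := by
    rintro a b ⟨f, h1, h2⟩ ⟨g, h3, h4⟩
    refine ⟨fun E => f E + g E, fun E hE => E.add_mem (h1 E hE) (h3 E hE), ?_⟩
    rw [Finset.sum_add_distrib, h2, h4]
  zero_mem' := ⟨fun _ => 0, fun E _ => E.zero_mem, by rw [Finset.sum_const_zero]⟩
  smul_mem' := by
    rintro c a ⟨f, h1, h2⟩
    refine ⟨fun E => c • f E, fun E hE => E.smul_mem c (h1 E hE), ?_⟩
    rw [h2, Finset.smul_sum]

theorem mem_SM {T : Finset (Submodule (ZMod 2) (Dl V))} {f : Submodule (ZMod 2) (Dl V) → Dl V}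
    (h : ∀ E ∈ T, f E ∈ E) : ∑ E ∈ T, f E ∈ SM T := ⟨f, h, rfl⟩

theorem le_SM {T : Finset (Submodule (ZMod 2) (Dl V))} (h : E ∈ T) : E ≤ SM T := by
  classical
  intro μ hμ
  refine ⟨fun F => if F = E then μ else 0, ?_, ?_⟩
  · intro F _
    show (if F = E then μ else 0) ∈ F
    by_cases h1 : F = E
    · rw [if_pos h1, h1]
      exact hμ
    · rw [if_neg h1]
      exact F.zero_mem
  · rw [Finset.sum_ite_eq', if_pos h]

theorem IndOn.of_insert {T : Finset (Submodule (ZMod 2) (Dl V))} [DecidableEq (Submodule (ZMod 2) (Dl V))]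
    (hE : E ∉ T) (h : IndOn (insert E T)) : IndOn T := by
  intro f h1 h2 F hF
  have h3 := h (fun F => if F = E then 0 else f F) (by
    intro F hF
    by_cases h4 : F = E
    · rw [if_pos h4]
      exact F.zero_mem
    · rw [if_neg h4]
      exact h1 F ((Finset.mem_insert.1 hF).resolve_left h4)) (by
    rw [Finset.sum_insert hE, if_pos rfl, zero_add, ← h2]
    apply Finset.sum_congr rfl
    intro F hF
    exact if_neg fun h4 : F = E => hE (h4 ▸ hF)) F (Finset.mem_insert_of_mem hF)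
  rwa [if_neg (fun h4 : F = E => hE (h4 ▸ hF))] at h3

theorem IndOn.dj {T : Finset (Submodule (ZMod 2) (Dl V))} [DecidableEq (Submodule (ZMod 2) (Dl V))]
    (hE : E ∉ T) (h : IndOn (insert E T)) : Dj E (SM T) := by
  rintro c h1 ⟨f, h2, h3⟩
  have h4 := h (fun F => if F = E then c else f F) (by
    intro F hF
    by_cases h4 : F = E
    · rw [if_pos h4, h4]
      exact h1
    · rw [if_neg h4]
      exact h2 F ((Finset.mem_insert.1 hF).resolve_left h4)) (by
    rw [Finset.sum_insert hE, if_pos rfl]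
    have e : ∑ F ∈ T, (if F = E then c else f F) = ∑ F ∈ T, f F := by
      apply Finset.sum_congr rfl
      intro F hF
      exact if_neg fun h4 : F = E => hE (h4 ▸ hF)
    rw [e, ← h3]
    exact ZModModule.add_self _) E (Finset.mem_insert_self _ _)
  rwa [if_pos rfl] at h4

/-- simultaneous congruences -/
theorem solve [Finite V] (p : Submodule (ZMod 2) (Dl V) → V)
    (T : Finset (Submodule (ZMod 2) (Dl V))) (h : IndOn T) : ∃ x, ∀ E ∈ T, x + p E ∈ An E := by
  classical
  induction T using Finset.induction_on with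
  | empty => exact ⟨0, fun E hE => absurd hE (Finset.notMem_empty _)⟩
  | insert E T hE ih =>
    obtain ⟨x, hx⟩ := ih (h.of_insert hE)
    obtain ⟨y, hy, hy1⟩ := (h.dj hE).sup (x + p E)
    refine ⟨x + y, ?_⟩
    intro F hF
    rcases Finset.mem_insert.1 hF with h1 | h1
    · subst h1
      have e : x + y + p F = x + p F + y := by abel
      rw [e]
      exact hy1
    · have e : x + y + p F = (x + p F) + y := by abel
      rw [e]
      exact (An F).add_mem (hx F h1) (mem_An.2 fun ν hν => mem_An.1 hy ν (le_SM h1 hν))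

/-- **the blocks are independent** -/
theorem ind_n [Finite V] (he : S.e = 0) (hSR : SRS S) : ∀ n : ℕ,
    ∀ T : Finset (Submodule (ZMod 2) (Dl V)), T.card ≤ n → (∀ E ∈ T, Blk S E) → IndOn T := by
  classical
  intro n
  induction n with
  | zero =>
    intro T hT _ f _ _ E hE
    rw [Finset.card_eq_zero.1 (Nat.le_zero.1 hT)] at hE
    exact absurd hE (Finset.notMem_empty _)
  | succ n ih =>
    intro T hT hB f hf hs E hE
    by_contra hcon
    have hnz : ∀ F ∈ T, f F ≠ 0 := by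
      intro A hA h0
      have h1 := ih (T.erase A) (by
        have := Finset.card_erase_of_mem hA
        omega) (fun F hF => hB F (Finset.mem_of_mem_erase hF)) f
        (fun F hF => hf F (Finset.mem_of_mem_erase hF)) (by
          rw [← Finset.add_sum_erase T f hA, h0, zero_add] at hs
          exact hs)
      apply hcon
      by_cases h2 : E = A
      · rw [h2, h0]
      · exact h1 E (Finset.mem_erase.2 ⟨h2, hE⟩)
    have h1 : ∃ D ∈ T, D ≠ E := by
      by_contra hc
      push Not at hc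
      have : T = {E} := Finset.eq_singleton_iff_unique_mem.2 ⟨hE, hc⟩
      rw [this, Finset.sum_singleton] at hs
      exact hcon hs
    obtain ⟨D, hD, hDE⟩ := h1
    have hDT : D ∈ T.erase E := Finset.mem_erase.2 ⟨hDE, hD⟩
    let T' := (T.erase E).erase D
    have hT'c : T'.card + 2 = T.card := by
      have h1 := Finset.card_erase_add_one hE
      have h2 := Finset.card_erase_add_one hDT
      show ((T.erase E).erase D).card + 2 = T.card
      omega
    have hT'sub : ∀ A ∈ T', A ∈ T ∧ A ≠ E ∧ A ≠ D := by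
      intro A hA
      have h1 := Finset.mem_erase.1 hA
      have h2 := Finset.mem_erase.1 h1.2
      exact ⟨h2.2, h2.1, h1.1⟩
    have hsum : f E + f D = ∑ A ∈ T', f A := by
      have h2 : f E + (f D + ∑ A ∈ T', f A) = 0 := by
        rw [← hs, ← Finset.add_sum_erase T f hE, ← Finset.add_sum_erase _ f hDT]
      rw [← add_assoc] at h2
      exact eo h2
    have dED := dj_of he (hB E hE) (hB D hD) (Ne.symm hDE)
    have hb0 : f E + f D ≠ 0 := by
      intro h0
      have h3 := eo h0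
      exact hcon (dED _ (hf E hE) (h3 ▸ hf D hD))
    obtain ⟨x1, hx1⟩ := (hB E hE).ex (hf E hE) (hnz E hE)
    obtain ⟨x2, hx2⟩ := (hB D hD).ex (hf D hD) (hnz D hD)
    obtain ⟨x0, hx0⟩ := sum_two ((hB E hE).per he) ((hB D hD).per he) dED (hf E hE) (hf D hD)
      hx1 hx2
    obtain ⟨A, hA, hG⟩ := domG he hSR hb0 ⟨_, hx0 0 (Submodule.zero_mem _)⟩
    obtain ⟨c, c1, c2, c3⟩ := hG.mem he hx0
    -- `A` is one of the two blocks
    have hAcase : A = E ∨ A = D := by
      by_contra hc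
      push Not at hc
      obtain ⟨a1, l1, a2, l2, e'⟩ := Submodule.mem_sup.1 c3
      have d1 := dj_of he (hB E hE) hA (Ne.symm hc.1)
      have d2 := dj_of he (hB D hD) hA (Ne.symm hc.2)
      have n1 : a1 ≠ 0 := by
        rintro rfl
        rw [zero_add] at e'
        exact c2 (d2 c (e' ▸ l2) c1)
      have n2 : a2 ≠ 0 := by
        rintro rfl
        rw [add_zero] at e'
        exact c2 (d1 c (e' ▸ l1) c1)
      exact noTriple he hSR (hB E hE) (hB D hD) hA (Ne.symm hDE) (Ne.symm hc.1) (Ne.symm hc.2)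
        l1 l2 c1 n1 n2 c2 e'
    -- the other expression
    have hind : IndOn T' := ih T' (by omega) fun F hF => hB F (hT'sub F hF).1
    have hp : ∀ F : Submodule (ZMod 2) (Dl V), ∃ x, F ∈ T' → PP S (f F) x := by
      intro F
      by_cases h : F ∈ T'
      · obtain ⟨x, hx⟩ := (hB F (hT'sub F h).1).ex (hf F (hT'sub F h).1) (hnz F (hT'sub F h).1)
        exact ⟨x, fun _ => hx⟩
      · exact ⟨0, fun h' => absurd h' h⟩
    choose p hp using hp
    obtain ⟨x3, hx3⟩ := solve p T' hind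
    have hx4 : ∀ u ∈ An (SM T'), PP S (f E + f D) (x3 + u) := by
      intro u hu
      rw [hsum]
      intro v hv
      rw [LinearMap.sum_apply]
      apply Finset.sum_eq_zero
      intro F hF
      have k1 : PP S (f F) (x3 + u) := by
        rw [((hB F (hT'sub F hF).1).per he).coset (hf F (hT'sub F hF).1) (z := p F)]
        · exact hp F hF
        · have e : x3 + u + p F = x3 + p F + u := by abel
          rw [e]
          exact (An F).add_mem (hx3 F hF) (mem_An.2 fun ν hν => mem_An.1 hu ν (le_SM hF hν))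
      exact k1 v hv
    -- the functional of the block in the other sum
    have hfin : ∀ B, B ∈ T → B ∉ T' → A = B → False := by
      intro B hBT hBT' hAB
      subst hAB
      obtain ⟨c', d1, d2, d3⟩ := hG.mem he hx4
      have hins : IndOn (insert A T') := ih (insert A T') (by
        rw [Finset.card_insert_of_notMem hBT']
        omega) (by
        intro F hF
        rcases Finset.mem_insert.1 hF with h | h
        · rw [h]; exact hA
        · exact hB F (hT'sub F h).1)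
      exact d2 (hins.dj hBT' c' d1 d3)
    rcases hAcase with h | h
    · exact hfin E hE (fun h' => (hT'sub E h').2.1 rfl) h
    · exact hfin D hD (fun h' => (hT'sub D h').2.2 rfl) h

theorem indB [Finite V] (he : S.e = 0) (hSR : SRS S) : IndB S := by
  intro T f h1 h2 E hE
  exact ind_n he hSR T.card T le_rfl (fun E hE => (h1 E hE).1) f (fun E hE => (h1 E hE).2) h2 E hE

end Pool.Agent.H34D
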