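import Pool.Agent.H34D.Defs

/-!
The coset identity for a perfect space of functionals.
-/

set_option autoImplicit false
set_option linter.unusedSectionVars false
set_option linter.unusedVariables false

namespace Pool.Agent.H34D

open QS
open Pool.Agent.Helper58.PLine (QData)
open Pool.Agent.ETCP
open Pool.Agent.ETSC
open Pool.Agent.H34C

variable {V Q : Type} [AddCommGroup V] [Module (ZMod 2) V] {S : QData V Q}
  {E : Submodule (ZMod 2) (Dl V)}

/-- functionals killing the annihilator of `E` are in `E` -/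
theorem mem_of_kill [Finite V] {μ : Dl V} (h : ∀ d ∈ An E, μ d = 0) : μ ∈ E := by
  have hfin : Module.Finite (ZMod 2) V := Module.Finite.of_finite
  by_contra hn
  obtain ⟨w, h1, h2⟩ := dsep E hn
  rw [h w (mem_An.2 h1)] at h2
  exact zero_ne_one h2

/-- the functionals of `E` allowed at `z` -/
def Uz (S : QData V Q) (E : Submodule (ZMod 2) (Dl V)) (z : V) : Submodule (ZMod 2) (Dl V) where
  carrier := {b | b ∈ E ∧ PP S b z}
  add_mem' := fun ha hb => ⟨E.add_mem ha.1 hb.1, PP_add_form ha.2 hb.2⟩
  zero_mem' := ⟨E.zero_mem, PP_zero z⟩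
  smul_mem' := by
    intro c a ha
    rcases z2 c with rfl | rfl
    · rw [zero_smul]
      exact ⟨E.zero_mem, PP_zero z⟩
    · rw [one_smul]
      exact ha

theorem mem_Uz {z : V} {b : Dl V} : b ∈ Uz S E z ↔ b ∈ E ∧ PP S b z := Iff.rfl

theorem Per.shift (hE : Per S E) {b : Dl V} (hb : b ∈ E) {x h : V} (hh : h ∈ An E) :
    PP S b (x + h) ↔ PP S b x := by
  by_cases h0 : b = 0
  · rw [h0]
    exact ⟨fun _ => PP_zero _, fun _ => PP_zero _⟩
  · constructor
    · intro h1
      have h2 := hE b hb h0 _ h hh h1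
      rw [add_self'] at h2
      exact h2
    · exact hE b hb h0 x h hh

/-- two elements of the same coset -/
theorem Per.coset (hE : Per S E) {b : Dl V} (hb : b ∈ E) {x z : V} (h : x + z ∈ An E) :
    PP S b x ↔ PP S b z := by
  have h1 := hE.shift (x := z) hb h
  have e : z + (x + z) = x := by rw [add_comm x z, ← add_assoc, ZModModule.add_self, zero_add]
  rw [e] at h1
  exact h1

theorem Per.ne_of_mem (hE : Per S E) {b : Dl V} (hb : b ∈ E) (h0 : b ≠ 0) {h : V}
    (hh : h ∈ An E) : ¬ PP S b h := by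
  intro h1
  have h2 := hE b hb h0 h h hh h1
  rw [ZModModule.add_self] at h2
  exact PP_ne h0 h2 rfl

/-- `v ∈ V_z + Y` -/
def KK (S : QData V Q) (E : Submodule (ZMod 2) (Dl V)) (z v : V) : Prop :=
  ∀ b ∈ Uz S E z, b v = 0

theorem KK.ex [Finite V] {z v : V} (h : KK S E z v) : ∃ w, C S z w ∧ w + v ∈ An E := by
  by_contra hn
  have h1 : v ∉ (S.ann z) ⊔ An E := by
    intro hv
    obtain ⟨w, hw, y, hy, e⟩ := Submodule.mem_sup.1 hv
    apply hn
    refine ⟨w, hw, ?_⟩
    rw [← e, ← add_assoc, ZModModule.add_self, zero_add]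
    exact hy
  obtain ⟨l, hl1, hl⟩ := Pool.Agent.Helper58.PLine.exists_functional h1
  have h2 : l ∈ E := mem_of_kill fun d hd => hl d (Submodule.mem_sup_right hd)
  have h3 : PP S l z := fun w hw => hl w (Submodule.mem_sup_left hw)
  rw [h l ⟨h2, h3⟩] at hl1
  exact zero_ne_one hl1

theorem KK.symm [Finite V] (hE : Per S E) {z v : V} (h : KK S E z v) : KK S E v z := by
  obtain ⟨w, hw, hy⟩ := h.ex
  intro b hb
  have h1 : PP S b w := (hE.coset hb.1 hy).2 hb.2
  exact h1 z hw.symm

/-- a translation -/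
theorem KK.ex' [Finite V] (hE : Per S E) {z v : V} (h : KK S E z v) :
    ∃ a, C S v a ∧ a + z ∈ An E := (h.symm hE).ex

/-- quaternions with a slot in `Y` -/
def NulE (S : QData V Q) (E : Submodule (ZMod 2) (Dl V)) (q : Q) : Prop :=
  ∃ h ∈ An E, ∃ v, S.q h v = q

theorem nulE_z : NulE S E S.z := ⟨0, Submodule.zero_mem _, 0, S.q_zero 0⟩

theorem KK_of (hE : Per S E) {q : Q} (hq : NulE S E q) {z a v : V} (ha : a + z ∈ An E)
    (h : S.q a v = q) : KK S E z v := by
  obtain ⟨h', hh, v1, hv⟩ := hq
  obtain ⟨u, h1, h2⟩ := S.link a v h' v1 (h.trans hv.symm)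
  have e1 : C S a (v + u) := q_eq_iff.1 h1
  have e2 : C S (a + h') u := q_eq'_iff.1 (by rw [← h1, h, ← h2, hv])
  intro b hb
  have h3 : PP S b a := (hE.coset hb.1 ha).2 hb.2
  have h4 : PP S b (a + h') := (hE.shift hb.1 hh).2 h3
  have h5 := h3 _ e1
  rw [map_add, h4 _ e2, add_zero] at h5
  exact h5

/-- the central functionals: `α` vanishes on `V_v` as soon as it vanishes on `V_v ∩ Y` -/
def Cen (S : QData V Q) (E : Submodule (ZMod 2) (Dl V)) (α : Dl V) : Prop :=
  ∀ v, (∀ h ∈ An E, C S v h → α h = 0) → PP S α v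

section sums

variable [Fintype V]

open Classical in
/-- the part over the coset of `z` -/
noncomputable def Zc (S : QData V Q) (E : Submodule (ZMod 2) (Dl V)) (q : Q) (α l : Dl V) (z : V) :
    ℤ := ∑ a : V, if a + z ∈ An E then sg (α a) * inn S q l a else 0

open Classical in
/-- the inner sums over a coset -/
noncomputable def kk (S : QData V Q) (E : Submodule (ZMod 2) (Dl V)) (q : Q) (α : Dl V) (z v : V) :
    ℤ := ∑ a : V, if a + z ∈ An E ∧ S.q a v = q then sg (α a) else 0

theorem Zc_kk (q : Q) (α l : Dl V) (z : V) :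
    Zc S E q α l z = ∑ v : V, sg (l v) * kk S E q α z v := by
  classical
  unfold Zc kk inn
  have e1 : ∀ a : V, (if a + z ∈ An E then sg (α a) * ∑ b : V, (if S.q a b = q then sg (l b) else 0)
      else 0) = ∑ v : V, if a + z ∈ An E ∧ S.q a v = q then sg (α a) * sg (l v) else 0 := by
    intro a
    by_cases h : a + z ∈ An E
    · rw [if_pos h, Finset.mul_sum]
      apply Finset.sum_congr rfl
      intro v _
      by_cases h2 : S.q a v = q
      · rw [if_pos h2, if_pos ⟨h, h2⟩]
      · rw [if_neg h2, if_neg (fun h' => h2 h'.2), mul_zero]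
    · rw [if_neg h]
      symm
      apply Finset.sum_eq_zero
      intro v _
      exact if_neg fun h' => h h'.1
  rw [Finset.sum_congr rfl fun a _ => e1 a, Finset.sum_comm]
  apply Finset.sum_congr rfl
  intro v _
  rw [Finset.mul_sum]
  apply Finset.sum_congr rfl
  intro a _
  by_cases h : a + z ∈ An E ∧ S.q a v = q
  · rw [if_pos h, if_pos h, mul_comm]
  · rw [if_neg h, if_neg h, mul_zero]

theorem kk_zero (hE : Per S E) {q : Q} (hq : NulE S E q) (α : Dl V) {z v : V}
    (h : ¬ KK S E z v) : kk S E q α z v = 0 := by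
  classical
  unfold kk
  apply Finset.sum_eq_zero
  intro a _
  exact if_neg fun h' => h (KK_of hE hq h'.1 h'.2)

theorem kk_shift {q : Q} (α : Dl V) {z v a0 : V} (h1 : C S v a0) (h2 : a0 + z ∈ An E) :
    kk S E q α z v = sg (α a0) * kk S E q α 0 v := by
  classical
  unfold kk
  rw [← Equiv.sum_comp (Equiv.addRight a0), Finset.mul_sum]
  apply Finset.sum_congr rfl
  intro a _
  show (if a + a0 + z ∈ An E ∧ S.q (a + a0) v = q then sg (α (a + a0)) else 0) =
    sg (α a0) * if a + 0 ∈ An E ∧ S.q a v = q then sg (α a) else 0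
  have e1 : (a + a0 + z ∈ An E) ↔ a + 0 ∈ An E := by
    rw [add_zero, add_assoc]
    constructor
    · intro h
      have h3 := (An E).add_mem h h2
      rw [add_self'] at h3
      exact h3
    · intro h
      exact (An E).add_mem h h2
  have e2 : S.q (a + a0) v = S.q a v := by
    apply q_eq'
    exact C.of_eq h1.symm (by
      rw [add_comm a a0, add_assoc, ZModModule.add_self, add_zero]) rfl
  rw [e2]
  by_cases h : a + 0 ∈ An E ∧ S.q a v = q
  · rw [if_pos h, if_pos ⟨e1.2 h.1, h.2⟩, map_add, sg_add, mul_comm]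
  · rw [if_neg h, if_neg (fun h' => h ⟨e1.1 h'.1, h'.2⟩), mul_zero]

/-- the twists for which the identity holds -/
def Tw (S : QData V Q) (E : Submodule (ZMod 2) (Dl V)) (q : Q) (α : Dl V) : Prop :=
  ∀ v a0, C S v a0 → sg (α a0) * kk S E q α 0 v = kk S E q α 0 v

theorem Tw_zero (q : Q) : Tw S E q 0 := by
  intro v a0 _
  rw [LinearMap.zero_apply, sg_zero, one_mul]

theorem Tw_cen {α : Dl V} (h : Cen S E α) : Tw S E S.z α := by
  classical
  intro v a0 ha
  by_cases h1 : ∀ h ∈ An E, C S v h → α h = 0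
  · rw [h v h1 a0 ha, sg_zero, one_mul]
  · push Not at h1
    obtain ⟨k, hk, hck, hk1⟩ := h1
    have hk1' : α k = 1 := z2ne hk1
    have e : kk S E S.z α 0 v = 0 := by
      have h2 := kk_shift (S := S) (E := E) (q := S.z) α (z := 0) hck (by rw [add_zero]; exact hk)
      rw [hk1', sg_one] at h2
      omega
    rw [e, mul_zero]

open Classical in
/-- the number of functionals of `E` allowed at `z` -/
noncomputable def nU (S : QData V Q) (E : Submodule (ZMod 2) (Dl V)) [Fintype (Dl V)] (z : V) : ℤ :=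
  ∑ b : Dl V, if b ∈ Uz S E z then 1 else 0

theorem nU_pos [Fintype (Dl V)] (z : V) : 0 < nU S E z := by
  classical
  unfold nU
  apply Finset.sum_pos'
  · intro b _
    split_ifs <;> norm_num
  · refine ⟨0, Finset.mem_univ _, ?_⟩
    rw [if_pos (Submodule.zero_mem _)]
    norm_num

open Classical in
theorem sum_Uz [Fintype (Dl V)] (z v : V) :
    ∑ b : Dl V, (if b ∈ Uz S E z then sg (b v) else 0) = if KK S E z v then nU S E z else 0 := by
  by_cases h : KK S E z v
  · rw [if_pos h, nU]
    apply Finset.sum_congr rfl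
    intro b _
    by_cases hb : b ∈ Uz S E z
    · rw [if_pos hb, if_pos hb, h b hb, sg_zero]
    · rw [if_neg hb, if_neg hb]
  · rw [if_neg h]
    unfold KK at h
    push Not at h
    obtain ⟨c, hc, hcv⟩ := h
    set T : ℤ := ∑ b : Dl V, (if b ∈ Uz S E z then sg (b v) else 0) with hT
    have h5 : T = -T := by
      conv_lhs => rw [hT]
      rw [← Equiv.sum_comp (Equiv.addRight c), hT, ← Finset.sum_neg_distrib]
      apply Finset.sum_congr rfl
      intro b _
      show (if b + c ∈ Uz S E z then sg ((b + c) v) else 0) =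
        -(if b ∈ Uz S E z then sg (b v) else 0)
      have e : b + c ∈ Uz S E z ↔ b ∈ Uz S E z := by
        constructor
        · intro h'
          have h'' := (Uz S E z).add_mem h' hc
          rw [add_self'] at h''
          exact h''
        · intro h'
          exact (Uz S E z).add_mem h' hc
      by_cases hb : b ∈ Uz S E z
      · rw [if_pos (e.2 hb), if_pos hb, LinearMap.add_apply, sg_add, z2ne hcv, sg_one, mul_neg_one]
      · rw [if_neg (fun h' => hb (e.1 h')), if_neg hb, neg_zero]
    omega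

open Classical in
/-- **the coset identity** -/
theorem Zc_id [Fintype (Dl V)] (hE : Per S E) {q : Q} (hq : NulE S E q) {α : Dl V}
    (hα : Tw S E q α) (l : Dl V) (z : V) :
    nU S E z * Zc S E q α l z =
      ∑ b : Dl V, if b ∈ Uz S E z then Zc S E q α (l + b) 0 else 0 := by
  have e1 : ∀ b : Dl V, (if b ∈ Uz S E z then Zc S E q α (l + b) 0 else 0) =
      ∑ v : V, (if b ∈ Uz S E z then sg (b v) else 0) * (sg (l v) * kk S E q α 0 v) := by
    intro b
    by_cases hb : b ∈ Uz S E z
    · rw [if_pos hb, Zc_kk]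
      apply Finset.sum_congr rfl
      intro v _
      rw [if_pos hb, LinearMap.add_apply, sg_add]
      ring
    · rw [if_neg hb]
      symm
      apply Finset.sum_eq_zero
      intro v _
      rw [if_neg hb, zero_mul]
  rw [Finset.sum_congr rfl fun b _ => e1 b, Finset.sum_comm, Zc_kk, Finset.mul_sum]
  apply Finset.sum_congr rfl
  intro v _
  rw [← Finset.sum_mul, sum_Uz]
  by_cases h : KK S E z v
  · rw [if_pos h]
    obtain ⟨a0, h1, h2⟩ := h.ex' hE
    rw [kk_shift α h1 h2, hα v a0 h1]
  · rw [if_neg h, kk_zero hE hq α h]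
    ring

end sums

end Pool.Agent.H34D
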