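import Pool.Agent.H34D.Dg

/-!
The functionals allowed at `x` are sums of such functionals in the blocks.
-/

set_option autoImplicit false
set_option linter.unusedSectionVars false
set_option linter.unusedVariables false

namespace Pool.Agent.H34D

open QS
open Pool.Agent.Helper58.PLine (QData)
open Pool.Agent.ETCP
open Pool.Agent.ETSC
open Pool.Agent.H34C

variable {V Q : Type} [AddCommGroup V] [Module (ZMod 2) V] {S : QData V Q}
  {E : Submodule (ZMod 2) (Dl V)}

/-- comparing masses -/
theorem mass_lt [Fintype V] (he : S.e = 0) {b b' : Dl V}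
    (h1 : ∀ a, b' a = 0 → PP S b a → PP S (b + b') a)
    (h2 : ∃ a, b' a = 0 ∧ PP S (b + b') a ∧ ¬ PP S b a) : mass S b < mass S (b + b') := by
  classical
  have e1 : ∑ a : V, sg (b' a) * inn S S.z b a = Ph S S.z (b + b') b := by
    rw [Ph_inn]
    apply Finset.sum_congr rfl
    intro a _
    by_cases h : PP S b a
    · rw [LinearMap.add_apply, PP_ker he h, zero_add]
    · rw [inn_not h, mul_zero, mul_zero]
  have e2 : ∑ a : V, sg (b' a) * inn S S.z (b + b') a = Ph S S.z (b + b') b := by
    rw [Ph_symm, Ph_inn]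
    apply Finset.sum_congr rfl
    intro a _
    by_cases h : PP S (b + b') a
    · have h3 := PP_ker he h
      rw [LinearMap.add_apply] at h3
      rw [z2add h3]
    · rw [inn_not h, mul_zero, mul_zero]
  have e3 : mass S (b + b') - mass S b =
      ∑ a : V, (1 + sg (b' a)) * (inn S S.z (b + b') a - inn S S.z b a) := by
    have e4 : ∑ a : V, (1 + sg (b' a)) * (inn S S.z (b + b') a - inn S S.z b a) =
        (∑ a : V, inn S S.z (b + b') a - ∑ a : V, inn S S.z b a) +
        (∑ a : V, sg (b' a) * inn S S.z (b + b') a - ∑ a : V, sg (b' a) * inn S S.z b a) := by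
      rw [← Finset.sum_sub_distrib, ← Finset.sum_sub_distrib, ← Finset.sum_add_distrib]
      apply Finset.sum_congr rfl
      intro a _
      ring
    rw [e4, e1, e2, sub_self, add_zero]
    rfl
  have h3 : 0 < ∑ a : V, (1 + sg (b' a)) * (inn S S.z (b + b') a - inn S S.z b a) := by
    apply Finset.sum_pos'
    · intro a _
      rcases z2 (b' a) with h | h
      · rw [h, sg_zero]
        by_cases h4 : PP S b a
        · rw [inn_eq h4 (S.q_zero a), inn_eq (h1 a h h4) (S.q_zero a), map_zero, map_zero]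
          simp
        · rw [inn_not h4, sub_zero]
          exact mul_nonneg (by norm_num) (inn_z _ _)
      · rw [h, sg_one]
        simp
    · obtain ⟨a, a1, a2, a3⟩ := h2
      refine ⟨a, Finset.mem_univ _, ?_⟩
      rw [a1, sg_zero, inn_not a3, sub_zero]
      exact mul_pos (by norm_num) (inn_z_pos a2)
  rw [← e3] at h3
  omega

/-- a larger mass in a block -/
theorem Good.step [Fintype V] (he : S.e = 0) (hE : Per S E) {b : Dl V} (hb : Good S E b) {x : V}
    (hx : PP S b x) : ∃ b' ∈ Uz S E x, mass S b < mass S (b + b') := by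
  rcases hb with ⟨b0, h1, h2, h3⟩ | ⟨η, T, h⟩
  · refine ⟨b0, ⟨h1, h3.pp h1 hx⟩, mass_lt he ?_ ?_⟩
    · intro a _ ha
      exact PP_add_form ha (h3.pp h1 ha)
    · obtain ⟨b1, -, hb1, y, hy, hP⟩ := (meet_iff hE b x).1 (meet_self hx)
      refine ⟨y, mem_An.1 hy b0 h1, ?_, ?_⟩
      · refine h3 y fun w hw hc => ?_
        have h4 := hP w hc
        rw [LinearMap.add_apply, mem_An.1 hw b1 hb1, add_zero] at h4
        rw [LinearMap.add_apply, mem_An.1 hw b0 h1, add_zero, h4]
      · intro hy'
        exact hE.ne_of_mem h1 h2 hy (h3.pp h1 hy')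
  · obtain ⟨b', hb', hb1, y, hy, hP⟩ := (meet_iff hE b x).1 (meet_self hx)
    refine ⟨b', hb', mass_lt he ?_ ?_⟩
    · intro a ha hPa
      exact PP_add_form hPa (T.uz_out (h a hPa) hb1 ha).2
    · refine ⟨y, mem_An.1 hy b' hb1, hP, ?_⟩
      intro hy'
      have h4 := h y hy'
      rw [mem_An.1 hy η T.mem] at h4
      exact zero_ne_one h4

/-- **Lemma L**: the functionals allowed at `x` -/
theorem sumL [Finite V] (he : S.e = 0) (hSR : SRS S) : SumL S := by
  classical
  have := Fintype.ofFinite V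
  have hf := finite_Dl (V := V)
  intro β x0 hβ
  by_contra hbad
  obtain ⟨b, ⟨x, hx, hb⟩, hmax⟩ := Set.exists_max_image
    {b : Dl V | ∃ x, PP S b x ∧ ¬ ∃ (T : Finset (Submodule (ZMod 2) (Dl V)))
      (f : Submodule (ZMod 2) (Dl V) → Dl V),
      (∀ E ∈ T, Blk S E ∧ f E ∈ E ∧ PP S (f E) x) ∧ b = ∑ E ∈ T, f E} (fun b => mass S b)
    (Set.toFinite _) ⟨β, x0, hβ, hbad⟩
  by_cases hb0 : b = 0
  · apply hb
    refine ⟨∅, fun _ => 0, ?_, ?_⟩
    · intro E hE
      exact absurd hE (Finset.notMem_empty _)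
    · rw [hb0, Finset.sum_empty]
  obtain ⟨E, hE, hG⟩ := domG he hSR hb0 ⟨x, hx⟩
  have hP : Per S E := by
    rcases hE with ⟨ω, A, rfl⟩ | ⟨η, T⟩
    · exact PA_Per he A
    · exact T.per
  obtain ⟨b', hb', hlt⟩ := hG.step he hP hx
  have h1 : PP S (b + b') x := PP_add_form hx hb'.2
  have h2 : ∃ (T : Finset (Submodule (ZMod 2) (Dl V)))
      (f : Submodule (ZMod 2) (Dl V) → Dl V),
      (∀ E ∈ T, Blk S E ∧ f E ∈ E ∧ PP S (f E) x) ∧ b + b' = ∑ E ∈ T, f E := by
    by_contra hn
    exact absurd (hmax (b + b') ⟨x, h1, hn⟩) (not_le.2 hlt)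
  obtain ⟨T, f, h3, h4⟩ := h2
  apply hb
  refine ⟨insert E T, fun F => (if F ∈ T then f F else 0) + (if F = E then b' else 0), ?_, ?_⟩
  · intro F hF
    have hFB : Blk S F := by
      rcases Finset.mem_insert.1 hF with h | h
      · rw [h]; exact hE
      · exact (h3 F h).1
    have k1 : (if F ∈ T then f F else 0) ∈ F ∧ PP S (if F ∈ T then f F else 0) x := by
      by_cases h : F ∈ T
      · rw [if_pos h]; exact (h3 F h).2
      · rw [if_neg h]; exact ⟨F.zero_mem, PP_zero x⟩
    have k2 : (if F = E then b' else 0) ∈ F ∧ PP S (if F = E then b' else 0) x := by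
      by_cases h : F = E
      · rw [if_pos h, h]; exact hb'
      · rw [if_neg h]; exact ⟨F.zero_mem, PP_zero x⟩
    exact ⟨hFB, F.add_mem k1.1 k2.1, PP_add_form k1.2 k2.2⟩
  · rw [Finset.sum_add_distrib]
    have k1 : ∑ F ∈ insert E T, (if F ∈ T then f F else 0) = ∑ F ∈ T, f F := by
      rw [← Finset.sum_filter]
      apply Finset.sum_congr _ (fun _ _ => rfl)
      ext F
      rw [Finset.mem_filter, Finset.mem_insert]
      constructor
      · exact fun h => h.2
      · exact fun h => ⟨Or.inr h, h⟩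
    have k2 : ∑ F ∈ insert E T, (if F = E then b' else 0) = b' := by
      rw [Finset.sum_ite_eq', if_pos (Finset.mem_insert_self _ _)]
    rw [k1, k2, ← h4, add_self']

end Pool.Agent.H34D
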