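import Pool.Agent.H34D.Id

/-!
Orthogonality and the pairwise Helly property.
-/

set_option autoImplicit false
set_option linter.unusedSectionVars false
set_option linter.unusedVariables false

namespace Pool.Agent.H34D

open QS
open Pool.Agent.Helper58.PLine (QData)
open Pool.Agent.ETCP
open Pool.Agent.ETSC
open Pool.Agent.H34C

variable {V Q : Type} [AddCommGroup V] [Module (ZMod 2) V] {S : QData V Q}
  {E : Submodule (ZMod 2) (Dl V)}

section sums

variable [Fintype V]

theorem Zc_sg {q : Q} {l : Dl V} {x v : V} (hx : PP S l x) (hv : S.q x v = q) (z : V) :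
    0 ≤ sg (l v) * Zc S E q 0 l z := by
  classical
  unfold Zc
  rw [Finset.mul_sum]
  apply Finset.sum_nonneg
  intro a _
  by_cases h : a + z ∈ An E
  · rw [if_pos h, LinearMap.zero_apply, sg_zero, one_mul]
    exact inn_sg hx hv a
  · rw [if_neg h, mul_zero]

theorem Zc_sg_pos {q : Q} {l : Dl V} {x v z : V} (hx : PP S l x) (hv : S.q x v = q)
    (hz : x + z ∈ An E) : 0 < sg (l v) * Zc S E q 0 l z := by
  classical
  unfold Zc
  rw [Finset.mul_sum]
  apply Finset.sum_pos'
  · intro a _
    by_cases h : a + z ∈ An E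
    · rw [if_pos h, LinearMap.zero_apply, sg_zero, one_mul]
      exact inn_sg hx hv a
    · rw [if_neg h, mul_zero]
  · refine ⟨x, Finset.mem_univ _, ?_⟩
    rw [if_pos hz, LinearMap.zero_apply, sg_zero, one_mul]
    exact inn_sg_pos hx hv

theorem Zc_ne {q : Q} {α l : Dl V} {z : V} (h : Zc S E q α l z ≠ 0) :
    ∃ x, PP S l x ∧ (∃ v, S.q x v = q) ∧ x + z ∈ An E := by
  classical
  by_contra hc
  apply h
  unfold Zc
  apply Finset.sum_eq_zero
  intro a _
  by_cases h1 : a + z ∈ An E
  · rw [if_pos h1]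
    by_cases h2 : inn S q l a = 0
    · rw [h2, mul_zero]
    · exact absurd ⟨a, (inn_ne h2).1, (inn_ne h2).2, h1⟩ hc
  · rw [if_neg h1]

theorem Zc_zn (l : Dl V) (z : V) : 0 ≤ Zc S E S.z 0 l z := by
  classical
  unfold Zc
  apply Finset.sum_nonneg
  intro a _
  by_cases h : a + z ∈ An E
  · rw [if_pos h, LinearMap.zero_apply, sg_zero, one_mul]
    exact inn_z l a
  · rw [if_neg h]

theorem Zc_zp {l : Dl V} {x z : V} (hx : PP S l x) (hz : x + z ∈ An E) :
    0 < Zc S E S.z 0 l z := by
  have h := Zc_sg_pos (q := S.z) (v := 0) hx (S.q_zero x) hz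
  rw [map_zero, sg_zero, one_mul] at h
  exact h

theorem Zc_abs (α l : Dl V) (z : V) : |Zc S E S.z α l z| ≤ Zc S E S.z 0 l z := by
  classical
  unfold Zc
  refine (Finset.abs_sum_le_sum_abs _ _).trans (Finset.sum_le_sum ?_)
  intro a _
  by_cases h : a + z ∈ An E
  · rw [if_pos h, if_pos h, LinearMap.zero_apply, sg_zero, one_mul, abs_mul,
      abs_of_nonneg (inn_z l a)]
    rcases sg_cases (α a) with h1 | h1 <;> rw [h1] <;> simp
  · rw [if_neg h, if_neg h, abs_zero]

end sums

/-- the functionals `b ∈ E` such that `P_(l+b)` meets `Y` -/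
def BB (S : QData V Q) (E : Submodule (ZMod 2) (Dl V)) (l b : Dl V) : Prop :=
  b ∈ E ∧ ∃ h ∈ An E, PP S (l + b) h

/-- `P_l` meets the coset of `z` iff some functional of `B_l` is allowed at `z` -/
theorem meet_iff [Finite V] (hE : Per S E) (l : Dl V) (z : V) :
    (∃ x, PP S l x ∧ x + z ∈ An E) ↔ ∃ b ∈ Uz S E z, BB S E l b := by
  classical
  have := Fintype.ofFinite V
  have hf := finite_Dl (V := V)
  have := Fintype.ofFinite (Dl V)
  have id := Zc_id hE (nulE_z (S := S) (E := E)) (Tw_zero S.z) l z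
  have hp := nU_pos (S := S) (E := E) z
  constructor
  · rintro ⟨x, hx, hz⟩
    have h1 := Zc_zp hx hz
    have h2 : (∑ b : Dl V, if b ∈ Uz S E z then Zc S E S.z 0 (l + b) 0 else 0) ≠ 0 := by
      rw [← id]
      exact (mul_pos hp h1).ne'
    obtain ⟨b, _, hb⟩ := Finset.exists_ne_zero_of_sum_ne_zero h2
    by_cases h3 : b ∈ Uz S E z
    · rw [if_pos h3] at hb
      obtain ⟨h, h4, _, h5⟩ := Zc_ne hb
      rw [add_zero] at h5
      exact ⟨b, h3, h3.1, h, h5, h4⟩
    · rw [if_neg h3] at hb
      exact absurd rfl hb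
  · rintro ⟨b, hb, hbE, h, hh, hP⟩
    have h1 : 0 < ∑ b : Dl V, if b ∈ Uz S E z then Zc S E S.z 0 (l + b) 0 else 0 := by
      apply Finset.sum_pos'
      · intro c _
        split_ifs
        · exact Zc_zn _ _
        · exact le_rfl
      · refine ⟨b, Finset.mem_univ _, ?_⟩
        rw [if_pos hb]
        exact Zc_zp hP (by rw [add_zero]; exact hh)
    rw [← id] at h1
    have h2 : Zc S E S.z 0 l z ≠ 0 := by
      intro h3
      rw [h3, mul_zero] at h1
      exact lt_irrefl _ h1
    obtain ⟨x, hx, _, hz⟩ := Zc_ne h2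
    exact ⟨x, hx, hz⟩

section orth

variable [Fintype V]

open Classical in
/-- the quaternions with a slot in `Y` -/
noncomputable def QN (S : QData V Q) (E : Submodule (ZMod 2) (Dl V)) : Finset Q :=
  (Finset.univ.image fun p : V × V => S.q p.1 p.2).filter (NulE S E)

theorem mem_QN {q : Q} : q ∈ QN S E ↔ NulE S E q := by
  classical
  unfold QN
  rw [Finset.mem_filter, Finset.mem_image]
  constructor
  · exact fun h => h.2
  · rintro ⟨h, hh, v, hv⟩
    exact ⟨⟨(h, v), Finset.mem_univ _, hv⟩, h, hh, v, hv⟩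

/-- **orthogonality**, one pair -/
theorem orth1 (hE : Per S E) {α α' : Dl V} (hm : α + α' ∈ E) (hne : α + α' ≠ 0) {h h' : V}
    (hh : h ∈ An E) (hh' : h' ∈ An E) :
    ∑ q ∈ QN S E, inn S q α h * inn S q α' h' = 0 := by
  classical
  -- the translation
  have hnp := hE.ne_of_mem hm hne ((An E).add_mem hh hh')
  obtain ⟨u, hu, hu1⟩ : ∃ u, C S (h + h') u ∧ (α + α') u = 1 := by
    unfold PP at hnp
    push Not at hnp
    obtain ⟨k, a, b⟩ := hnp
    exact ⟨k, a, z2ne b⟩
  set T : ℤ := ∑ v : V, ∑ v' : V, if S.q h v = S.q h' v' then sg (α v) * sg (α' v') else 0 with hT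
  have e1 : ∑ q ∈ QN S E, inn S q α h * inn S q α' h' = T := by
    have e2 : ∀ q, inn S q α h * inn S q α' h' = ∑ v : V, ∑ v' : V,
        if S.q h v = q ∧ S.q h' v' = q then sg (α v) * sg (α' v') else 0 := by
      intro q
      unfold inn
      rw [Finset.sum_mul]
      apply Finset.sum_congr rfl
      intro v _
      rw [Finset.mul_sum]
      apply Finset.sum_congr rfl
      intro v' _
      by_cases a : S.q h v = q
      · by_cases b : S.q h' v' = q
        · rw [if_pos a, if_pos b, if_pos ⟨a, b⟩]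
        · rw [if_neg b, mul_zero, if_neg (fun hc => b hc.2)]
      · rw [if_neg a, zero_mul, if_neg (fun hc => a hc.1)]
    rw [Finset.sum_congr rfl fun q _ => e2 q, Finset.sum_comm, hT]
    apply Finset.sum_congr rfl
    intro v _
    rw [Finset.sum_comm]
    apply Finset.sum_congr rfl
    intro v' _
    by_cases c : S.q h v = S.q h' v'
    · rw [if_pos c, Finset.sum_eq_single (S.q h v)]
      · rw [if_pos ⟨rfl, c.symm⟩]
      · intro q _ hq
        exact if_neg fun h'' => hq h''.1.symm
      · intro hn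
        exact absurd (mem_QN.2 ⟨h, hh, v, rfl⟩) hn
    · rw [if_neg c]
      apply Finset.sum_eq_zero
      intro q _
      exact if_neg fun h'' => c (h''.1.trans h''.2.symm)
  rw [e1]
  -- one direction of the invariance
  have key : ∀ v v', S.q h v = S.q h' v' → S.q h (v + u) = S.q h' (v' + u) := by
    intro v v' hv
    obtain ⟨w, h1, h2⟩ := S.link h v h' v' hv
    have c1 : C S h (v + w) := q_eq_iff.1 h1
    have c2 : C S h' (v' + w) := q_eq_iff.1 h2
    have c3 : C S (h + h') w := q_eq'_iff.1 (by rw [← h1, hv, h2])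
    have d1 : S.q h (v + u) = S.q h (w + u) := q_eq_iff.2 (c1.of_eq rfl (by
      rw [add_add_add_comm, ZModModule.add_self, add_zero]))
    have d2 : S.q h' (v' + u) = S.q h' (w + u) := q_eq_iff.2 (c2.of_eq rfl (by
      rw [add_add_add_comm, ZModModule.add_self, add_zero]))
    have d3 : S.q h (w + u) = S.q h' (w + u) := q_eq' (C.add c3 hu)
    rw [d1, d3, d2]
  have hinv : ∀ v v', S.q h (v + u) = S.q h' (v' + u) ↔ S.q h v = S.q h' v' := by
    intro v v'
    constructor
    · intro h1
      have h2 := key _ _ h1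
      rw [add_self', add_self'] at h2
      exact h2
    · exact key v v'
  have h5 : T = -T := by
    conv_lhs => rw [hT]
    rw [← Equiv.sum_comp (Equiv.addRight u), hT, ← Finset.sum_neg_distrib]
    apply Finset.sum_congr rfl
    intro v _
    rw [← Equiv.sum_comp (Equiv.addRight u), ← Finset.sum_neg_distrib]
    apply Finset.sum_congr rfl
    intro v' _
    show (if S.q h (v + u) = S.q h' (v' + u) then sg (α (v + u)) * sg (α' (v' + u)) else 0) =
      -(if S.q h v = S.q h' v' then sg (α v) * sg (α' v') else 0)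
    by_cases c : S.q h v = S.q h' v'
    · rw [if_pos ((hinv v v').2 c), if_pos c, map_add, map_add, sg_add, sg_add]
      have e3 : sg (α u) * sg (α' u) = -1 := by
        rw [← sg_add, ← LinearMap.add_apply, hu1, sg_one]
      calc sg (α v) * sg (α u) * (sg (α' v') * sg (α' u)) =
            sg (α v) * sg (α' v') * (sg (α u) * sg (α' u)) := by ring
        _ = _ := by rw [e3]; ring
    · rw [if_neg (fun h'' => c ((hinv v v').1 h'')), if_neg c, neg_zero]
  omega

/-- **orthogonality** -/
theorem orth (hE : Per S E) {α α' : Dl V} (hm : α + α' ∈ E) (hne : α + α' ≠ 0) :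
    ∑ q ∈ QN S E, Zc S E q 0 α 0 * Zc S E q 0 α' 0 = 0 := by
  classical
  have e2 : ∀ q, Zc S E q 0 α 0 * Zc S E q 0 α' 0 = ∑ a : V, ∑ a' : V,
      if a ∈ An E ∧ a' ∈ An E then inn S q α a * inn S q α' a' else 0 := by
    intro q
    unfold Zc
    rw [Finset.sum_mul]
    apply Finset.sum_congr rfl
    intro a _
    rw [Finset.mul_sum]
    apply Finset.sum_congr rfl
    intro a' _
    rw [add_zero, add_zero, LinearMap.zero_apply, LinearMap.zero_apply, sg_zero, one_mul, one_mul]
    by_cases h1 : a ∈ An E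
    · by_cases h2 : a' ∈ An E
      · rw [if_pos h1, if_pos h2, if_pos ⟨h1, h2⟩]
      · rw [if_neg h2, mul_zero, if_neg (fun hc => h2 hc.2)]
    · rw [if_neg h1, zero_mul, if_neg (fun hc => h1 hc.1)]
  rw [Finset.sum_congr rfl fun q _ => e2 q, Finset.sum_comm]
  apply Finset.sum_eq_zero
  intro a _
  rw [Finset.sum_comm]
  apply Finset.sum_eq_zero
  intro a' _
  by_cases h : a ∈ An E ∧ a' ∈ An E
  · rw [Finset.sum_congr rfl fun q _ => if_pos h]
    exact orth1 hE hm hne h.1 h.2
  · rw [Finset.sum_congr rfl fun q _ => if_neg h, Finset.sum_const_zero]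

end orth

/-- **the pairwise Helly property** -/
theorem helly [Finite V] (hE : Per S E) {l : Dl V} {z z' : V}
    (h : ∃ x, PP S l x ∧ x + z ∈ An E) (h' : ∃ x, PP S l x ∧ x + z' ∈ An E) :
    ∃ b, b ∈ Uz S E z ∧ b ∈ Uz S E z' ∧ BB S E l b := by
  classical
  have := Fintype.ofFinite V
  have hf := finite_Dl (V := V)
  have := Fintype.ofFinite (Dl V)
  obtain ⟨x, hx, hxz⟩ := h
  obtain ⟨x', hx', hxz'⟩ := h'
  -- the sum of the products is positive
  have hpos : 0 < ∑ q ∈ QN S E, Zc S E q 0 l z * Zc S E q 0 l z' := by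
    apply Finset.sum_pos'
    · intro q hq
      by_cases h0 : Zc S E q 0 l z = 0
      · rw [h0, zero_mul]
      · obtain ⟨a, ha, ⟨v, hv⟩, _⟩ := Zc_ne h0
        have s1 := Zc_sg (E := E) ha hv z
        have s2 := Zc_sg (E := E) ha hv z'
        have s3 := mul_nonneg s1 s2
        have e : sg (l v) * Zc S E q 0 l z * (sg (l v) * Zc S E q 0 l z') =
            sg (l v) * sg (l v) * (Zc S E q 0 l z * Zc S E q 0 l z') := by ring
        rw [e, sg_mul_self, one_mul] at s3
        exact s3
    · exact ⟨S.z, mem_QN.2 nulE_z, mul_pos (Zc_zp hx hxz) (Zc_zp hx' hxz')⟩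
  by_contra hno
  have hexp : nU S E z * nU S E z' * ∑ q ∈ QN S E, Zc S E q 0 l z * Zc S E q 0 l z' = 0 := by
    rw [Finset.mul_sum]
    have e1 : ∀ q ∈ QN S E, nU S E z * nU S E z' * (Zc S E q 0 l z * Zc S E q 0 l z') =
        ∑ b : Dl V, ∑ b' : Dl V, if b ∈ Uz S E z ∧ b' ∈ Uz S E z' then
          Zc S E q 0 (l + b) 0 * Zc S E q 0 (l + b') 0 else 0 := by
      intro q hq
      have i1 := Zc_id hE (mem_QN.1 hq) (Tw_zero q) l z
      have i2 := Zc_id hE (mem_QN.1 hq) (Tw_zero q) l z'
      have e : nU S E z * nU S E z' * (Zc S E q 0 l z * Zc S E q 0 l z') =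
          (nU S E z * Zc S E q 0 l z) * (nU S E z' * Zc S E q 0 l z') := by ring
      rw [e, i1, i2, Finset.sum_mul]
      apply Finset.sum_congr rfl
      intro b _
      rw [Finset.mul_sum]
      apply Finset.sum_congr rfl
      intro b' _
      by_cases h1 : b ∈ Uz S E z
      · by_cases h2 : b' ∈ Uz S E z'
        · rw [if_pos h1, if_pos h2, if_pos ⟨h1, h2⟩]
        · rw [if_neg h2, mul_zero, if_neg (fun hc => h2 hc.2)]
      · rw [if_neg h1, zero_mul, if_neg (fun hc => h1 hc.1)]
    rw [Finset.sum_congr rfl e1, Finset.sum_comm]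
    apply Finset.sum_eq_zero
    intro b _
    rw [Finset.sum_comm]
    apply Finset.sum_eq_zero
    intro b' _
    by_cases h1 : b ∈ Uz S E z ∧ b' ∈ Uz S E z'
    · rw [Finset.sum_congr rfl fun q _ => if_pos h1]
      by_cases h2 : b = b'
      · subst h2
        apply Finset.sum_eq_zero
        intro q _
        have h3 : Zc S E q 0 (l + b) 0 = 0 := by
          by_contra h4
          obtain ⟨k, k1, _, k2⟩ := Zc_ne h4
          rw [add_zero] at k2
          exact hno ⟨b, h1.1, h1.2, h1.1.1, k, k2, k1⟩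
        rw [h3, zero_mul]
      · apply orth hE
        · have e : l + b + (l + b') = b + b' := by
            rw [add_add_add_comm, ZModModule.add_self, zero_add]
          rw [e]
          exact E.add_mem h1.1.1 h1.2.1
        · have e : l + b + (l + b') = b + b' := by
            rw [add_add_add_comm, ZModModule.add_self, zero_add]
          rw [e]
          exact fun h3 => h2 (eo h3)
    · rw [Finset.sum_congr rfl fun q _ => if_neg h1, Finset.sum_const_zero]
  have h6 := mul_pos (mul_pos (nU_pos (S := S) (E := E) z) (nU_pos (S := S) (E := E) z')) hpos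
  rw [hexp] at h6
  exact lt_irrefl _ h6

end Pool.Agent.H34D
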