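import Pool.Agent.H34D.Ib
import Pool.Agent.ETCO.Conv
import Pool.Agent.H34B.Grp3
import Pool.Agent.ETCR.Fin
import Pool.Agent.ESL.ISOC
import Pool.Agent.ESL.PRODREC

/-!
# Theorem X' for arbitrary finite structures with `-1 = 1`: the main direction
-/

set_option autoImplicit false
set_option linter.unusedSectionVars false
set_option linter.unusedVariables false

namespace Pool.Agent.H34D

open QS Pool.Agent.H34B
open Pool.Agent.Helper58.PLine (QData)
open Pool.Agent.ETCO (SR ZSet)
open scoped BigOperators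

/-- direct products of structures with at most two quaternions and of group extensions of arbitrary
finite structures (`-1 = 1`) -/
inductive LocE : QStruct → Prop
  | loc (S : QStruct) (hf : Finite S.G) (hneg : S.neg = 1) (h : Nat.card S.Q ≤ 2) : LocE S
  | ext (S : QStruct) (hf : Finite S.G) (hneg : S.neg = 1) : LocE (ext S)
  | prod (S T : QStruct) (h1 : LocE S) (h2 : LocE T) : LocE (prod S T)
  | iso (S T : QStruct) (h1 : Iso S T) (h2 : LocE S) : LocE T

/-! ### splitting off one block -/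

section split

open Pool.Agent.ETCP
open Pool.Agent.ETSC
open Pool.Agent.H34C

variable {V Q : Type} [AddCommGroup V] [Module (ZMod 2) V] [Finite V] {S : QData V Q}

theorem split_C (he : S.e = 0) (hL : SumL S) (hI : IndB S) {E0 : Submodule (ZMod 2) (Dl V)}
    (hE0 : Blk S E0) :
    ∃ F : Submodule (ZMod 2) (Dl V), IsCompl E0 F ∧ ∀ a ∈ An F, ∀ b ∈ An E0, ∀ a' ∈ An F,
      ∀ b' ∈ An E0, C S (a + b) (a' + b') ↔ C S a a' ∧ C S b b' := by
  classical
  have hfD := finite_Dl (V := V)
  have : Finite (Submodule (ZMod 2) (Dl V)) :=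
    Finite.of_injective (fun E : Submodule (ZMod 2) (Dl V) => (E : Set (Dl V)))
      SetLike.coe_injective
  have : Fintype (Submodule (ZMod 2) (Dl V)) := Fintype.ofFinite _
  let T0 : Finset (Submodule (ZMod 2) (Dl V)) := Finset.univ.filter (fun E => Blk S E ∧ E ≠ E0)
  have hT0 : ∀ E, E ∈ T0 ↔ Blk S E ∧ E ≠ E0 := by
    intro E
    simp [T0]
  have hE0T : E0 ∉ T0 := fun h => ((hT0 E0).1 h).2 rfl
  have hind : IndOn (insert E0 T0) := by
    intro f h1 h2
    refine hI (insert E0 T0) f ?_ h2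
    intro E hE
    refine ⟨?_, h1 E hE⟩
    rcases Finset.mem_insert.1 hE with h | h
    · rw [h]; exact hE0
    · exact ((hT0 E).1 h).1
  have hdj : Dj E0 (SM T0) := hind.dj hE0T
  have hdis : Disjoint E0 (SM T0) := by
    rw [Submodule.disjoint_def]
    exact hdj
  obtain ⟨W, hW⟩ := Submodule.exists_isCompl (E0 ⊔ SM T0)
  refine ⟨SM T0 ⊔ W, ⟨hdis.disjoint_sup_right_of_disjoint_sup_left hW.disjoint, ?_⟩, ?_⟩
  · rw [codisjoint_iff, ← sup_assoc]
    exact hW.sup_eq_top
  -- the allowed functionals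
  have key : ∀ a ∈ An (SM T0 ⊔ W), ∀ b ∈ An E0, ∀ c, PP S c (a + b) →
      ∃ c0 ∈ E0, ∃ c1 ∈ SM T0 ⊔ W, c = c0 + c1 ∧ (∀ b' ∈ An E0, PP S c0 (a + b')) ∧
        ∀ a' ∈ An (SM T0 ⊔ W), PP S c1 (a' + b) := by
    intro a ha b hb c hc
    obtain ⟨T, f, h1, h2⟩ := hL c (a + b) hc
    have hP0 := hE0.per he
    have k0 : (if E0 ∈ T then f E0 else 0) ∈ E0 ∧
        ∀ b' ∈ An E0, PP S (if E0 ∈ T then f E0 else 0) (a + b') := by
      by_cases h : E0 ∈ T
      · rw [if_pos h]
        obtain ⟨_, k2, k3⟩ := h1 E0 h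
        refine ⟨k2, fun b' hb' => ?_⟩
        rw [hP0.shift k2 hb]at k3
        rw [hP0.shift k2 hb']
        exact k3
      · rw [if_neg h]
        exact ⟨E0.zero_mem, fun b' _ => PP_zero _⟩
    have k1 : ∀ E ∈ T.erase E0, f E ∈ SM T0 ⊔ W ∧
        ∀ a' ∈ An (SM T0 ⊔ W), PP S (f E) (a' + b) := by
      intro E hE
      have hET := Finset.mem_of_mem_erase hE
      obtain ⟨k2, k3, k4⟩ := h1 E hET
      have hE' : E ∈ T0 := (hT0 E).2 ⟨k2, Finset.ne_of_mem_erase hE⟩
      have hle : E ≤ SM T0 ⊔ W := (le_SM hE').trans le_sup_left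
      have hA : ∀ d ∈ An (SM T0 ⊔ W), d ∈ An E := fun d hd =>
        mem_An.2 fun ν hν => mem_An.1 hd ν (hle hν)
      refine ⟨hle k3, fun a' ha' => ?_⟩
      rw [add_comm a b, (k2.per he).shift k3 (hA a ha)] at k4
      rw [add_comm a' b, (k2.per he).shift k3 (hA a' ha')]
      exact k4
    refine ⟨_, k0.1, ∑ E ∈ T.erase E0, f E, Submodule.sum_mem _ fun E hE => (k1 E hE).1, ?_, k0.2,
      ?_⟩
    · by_cases h : E0 ∈ T
      · rw [if_pos h, h2]
        exact (Finset.add_sum_erase T f h).symm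
      · rw [if_neg h, h2, zero_add, Finset.erase_eq_of_notMem h]
    · intro a' ha' v hv
      rw [LinearMap.sum_apply]
      exact Finset.sum_eq_zero fun E hE => (k1 E hE).2 a' ha' v hv
  intro a ha b hb a' ha' b' hb'
  constructor
  · intro h
    constructor
    · apply C_of_all
      intro c hc
      obtain ⟨c0, m0, c1, m1, e, g0, g1⟩ := key a ha 0 (Submodule.zero_mem _) c
        (by rw [add_zero]; exact hc)
      have hc1 : c1 = 0 := by
        by_contra hne
        have h5 := g1 0 (Submodule.zero_mem _)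
        rw [add_zero] at h5
        exact PP_ne hne h5 rfl
      have h6 := g0 b hb _ h
      rw [map_add, mem_An.1 hb' c0 m0, add_zero] at h6
      rw [e, hc1, add_zero]
      exact h6
    · apply C_of_all
      intro c hc
      obtain ⟨c0, m0, c1, m1, e, g0, g1⟩ := key 0 (Submodule.zero_mem _) b hb c
        (by rw [zero_add]; exact hc)
      have hc0 : c0 = 0 := by
        by_contra hne
        have h5 := g0 0 (Submodule.zero_mem _)
        rw [add_zero] at h5
        exact PP_ne hne h5 rfl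
      have h6 := g1 a ha _ h
      rw [map_add, mem_An.1 ha' c1 m1, zero_add] at h6
      rw [e, hc0, zero_add]
      exact h6
  · rintro ⟨h1, h2⟩
    apply C_of_all
    intro c hc
    obtain ⟨c0, m0, c1, m1, e, g0, g1⟩ := key a ha b hb c hc
    have h5 := g0 0 (Submodule.zero_mem _)
    have h6 := g1 0 (Submodule.zero_mem _)
    rw [add_zero] at h5
    rw [zero_add] at h6
    rw [e, LinearMap.add_apply, map_add, map_add, h5 a' h1, mem_An.1 hb' c0 m0,
      mem_An.1 ha' c1 m1, h6 b' h2]
    decide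

end split

/-! ### the structure -/

attribute [local instance] Pool.Agent.ESL.J1X.mdl

variable {S : QStruct}

theorem exD {V : Type} [AddCommGroup V] [Module (ZMod 2) V] {x y : V}
    (h : ∀ μ : ETSC.Dl V, μ x = μ y) : x = y := by
  by_contra hne
  have h4 : x + y ≠ 0 := fun e => hne (ETCP.eo e)
  obtain ⟨f, hf⟩ := Pool.Agent.ESL.exists_dual h4
  rw [map_add, h f] at hf
  have : f y + f y = 0 := CharTwo.add_self_eq_zero _
  rw [this] at hf
  exact zero_ne_one hf

/-- the condition `SR` in terms of functionals -/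
theorem srs_of_sr [Finite S.G] (hneg : S.neg = 1) (hS : SR S) : SRS (dt S) := by
  have hf : Finite (Additive S.G) := (inferInstance : Finite S.G)
  intro l hl hx hcl
  obtain ⟨x, hP⟩ := hx
  -- the kernel of `l` is sharp
  have hsh : Sharp S (kerG S l) := by
    refine ⟨index_kerG S hl, ⟨x.toMul, hP⟩, ?_⟩
    by_contra hn
    obtain ⟨h, hh, hhn⟩ := SetLike.not_le_iff_exists.1 hn
    let K := Subgroup.closure {z | ∃ x ∈ PSet S (kerG S l), ∃ y ∈ PSet S (kerG S l), x * y = z}
    obtain ⟨μ, hμ, hμ1⟩ := ESL.exists_sep (W := toSub S K) (x := Additive.ofMul h) hhn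
    have hc : μ ∈ H34C.El (dt S) l := by
      intro a b ha hb
      apply hμ (a + b)
      have h3 : a.toMul * b.toMul ∈ K := Subgroup.subset_closure ⟨a.toMul, ha, b.toMul, hb, rfl⟩
      exact h3
    rcases hcl μ hc with rfl | rfl
    · exact zero_ne_one hμ1
    · rw [mem_kerG, hμ1] at hh
      exact one_ne_zero hh
  have hne := hS _ hsh
  obtain ⟨h, hh, hhn⟩ : ∃ h ∈ kerG S l, h ∉ Subgroup.closure (ZSet S (kerG S l)) := by
    by_contra hc
    push Not at hc
    exact hne (le_antisymm ETCO.ZSet_le hc)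
  let K := Subgroup.closure (ZSet S (kerG S l))
  obtain ⟨th, ht, ht1⟩ := ESL.exists_sep (W := toSub S K) (x := Additive.ofMul h) hhn
  refine ⟨th, ?_, ?_, ?_⟩
  · rintro rfl
    exact zero_ne_one ht1
  · rintro rfl
    rw [mem_kerG, ht1] at hh
    exact one_ne_zero hh
  · have h1 : ∀ x v, ETCP.C (dt S) x v → l x = 0 → l v = 1 → th x = 0 := by
      intro x v hv h0 h1
      by_cases hx0 : x = 0
      · rw [hx0, map_zero]
      · apply ht x
        have h2 : x.toMul ∈ K := by
          refine Subgroup.subset_closure ⟨h0, hx0, v.toMul, ?_, hv⟩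
          rw [mem_kerG]
          intro h3
          have h4 : l v = 0 := h3
          rw [h1] at h4
          exact one_ne_zero h4
        exact h2
    intro x v hv
    rw [ETCO.wd_apply]
    have hself : ETCP.C (dt S) v v := ETCP.C.self (dt_e S hneg) v
    rcases ETSC.z2 (l x) with a | a <;> rcases ETSC.z2 (l v) with b | b
    · rw [a, b, zero_mul, mul_zero, add_zero]
    · rw [a, b, h1 x v hv a b, zero_mul, zero_mul, add_zero]
    · rw [a, b, h1 v x hv.symm b a, mul_zero, mul_zero, add_zero]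
    · have h3 := h1 (x + v) v (ETCP.C.add' hv hself) (by rw [map_add, a, b]; decide) b
      rw [map_add] at h3
      rw [a, b, one_mul, mul_one, add_comm]
      exact h3

/-- a single block of local type -/
theorem loc_case' [Finite S.G] (hneg : S.neg = 1) {w : ETSC.Fm (Additive S.G)}
    (A : H34C.PA (dt S) w) (ht : LinearMap.range w = ⊤) : LocE S := by
  have hf : Finite (Additive S.G) := (inferInstance : Finite S.G)
  have he := dt_e S hneg
  have hC : ∀ x v, w x v = 0 → ETCP.C (dt S) x v := by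
    intro x v h
    apply C_of_all
    intro b hb
    by_cases h0 : b = 0
    · rw [h0]; rfl
    · rw [← A.per x b (by rw [ht]; trivial) h0 hb]
      exact h
  have heq : ∀ a b c d : Additive S.G, w a b = 1 → w c d = 1 → (dt S).q a b = (dt S).q c d := by
    intro a b c d h1 h2
    have ha : w a ≠ 0 := by
      intro h; rw [h] at h1; exact zero_ne_one h1
    have hc : w c ≠ 0 := by
      intro h; rw [h] at h2; exact zero_ne_one h2
    obtain ⟨e, e1, e2⟩ := ex_11 ha hc
    have k1 : (dt S).q a b = (dt S).q a e := ETCP.q_eq (hC _ _ (by rw [map_add, h1, e1]; decide))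
    have k2 : (dt S).q c d = (dt S).q c e := ETCP.q_eq (hC _ _ (by rw [map_add, h2, e2]; decide))
    have k3 : (dt S).q a e = (dt S).q c e := by
      apply ETCP.q_eq'
      apply hC
      rw [map_add, LinearMap.add_apply, e1, e2]
      decide
    rw [k1, k2, k3]
  refine LocE.loc S inferInstance hneg ?_
  classical
  have h1 : Nat.card S.Q ≤ Nat.card Bool := by
    refine Nat.card_le_card_of_injective (fun β => decide (β = S.zero)) ?_
    intro β γ e
    by_cases h1 : β = S.zero <;> by_cases h2 : γ = S.zero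
    · rw [h1, h2]
    · simp [h1, h2] at e
    · simp [h1, h2] at e
    · obtain ⟨a, b, rfl⟩ := S.surj β
      obtain ⟨c, d, rfl⟩ := S.surj γ
      have hone : ∀ a b : S.G, S.q a b ≠ S.zero →
          w (Additive.ofMul a) (Additive.ofMul b) = 1 := by
        intro a b h
        apply ETSC.z2ne
        intro h0
        exact h (hC _ _ h0)
      exact heq _ _ _ _ (hone a b h1) (hone c d h2)
  have e : Nat.card Bool = 2 := by rw [Nat.card_eq_fintype_card, Fintype.card_bool]
  rwa [e] at h1

/-- a single block of extension type -/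
theorem ext_case' [Finite S.G] (hneg : S.neg = 1) {η : ETSC.Dl (Additive S.G)} (hη : η ≠ 0)
    (h : ∀ μ, ETCO.wd η μ ∈ ETSC.R (dt S)) : LocE S := by
  have hf : Finite (Additive S.G) := (inferInstance : Finite S.G)
  obtain ⟨t, ht⟩ := ex_one hη
  have hrig : ∀ x, S.q t.toMul x = S.zero → x = 1 ∨ x = t.toMul := by
    intro x hx
    have h1 : ∀ μ : ETSC.Dl (Additive S.G),
        μ (Additive.ofMul x) = μ (η (Additive.ofMul x) • t) := by
      intro μ
      have h2 : ETCO.wd η μ t (Additive.ofMul x) = 0 := h μ t (Additive.ofMul x) hx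
      rw [ETCO.wd_apply, ht, one_mul] at h2
      rw [map_smul, smul_eq_mul, mul_comm]
      exact ETSC.z2add h2
    have h3 := exD h1
    rcases ETSC.z2 (η (Additive.ofMul x)) with e | e
    · rw [e, zero_smul] at h3
      left
      exact h3
    · rw [e, one_smul] at h3
      right
      exact congrArg Additive.toMul h3
  have ht1 : t.toMul ≠ 1 := by
    intro e
    have : t = 0 := e
    rw [this, map_zero] at ht
    exact zero_ne_one ht
  obtain ⟨T, hT⟩ := ETCR.ext_of_rigid S hneg ht1 hrig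
  have hT' := ETCO.Iso.symm hT
  have hnegT : (ext T).neg = 1 := ETCO.neg_iso hT hneg
  have e : (T.neg, (1 : Multiplicative (ZMod 2))) = ((1 : T.G), (1 : Multiplicative (ZMod 2))) :=
    hnegT
  have hfT : Finite (T.G × Multiplicative (ZMod 2)) := by
    obtain ⟨φ, -, -⟩ := hT
    exact Finite.of_equiv S.G φ.toEquiv
  have hfT' : Finite T.G := Finite.of_injective (fun a : T.G => (a, (1 : Multiplicative (ZMod 2))))
    (fun a b h => congrArg Prod.fst h)
  exact LocE.iso (ext T) S hT' (LocE.ext T hfT' (congrArg Prod.fst e))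

open Pool.Agent.ESL in
/-- a proper splitting is a product decomposition -/
theorem prod_case' [Finite S.G] (hneg : S.neg = 1)
    {E F : Submodule (ZMod 2) (ESL.D (Additive S.G))} (hEF : IsCompl E F) (hE : E ≠ ⊤) (hF : F ≠ ⊤)
    (h : ∀ a ∈ co F, ∀ b ∈ co E, ∀ a' ∈ co F, ∀ b' ∈ co E,
      ETCP.C (dt S) (a + b) (a' + b') ↔ ETCP.C (dt S) a a' ∧ ETCP.C (dt S) b b') :
    ∃ A B : QStruct, A.neg = 1 ∧ B.neg = 1 ∧ Nat.card A.G < Nat.card S.G ∧
      Nat.card B.G < Nat.card S.G ∧ Iso (prod A B) S := by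
  classical
  have hf : Finite (Additive S.G) := (inferInstance : Finite S.G)
  obtain ⟨HA, hHA⟩ := ETCP.zspan S (co F)
  obtain ⟨HB, hHB⟩ := ETCP.zspan S (co E)
  have h1 : co F ⊓ co E = ⊥ := by
    rw [← co_sup, sup_comm, hEF.sup_eq_top, co_top]
  have h2 : co F ⊔ co E = ⊤ := co_sup_top hEF.disjoint.symm
  have hc : IsCompl HA HB := by
    constructor
    · rw [Subgroup.disjoint_def]
      intro x hx hx'
      have h3 : Additive.ofMul x ∈ co F ⊓ co E := ⟨(hHA x).1 hx, (hHB x).1 hx'⟩
      rw [h1] at h3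
      exact h3
    · rw [codisjoint_iff, Subgroup.eq_top_iff']
      intro x
      have h3 : Additive.ofMul x ∈ co F ⊔ co E := by rw [h2]; trivial
      obtain ⟨a, ha, b, hb, e⟩ := Submodule.mem_sup.1 h3
      have h4 : x = a.toMul * b.toMul := (congrArg Additive.toMul e).symm
      rw [h4]
      exact Subgroup.mul_mem_sup ((hHA a.toMul).2 ha) ((hHB b.toMul).2 hb)
  have hq : ∀ a ∈ HA, ∀ b ∈ HB, ∀ a' ∈ HA, ∀ b' ∈ HB, S.q (a * b) (a' * b') = S.zero ↔
      S.q a a' = S.zero ∧ S.q b b' = S.zero := by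
    intro a ha b hb a' ha' b' hb'
    exact h (Additive.ofMul a) ((hHA a).1 ha) (Additive.ofMul b) ((hHB b).1 hb)
      (Additive.ofMul a') ((hHA a').1 ha') (Additive.ofMul b') ((hHB b').1 hb')
  obtain ⟨SA, SB, f, g, n1, n2, -, -, hiso⟩ := prodrec_proof isoc_proof S hneg HA HB hc hq
  have hBne : ∃ b ∈ HB, b ≠ 1 := by
    by_contra hcon
    push Not at hcon
    apply hE
    have : co E = ⊥ := by
      rw [eq_bot_iff]
      intro b hb
      have := hcon b.toMul ((hHB b.toMul).2 hb)
      exact this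
    rw [← an_co E, this, an_bot]
  have hAne : ∃ a ∈ HA, a ≠ 1 := by
    by_contra hcon
    push Not at hcon
    apply hF
    have : co F = ⊥ := by
      rw [eq_bot_iff]
      intro b hb
      have := hcon b.toMul ((hHA b.toMul).2 hb)
      exact this
    rw [← an_co F, this, an_bot]
  have hlt : ∀ {K L : Subgroup S.G}, IsCompl K L → (∃ b ∈ L, b ≠ 1) → Nat.card K < Nat.card S.G := by
    intro K L hKL hL
    obtain ⟨b, hb, hb1⟩ := hL
    have h3 : b ∉ K := fun hbK => hb1 ((Subgroup.disjoint_def.1 hKL.disjoint) hbK hb)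
    have h4 : Nat.card K ≤ Nat.card S.G := Subgroup.card_le_card_group K
    rcases h4.lt_or_eq with h5 | h5
    · exact h5
    · exact absurd (by rw [Subgroup.eq_top_of_card_eq K h5]; trivial) h3
  refine ⟨SA, SB, n1, n2, ?_, ?_, hiso⟩
  · rw [Nat.card_congr f.toEquiv]
    exact hlt hc hBne
  · rw [Nat.card_congr g.toEquiv]
    exact hlt hc.symm hAne

/-- **Theorem X'**, the main direction -/
theorem locE_of_sr : ∀ (n : ℕ) (S : QStruct), Nat.card S.G = n → Finite S.G → S.neg = 1 →
    SR S → LocE S := by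
  intro n
  induction n using Nat.strong_induction_on with
  | _ n ih =>
    intro S hn hf hneg hS
    have hf' : Finite (Additive S.G) := hf
    have he := dt_e S hneg
    have hSR := srs_of_sr hneg hS
    have hL := sumL he hSR
    have hI := indB he hSR
    by_cases h0 : ∀ (b : ETSC.Dl (Additive S.G)) x, ETSC.PP (dt S) b x → b = 0
    · -- no functionals
      refine LocE.loc S hf hneg ?_
      have hz : ∀ a b : S.G, S.q a b = S.zero := by
        intro a b
        have h1 : ETCP.C (dt S) (Additive.ofMul a) (Additive.ofMul b) := C_of_all fun f hf => by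
          rw [h0 f _ hf]; rfl
        exact h1
      have : Subsingleton S.Q := ⟨fun β γ => by
        obtain ⟨a, b, rfl⟩ := S.surj β
        obtain ⟨c, d, rfl⟩ := S.surj γ
        rw [hz, hz]⟩
      have := Finite.card_le_one_iff_subsingleton.2 this
      omega
    push Not at h0
    obtain ⟨b, x, hb, hb0⟩ := h0
    obtain ⟨E, hE0, -⟩ := domG he hSR hb0 ⟨x, hb⟩
    -- blocks are not zero
    have hEne : ∃ c ∈ E, c ≠ 0 := by
      rcases hE0 with ⟨w, A, rfl⟩ | ⟨η, T⟩
      · by_contra hc
        push Not at hc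
        exact A.ne (LinearMap.ext fun x => hc _ ⟨x, rfl⟩)
      · exact ⟨η, T.mem, T.ne⟩
    obtain ⟨c, hc, hc0⟩ := hEne
    by_cases hET : E = ⊤
    · rcases hE0 with ⟨w, A, hw⟩ | ⟨η, T⟩
      · exact loc_case' hneg A (hw.trans hET)
      · exact ext_case' hneg T.ne fun μ => T.wd μ (by rw [hET]; trivial)
    · obtain ⟨F, hEF, hsp⟩ := split_C he hL hI hE0
      have hF : F ≠ ⊤ := by
        rintro rfl
        have := hEF.disjoint
        rw [disjoint_top] at this
        rw [this] at hc
        exact hc0 hc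
      obtain ⟨A, B, n1, n2, c1, c2, hiso⟩ := prod_case' hneg hEF hET hF
        (fun a ha b hb a' ha' b' hb' => hsp a (ETSC.mem_An.2 ha) b (ETSC.mem_An.2 hb) a'
          (ETSC.mem_An.2 ha') b' (ETSC.mem_An.2 hb'))
      have hsp' := ETCO.sr_iso (ETCO.Iso.symm hiso) hS
      have hcard : Finite A.G ∧ Finite B.G := by
        obtain ⟨φ, -, -⟩ := hiso
        have h5 : Finite (A.G × B.G) := Finite.of_equiv S.G φ.symm.toEquiv
        exact ⟨Finite.of_injective (fun a : A.G => (a, (1 : B.G))) (fun a b h => congrArg Prod.fst h),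
          Finite.of_injective (fun a : B.G => ((1 : A.G), a)) (fun a b h => congrArg Prod.snd h)⟩
      refine LocE.iso _ S hiso (LocE.prod A B ?_ ?_)
      · exact ih _ (hn ▸ c1) A rfl hcard.1 n1 (ETCO.sr_left hsp')
      · exact ih _ (hn ▸ c2) B rfl hcard.2 n2 (ETCO.sr_right hsp')

/-- the converse -/
theorem LocE.conv {S : QStruct} (h : LocE S) : Finite S.G ∧ S.neg = 1 ∧ SR S := by
  induction h with
  | loc S hf hneg h => exact ⟨hf, hneg, ETCO.sr_loc hf hneg h⟩
  | ext S hf hneg =>
    refine ⟨?_, ?_, ETCO.sr_ext hneg⟩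
    · show Finite (S.G × Multiplicative (ZMod 2))
      infer_instance
    · show (S.neg, (1 : Multiplicative (ZMod 2))) = (1, 1)
      rw [hneg]
  | prod S T _ _ h1 h2 =>
    obtain ⟨f1, n1, s1⟩ := h1
    obtain ⟨f2, n2, s2⟩ := h2
    refine ⟨?_, ?_, ETCO.sr_prod n1 n2 s1 s2⟩
    · show Finite (S.G × T.G)
      infer_instance
    · show (S.neg, T.neg) = (1, 1)
      rw [n1, n2]
  | iso S T hi _ h =>
    obtain ⟨f1, n1, s1⟩ := h
    refine ⟨?_, ETCO.neg_iso hi n1, ETCO.sr_iso hi s1⟩
    obtain ⟨φ, -, -⟩ := hi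
    exact Finite.of_equiv S.G φ.toEquiv

/-- **Theorem X'** -/
theorem locE_iff (S : QStruct) (hf : Finite S.G) (hneg : S.neg = 1) : LocE S ↔ SR S :=
  ⟨fun h => h.conv.2.2, fun h => locE_of_sr _ S rfl hf hneg h⟩

end Pool.Agent.H34D
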