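import Pool.Agent.H34D.Gd

/-!
Propagation of good functionals.
-/

set_option autoImplicit false
set_option linter.unusedSectionVars false
set_option linter.unusedVariables false

namespace Pool.Agent.H34D

open QS
open Pool.Agent.Helper58.PLine (QData)
open Pool.Agent.ETCP
open Pool.Agent.ETSC
open Pool.Agent.H34C

variable {V Q : Type} [AddCommGroup V] [Module (ZMod 2) V] {S : QData V Q}
  {E : Submodule (ZMod 2) (Dl V)}

/-- **propagation**, blocks of type T, functionals of type U -/
theorem prop_T [Finite V] (he : S.e = 0) {η : Dl V} (T : TB S E η) {κ b : Dl V} {c : ZMod 2}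
    (hc : ∀ a, PP S b a → κ a = c) (hκ : TU S E κ) : Good S E b := by
  have hE := T.per
  obtain ⟨b0, hb0, h0, hcen⟩ := hκ
  have hn0 := star0 hE hc hb0 h0 hcen
  have hst : ∀ {b' z z'}, BB S E b b' → b' ∈ Uz S E z → b' ∈ Uz S E z' → b0 z = b0 z' :=
    fun hB hz hz' => star hE hc hb0 hcen hB hz hz'
  by_cases hcase : ∀ x, PP S b x → η x = 1
  · exact Or.inr ⟨η, T, hcase⟩
  left
  push Not at hcase
  obtain ⟨x1, hx1, hη⟩ := hcase
  have hη1 : η x1 = 0 := (z2 (η x1)).resolve_right hη
  have hY1 : x1 ∉ An E := by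
    intro hY
    exact hn0 ⟨E.zero_mem, x1, hY, by rwa [add_zero]⟩
  have hne0 : ∀ {b'}, BB S E b b' → b' ≠ 0 := by
    rintro b' hB rfl
    exact hn0 hB
  -- (K)
  have K : ∀ b', BB S E b b' → b' ∈ Uz S E x1 → b' ≠ η → b' = b0 := by
    intro b' hB h1 hne
    obtain ⟨z0, hz1, hz2⟩ := ex_10 T.ne hne
    have u0 : b' ∈ Uz S E z0 := T.uz_out hz1 hB.1 hz2
    have e0 : b0 z0 = b0 x1 := hst hB u0 h1
    have hk : ∀ v, η v = 0 → b' v = 0 → b0 v = 0 := by
      intro v v1 v2
      have u1 : b' ∈ Uz S E (z0 + v) := T.uz_out (by rw [map_add, hz1, v1, add_zero]) hB.1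
        (by rw [map_add, hz2, v2, add_zero])
      have e1 := hst hB u1 u0
      rw [map_add] at e1
      have f : ∀ a b : ZMod 2, a + b = a → b = 0 := by decide
      exact f _ _ e1
    have h3 : b0 x1 = 0 := hk x1 hη1 (Uz_ker he h1)
    rw [h3] at e0
    rcases of_ker2 hk with h | h | h | h
    · exact absurd h h0
    · rw [h, hz1] at e0
      exact absurd e0 one_ne_zero
    · exact h.symm
    · rw [h, LinearMap.add_apply, hz1, hz2, add_zero] at e0
      exact absurd e0 one_ne_zero
  -- case A
  have caseA : ∀ b1, BB S E b b1 → b1 ∈ Uz S E x1 → b1 ≠ η → ∀ b2, BB S E b b2 → b2 = b1 := by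
    intro b1 hB1 h1 hne b2 hB2
    by_contra h21
    have e1 := K b1 hB1 h1 hne
    by_cases h2 : b2 = η
    · -- (K')
      subst h2
      have hk : ∀ v, b2 v = 0 → b2 v = 0 → b0 v = 0 := by
        intro v hv _
        by_cases hvY : v ∈ An E
        · exact mem_An.1 hvY b0 hb0
        · rw [hst hB2 (T.ins hv hvY) (T.ins hη1 hY1), ← e1]
          exact Uz_ker he h1
      rcases of_ker2 hk with h | h | h | h
      · exact h0 h
      · exact hne (e1.trans h)
      · exact hne (e1.trans h)
      · rw [ZModModule.add_self] at h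
        exact h0 h
    · -- a point `z'` with `η z' = 1`, `b2 z' = 0`, `b1 z' = 1`
      obtain ⟨z', z1, z2', z3⟩ : ∃ z', η z' = 1 ∧ b2 z' = 0 ∧ b1 z' = 1 := by
        by_contra hn
        push Not at hn
        have hb1 : ∀ z, η z = 1 → b2 z = 0 → b1 z = 0 := fun z a b =>
          (Pool.Agent.ETSC.z2 (b1 z)).resolve_right (hn z a b)
        obtain ⟨z0, a1, a2⟩ := ex_10 T.ne h2
        have hk : ∀ v, η v = 0 → b2 v = 0 → b1 v = 0 := by
          intro v v1 v2
          have e2 := hb1 (z0 + v) (by rw [map_add, a1, v1, add_zero])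
            (by rw [map_add, a2, v2, add_zero])
          rw [map_add, hb1 z0 a1 a2, zero_add] at e2
          exact e2
        have a3 := hb1 z0 a1 a2
        rcases of_ker2 hk with h | h | h | h
        · exact hne0 hB1 h
        · exact hne h
        · exact h21 h.symm
        · rw [h, LinearMap.add_apply, a1, a2, add_zero] at a3
          exact one_ne_zero a3
      have u2 : b2 ∈ Uz S E z' := T.uz_out z1 hB2.1 z2'
      obtain ⟨b3, h3, h3', hB3⟩ := helly hE (meet_self hx1) ((meet_iff hE b z').2 ⟨b2, u2, hB2⟩)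
      have h4 : b3 ≠ η := by
        rintro rfl
        rw [Uz_ker he h3'] at z1
        exact zero_ne_one z1
      have h5 := K b3 hB3 h3 h4
      have h6 : b3 z' = 1 := by rw [h5, ← e1]; exact z3
      rw [Uz_ker he h3'] at h6
      exact zero_ne_one h6
  obtain ⟨b1, h1, hB1⟩ := (meet_iff hE b x1).1 (meet_self hx1)
  by_cases h1η : b1 = η
  · refine tu_of hE hB1 (hne0 hB1) ?_
    intro b2 hB2
    by_contra h21
    have h2η : b2 ≠ η := fun h => h21 (h.trans h1η.symm)
    obtain ⟨z', z1, z2'⟩ := ex_10 T.ne h2η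
    have u2 : b2 ∈ Uz S E z' := T.uz_out z1 hB2.1 z2'
    obtain ⟨b3, h3, h3', hB3⟩ := helly hE (meet_self hx1) ((meet_iff hE b z').2 ⟨b2, u2, hB2⟩)
    have h4 : b3 ≠ η := by
      rintro rfl
      rw [Uz_ker he h3'] at z1
      exact zero_ne_one z1
    have h5 := caseA b3 hB3 h3 h4 b1 hB1
    exact h4 (h5.symm.trans h1η)
  · exact tu_of hE hB1 (hne0 hB1) (caseA b1 hB1 h1 h1η)

section count

variable [Fintype V]

open Classical in
/-- the number of elements of `Y` -/
noncomputable def cY (E : Submodule (ZMod 2) (Dl V)) : ℤ := ∑ v : V, if v ∈ An E then 1 else 0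

theorem cY_pos : 0 < cY E := by
  classical
  unfold cY
  apply Finset.sum_pos'
  · intro b _
    split_ifs <;> norm_num
  · refine ⟨0, Finset.mem_univ _, ?_⟩
    rw [if_pos (Submodule.zero_mem _)]
    norm_num

theorem cY_shift (z : V) : ∑ v : V, (open Classical in if v + z ∈ An E then (1 : ℤ) else 0) =
    cY E := by
  classical
  unfold cY
  rw [← Equiv.sum_comp (Equiv.addRight z)]
  apply Finset.sum_congr rfl
  intro v _
  show (if v + z + z ∈ An E then (1 : ℤ) else 0) = _
  rw [add_self']

/-- `4 |Y| ≤ |V|` -/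
theorem cY_four {f g : Dl V} (hf : f ∈ E) (hg : g ∈ E) (f0 : f ≠ 0) (g0 : g ≠ 0) (hfg : g ≠ f) :
    4 * cY E ≤ (Fintype.card V : ℤ) := by
  classical
  have h1 : ∑ v : V, (1 + sg (f v)) * (1 + sg (g v)) = (Fintype.card V : ℤ) := by
    have e : ∀ v : V, (1 + sg (f v)) * (1 + sg (g v)) =
        1 + sg (f v) + sg (g v) + sg ((f + g) v) := by
      intro v
      rw [LinearMap.add_apply, sg_add]
      ring
    rw [Finset.sum_congr rfl fun v _ => e v, Finset.sum_add_distrib, Finset.sum_add_distrib,
      Finset.sum_add_distrib, sum_sg, sum_sg, sum_sg, if_neg f0, if_neg g0,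
      if_neg (fun h => hfg (eo h).symm)]
    simp
  rw [← h1, cY, Finset.mul_sum]
  apply Finset.sum_le_sum
  intro v _
  by_cases h : v ∈ An E
  · rw [if_pos h, mem_An.1 h f hf, mem_An.1 h g hg, sg_zero]
    norm_num
  · rw [if_neg h, mul_zero]
    rcases sg_cases (f v) with a | a <;> rcases sg_cases (g v) with b | b <;> rw [a, b] <;>
      norm_num

/-- `2 |ker f| = |V|` -/
theorem ker_two {f : Dl V} (f0 : f ≠ 0) :
    2 * ∑ v : V, (open Classical in if f v = 0 then (1 : ℤ) else 0) = (Fintype.card V : ℤ) := by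
  classical
  have h1 : ∑ v : V, (1 + sg (f v)) = (Fintype.card V : ℤ) := by
    rw [Finset.sum_add_distrib, sum_sg, if_neg f0]
    simp
  rw [← h1, Finset.mul_sum]
  apply Finset.sum_congr rfl
  intro v _
  rcases z2 (f v) with a | a
  · rw [if_pos a, a, sg_zero]
    norm_num
  · rw [if_neg (by rw [a]; exact one_ne_zero), a, sg_one]
    norm_num

/-- `2 |U_z| |Y| ≤ |V|` for `z ∉ Y` -/
theorem nU_two [Fintype (Dl V)] (he : S.e = 0) {z : V} (hz : z ∉ An E) :
    2 * cY E * nU S E z ≤ (Fintype.card V : ℤ) := by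
  classical
  have h1 : ∑ v : V, ∑ b : Dl V, (if b ∈ Uz S E z then sg (b v) else 0) =
      (Fintype.card V : ℤ) := by
    rw [Finset.sum_comm]
    have e : ∀ b : Dl V, ∑ v : V, (if b ∈ Uz S E z then sg (b v) else 0) =
        if b = 0 then (Fintype.card V : ℤ) else 0 := by
      intro b
      by_cases hb : b = 0
      · subst hb
        rw [if_pos rfl]
        simp [sg_zero]
      · rw [if_neg hb]
        by_cases h : b ∈ Uz S E z
        · rw [Finset.sum_congr rfl fun v _ => if_pos h, sum_sg, if_neg hb]
        · exact Finset.sum_eq_zero fun v _ => if_neg h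
    rw [Finset.sum_congr rfl fun b _ => e b]
    simp
  have h2 : ∑ v : V, ∑ b : Dl V, (if b ∈ Uz S E z then sg (b v) else 0) =
      (∑ v : V, if KK S E z v then 1 else 0) * nU S E z := by
    rw [Finset.sum_mul]
    apply Finset.sum_congr rfl
    intro v _
    rw [sum_Uz]
    by_cases h : KK S E z v
    · rw [if_pos h, if_pos h, one_mul]
    · rw [if_neg h, if_neg h, zero_mul]
  rw [← h1, h2]
  apply mul_le_mul_of_nonneg_right _ (nU_pos z).le
  have h3 : 2 * cY E = ∑ v : V, ((if v ∈ An E then (1 : ℤ) else 0) +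
      (if v + z ∈ An E then (1 : ℤ) else 0)) := by
    rw [Finset.sum_add_distrib, cY_shift, cY]
    ring
  rw [h3]
  apply Finset.sum_le_sum
  intro v _
  by_cases a : v ∈ An E
  · have b : v + z ∉ An E := by
      intro b
      apply hz
      have h4 := (An E).add_mem a b
      rwa [← add_assoc, ZModModule.add_self, zero_add] at h4
    rw [if_pos a, if_neg b, if_pos]
    · norm_num
    · intro b hb
      exact mem_An.1 a b hb.1
  · by_cases b : v + z ∈ An E
    · rw [if_neg a, if_pos b, if_pos]
      · norm_num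
      · intro b' hb'
        have h4 := mem_An.1 b b' hb'.1
        rw [map_add, Uz_ker he hb', add_zero] at h4
        exact h4
    · rw [if_neg a, if_neg b]
      split_ifs <;> norm_num

theorem half (η b : Dl V) (x : V) :
    2 * ∑ v : V, (open Classical in if S.q x v = S.z ∧ η v = 0 then sg (b v) else 0) =
      inn S S.z b x + inn S S.z (b + η) x := by
  classical
  unfold inn
  rw [Finset.mul_sum, ← Finset.sum_add_distrib]
  apply Finset.sum_congr rfl
  intro v _
  by_cases h : S.q x v = S.z
  · rw [if_pos h, if_pos h, LinearMap.add_apply, sg_add]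
    rcases z2 (η v) with a | a
    · rw [if_pos ⟨h, a⟩, a, sg_zero]
      ring
    · rw [if_neg (fun h' => by rw [a] at h'; exact one_ne_zero h'.2), a, sg_one]
      ring
  · rw [if_neg h, if_neg h, if_neg (fun h' => h h'.1)]
    ring

open Classical in
/-- the part over `G - Y` -/
noncomputable def gp (S : QData V Q) (E : Submodule (ZMod 2) (Dl V)) (η b : Dl V) : ℤ :=
  ∑ x : V, if η x = 0 ∧ x ∉ An E then inn S S.z b x else 0

/-- `P_κ` and `P_(κ+η)` miss `G` -/
theorem miss1 {η κ : Dl V} (T : TB S E η) (hκ : ∀ x, PP S κ x → η x = 1) {v : V}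
    (hv : η v = 0) : ¬ PP S κ v ∧ ¬ PP S (κ + η) v := by
  constructor
  · intro h
    rw [hκ v h] at hv
    exact one_ne_zero hv
  · intro h
    by_cases hY : v ∈ An E
    · obtain ⟨θ, t1, t2, t3⟩ := T.two
      obtain ⟨z, z1, z2'⟩ := ex_10 t2 (Ne.symm t3)
      have hz : z ∉ An E := by
        intro hz
        rw [mem_An.1 hz θ t1] at z1
        exact zero_ne_one z1
      obtain ⟨x, hx, hxz⟩ := (meet_iff T.per κ z).2 ⟨η, T.ins z2' hz, T.mem, v, hY, h⟩
      have h1 := hκ x hx
      have h2 := mem_An.1 hxz η T.mem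
      rw [map_add, z2', add_zero] at h2
      rw [h2] at h1
      exact zero_ne_one h1
    · have h1 := PP_add_form h (T.ins hv hY).2
      rw [add_self'] at h1
      have h2 := hκ v h1
      rw [hv] at h2
      exact zero_ne_one h2

theorem cnt1 {η κ b : Dl V} (T : TB S E η) (hκ : ∀ x, PP S κ x → η x = 1) {c : ZMod 2}
    (hc : ∀ a, PP S b a → κ a = c) :
    2 * gp S E η b + Zc S E S.z 0 b 0 ≤ Zc S E S.z 0 (b + η) 0 := by
  classical
  set D : ℤ := ∑ x : V, ∑ v : V, (if S.q x v = S.z ∧ η x = 0 ∧ η v = 0 then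
    sg (κ x) * sg (b v) else 0) with hD
  have d1 : 2 * D = ∑ x : V, (if η x = 0 then
      sg (κ x) * (inn S S.z b x + inn S S.z (b + η) x) else 0) := by
    rw [hD, Finset.mul_sum]
    apply Finset.sum_congr rfl
    intro x _
    rcases z2 (η x) with a | a
    · have e0 : ∑ v : V, (if S.q x v = S.z ∧ η x = 0 ∧ η v = 0 then
          sg (κ x) * sg (b v) else 0) =
          sg (κ x) * ∑ v : V, (if S.q x v = S.z ∧ η v = 0 then sg (b v) else 0) := by
        rw [Finset.mul_sum]
        apply Finset.sum_congr rfl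
        intro v _
        by_cases h : S.q x v = S.z ∧ η v = 0
        · rw [if_pos h, if_pos ⟨h.1, a, h.2⟩]
        · rw [if_neg h, if_neg (fun h' => h ⟨h'.1, h'.2.2⟩), mul_zero]
      rw [if_pos a, ← half, e0]
      ring
    · have a' : ¬ η x = 0 := by rw [a]; exact one_ne_zero
      rw [if_neg a', Finset.sum_eq_zero, mul_zero]
      intro v _
      exact if_neg fun h' => a' h'.2.1
  have d2 : 2 * D = 0 := by
    rw [hD, Finset.sum_comm, Finset.mul_sum]
    apply Finset.sum_eq_zero
    intro v _
    rcases z2 (η v) with a | a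
    · have e1 : ∑ x : V, (if S.q x v = S.z ∧ η x = 0 ∧ η v = 0 then
          sg (κ x) * sg (b v) else 0) =
          sg (b v) * ∑ x : V, (if S.q v x = S.z ∧ η x = 0 then sg (κ x) else 0) := by
        rw [Finset.mul_sum]
        apply Finset.sum_congr rfl
        intro x _
        rw [S.symm v x]
        by_cases h : S.q x v = S.z ∧ η x = 0
        · rw [if_pos h, if_pos ⟨h.1, h.2, a⟩, mul_comm]
        · rw [if_neg h, if_neg (fun h' => h ⟨h'.1, h'.2.1⟩), mul_zero]
      rw [e1]
      have e2 : 2 * (sg (b v) * ∑ x : V, (if S.q v x = S.z ∧ η x = 0 then sg (κ x) else 0)) =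
          sg (b v) * (2 * ∑ x : V, (if S.q v x = S.z ∧ η x = 0 then sg (κ x) else 0)) := by ring
      rw [e2, half, inn_not (miss1 T hκ a).1, inn_not (miss1 T hκ a).2]
      ring
    · have a' : ¬ η v = 0 := by rw [a]; exact one_ne_zero
      rw [Finset.sum_eq_zero, mul_zero]
      intro x _
      exact if_neg fun h' => a' h'.2.2
  have d3 : ∑ x : V, (if η x = 0 then
      sg (κ x) * (inn S S.z b x + inn S S.z (b + η) x) else 0) =
      sg c * (2 * gp S E η b + Zc S E S.z 0 b 0) + Zc S E S.z κ (b + η) 0 := by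
    unfold gp Zc
    rw [mul_add, ← mul_assoc, Finset.mul_sum, Finset.mul_sum, ← Finset.sum_add_distrib,
      ← Finset.sum_add_distrib]
    apply Finset.sum_congr rfl
    intro x _
    rw [add_zero, LinearMap.zero_apply, sg_zero, one_mul]
    have e3 : sg (κ x) * inn S S.z b x = sg c * inn S S.z b x := by
      by_cases h : PP S b x
      · rw [hc x h]
      · rw [inn_not h, mul_zero, mul_zero]
    by_cases hY : x ∈ An E
    · have a : η x = 0 := mem_An.1 hY η T.mem
      rw [if_pos a, if_neg (fun h' => h'.2 hY), if_pos hY, if_pos hY, mul_add, e3]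
      ring
    · rw [if_neg hY, if_neg hY]
      rcases z2 (η x) with a | a
      · rw [if_pos a, if_pos ⟨a, hY⟩]
        have e4 : inn S S.z (b + η) x = inn S S.z b x := by
          unfold inn
          apply Finset.sum_congr rfl
          intro v _
          by_cases h : S.q x v = S.z
          · rw [if_pos h, if_pos h, LinearMap.add_apply, (T.ins a hY).2 v h, add_zero]
          · rw [if_neg h, if_neg h]
        rw [e4, mul_add, e3]
        ring
      · have a' : ¬ η x = 0 := by rw [a]; exact one_ne_zero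
        rw [if_neg a', if_neg (fun h' => a' h'.1)]
        ring
  rw [d2] at d1
  rw [d3] at d1
  have h1 := abs_le.1 (Zc_abs (S := S) (E := E) κ (b + η) 0)
  rcases sg_cases c with h2 | h2 <;> rw [h2] at d1 <;> linarith [h1.1, h1.2]

theorem sum_gp (η b : Dl V) (hη : η ∈ E) :
    ∑ z : V, (open Classical in if η z = 0 ∧ z ∉ An E then Zc S E S.z 0 b z else 0) =
      cY E * gp S E η b := by
  classical
  unfold Zc gp
  have e1 : ∀ z : V, (if η z = 0 ∧ z ∉ An E then ∑ a : V, (if a + z ∈ An E then
      sg ((0 : Dl V) a) * inn S S.z b a else 0) else 0) =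
      ∑ a : V, (if η a = 0 ∧ a ∉ An E then (if z + a ∈ An E then (1 : ℤ) else 0) *
        inn S S.z b a else 0) := by
    intro z
    by_cases h : η z = 0 ∧ z ∉ An E
    · rw [if_pos h]
      apply Finset.sum_congr rfl
      intro a _
      rw [LinearMap.zero_apply, sg_zero, one_mul, add_comm z a]
      by_cases h1 : a + z ∈ An E
      · have h2 : η a = 0 ∧ a ∉ An E := by
          constructor
          · have h3 := mem_An.1 h1 η hη
            rw [map_add, h.1, add_zero] at h3
            exact h3
          · intro h3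
            apply h.2
            have h4 := (An E).add_mem h3 h1
            rwa [← add_assoc, ZModModule.add_self, zero_add] at h4
        rw [if_pos h1, if_pos h2, if_pos h1, one_mul]
      · rw [if_neg h1, if_neg h1, zero_mul]
        split_ifs <;> rfl
    · rw [if_neg h]
      symm
      apply Finset.sum_eq_zero
      intro a _
      by_cases h1 : η a = 0 ∧ a ∉ An E
      · rw [if_pos h1]
        by_cases h2 : z + a ∈ An E
        · exfalso
          apply h
          constructor
          · have h3 := mem_An.1 h2 η hη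
            rw [map_add, h1.1, add_zero] at h3
            exact h3
          · intro h3
            apply h1.2
            have h4 := (An E).add_mem h3 h2
            rwa [← add_assoc, ZModModule.add_self, zero_add] at h4
        · rw [if_neg h2, zero_mul]
      · rw [if_neg h1]
  rw [Finset.sum_congr rfl fun z _ => e1 z, Finset.sum_comm, Finset.mul_sum]
  apply Finset.sum_congr rfl
  intro a _
  by_cases h : η a = 0 ∧ a ∉ An E
  · rw [Finset.sum_congr rfl fun z _ => if_pos h, if_pos h, ← Finset.sum_mul, cY_shift]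
  · rw [Finset.sum_congr rfl fun z _ => if_neg h, if_neg h, Finset.sum_const_zero, mul_zero]

end count

/-- **propagation**, functionals of type 1 -/
theorem prop_1 [Finite V] (he : S.e = 0) {η κ b : Dl V} (T : TB S E η)
    (hκ : ∀ x, PP S κ x → η x = 1) {c : ZMod 2} (hc : ∀ a, PP S b a → κ a = c) : Good S E b := by
  classical
  have := Fintype.ofFinite V
  have hf := finite_Dl (V := V)
  have := Fintype.ofFinite (Dl V)
  have hE := T.per
  have hcnt := cnt1 T hκ hc
  have hgp : 0 ≤ gp S E η b := by
    unfold gp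
    apply Finset.sum_nonneg
    intro x _
    split_ifs
    · exact inn_z b x
    · exact le_rfl
  have hy0 := Zc_zn (S := S) (E := E) b 0
  by_cases hB : BB S E b η
  · by_cases hu : ∀ b', BB S E b b' → b' = η
    · exact Or.inl (tu_of hE hB T.ne hu)
    · exfalso
      push Not at hu
      obtain ⟨b2, hB2, h2⟩ := hu
      set M : ℤ := Zc S E S.z 0 (b + η) 0 with hM
      set N : ℤ := (Fintype.card V : ℤ) with hN
      have hMpos : 0 ≤ M := Zc_zn _ _
      -- every coset in `G - Y`
      have key : ∀ z, η z = 0 → z ∉ An E → M + 1 ≤ nU S E z * Zc S E S.z 0 b z := by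
        intro z hz hY
        obtain ⟨z', z1, z2'⟩ := ex_10 T.ne h2
        have u1 : η ∈ Uz S E z := T.ins hz hY
        have u2 : b2 ∈ Uz S E z' := T.uz_out z1 hB2.1 z2'
        obtain ⟨b3, h3, h3', hB3⟩ := helly hE ((meet_iff hE b z).2 ⟨η, u1, hB⟩)
          ((meet_iff hE b z').2 ⟨b2, u2, hB2⟩)
        have h4 : b3 ≠ η := by
          rintro rfl
          rw [Uz_ker he h3'] at z1
          exact zero_ne_one z1
        rw [Zc_id hE (nulE_z (S := S) (E := E)) (Tw_zero S.z) b z]
        have hpos3 : 0 < Zc S E S.z 0 (b + b3) 0 := by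
          obtain ⟨-, h, hh, hP⟩ := hB3
          exact Zc_zp hP (by rw [add_zero]; exact hh)
        have hnn : ∀ b' : Dl V, 0 ≤ (if b' ∈ Uz S E z then Zc S E S.z 0 (b + b') 0 else 0) := by
          intro b'
          split_ifs
          · exact Zc_zn _ _
          · exact le_rfl
        have h5 : (∑ b' ∈ ({η, b3} : Finset (Dl V)), if b' ∈ Uz S E z then
            Zc S E S.z 0 (b + b') 0 else 0) ≤
            ∑ b' : Dl V, if b' ∈ Uz S E z then Zc S E S.z 0 (b + b') 0 else 0 :=
          Finset.sum_le_sum_of_subset_of_nonneg (Finset.subset_univ _) fun b' _ _ => hnn b'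
        rw [Finset.sum_pair (Ne.symm h4), if_pos u1, if_pos h3] at h5
        omega
      have hY4 : 4 * cY E ≤ N := by
        obtain ⟨θ, t1, t2, t3⟩ := T.two
        exact cY_four T.mem t1 T.ne t2 t3
      have hy := cY_pos (E := E)
      have key2 : ∀ z, η z = 0 → z ∉ An E → 2 * cY E * (M + 1) ≤ N * Zc S E S.z 0 b z := by
        intro z hz hY
        have k1 := key z hz hY
        have k2 := nU_two (S := S) (E := E) he hY
        have k3 := Zc_zn (S := S) (E := E) b z
        calc 2 * cY E * (M + 1) ≤ 2 * cY E * (nU S E z * Zc S E S.z 0 b z) :=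
              mul_le_mul_of_nonneg_left k1 (by linarith)
          _ = (2 * cY E * nU S E z) * Zc S E S.z 0 b z := by ring
          _ ≤ N * Zc S E S.z 0 b z := mul_le_mul_of_nonneg_right k2 k3
      have hcard : 2 * ∑ z : V, (if η z = 0 ∧ z ∉ An E then (1 : ℤ) else 0) = N - 2 * cY E := by
        have h5 := ker_two (V := V) T.ne
        rw [hN, ← h5, cY]
        have h6 : ∑ z : V, (if η z = 0 ∧ z ∉ An E then (1 : ℤ) else 0) +
            ∑ v : V, (if v ∈ An E then (1 : ℤ) else 0) =
            ∑ v : V, (if η v = 0 then (1 : ℤ) else 0) := by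
          rw [← Finset.sum_add_distrib]
          apply Finset.sum_congr rfl
          intro v _
          by_cases a : v ∈ An E
          · rw [if_neg (fun h' => h'.2 a), if_pos a, if_pos (mem_An.1 a η T.mem), zero_add]
          · by_cases b' : η v = 0
            · rw [if_pos ⟨b', a⟩, if_neg a, if_pos b', add_zero]
            · rw [if_neg (fun h' => b' h'.1), if_neg a, if_neg b', add_zero]
        linarith
      have hsum : ∑ z : V, (if η z = 0 ∧ z ∉ An E then (2 * cY E * (M + 1)) else 0) ≤
          ∑ z : V, (if η z = 0 ∧ z ∉ An E then N * Zc S E S.z 0 b z else 0) := by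
        apply Finset.sum_le_sum
        intro z _
        by_cases h : η z = 0 ∧ z ∉ An E
        · rw [if_pos h, if_pos h]
          exact key2 z h.1 h.2
        · rw [if_neg h, if_neg h]
      have e1 : ∑ z : V, (if η z = 0 ∧ z ∉ An E then (2 * cY E * (M + 1)) else 0) =
          cY E * (M + 1) * (N - 2 * cY E) := by
        rw [← hcard, Finset.mul_sum, Finset.mul_sum]
        apply Finset.sum_congr rfl
        intro z _
        split_ifs <;> ring
      have e2 : ∑ z : V, (if η z = 0 ∧ z ∉ An E then N * Zc S E S.z 0 b z else 0) =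
          N * (cY E * gp S E η b) := by
        rw [← sum_gp η b T.mem, Finset.mul_sum]
        apply Finset.sum_congr rfl
        intro z _
        split_ifs <;> ring
      rw [e1, e2] at hsum
      have h7 : (M + 1) * (N - 2 * cY E) ≤ N * gp S E η b := by
        have h8 : cY E * ((M + 1) * (N - 2 * cY E)) ≤ cY E * (N * gp S E η b) := by
          calc cY E * ((M + 1) * (N - 2 * cY E)) = cY E * (M + 1) * (N - 2 * cY E) := by ring
            _ ≤ N * (cY E * gp S E η b) := hsum
            _ = _ := by ring
        exact le_of_mul_le_mul_left h8 hy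
      have hNpos : 0 < N := by linarith
      have h9 : (M + 1) * N ≤ N * (2 * gp S E η b) := by
        have h10 : (M + 1) * (4 * cY E) ≤ (M + 1) * N :=
          mul_le_mul_of_nonneg_left hY4 (by linarith)
        nlinarith
      have h11 : M + 1 ≤ 2 * gp S E η b := by
        rw [mul_comm] at h9
        exact le_of_mul_le_mul_left h9 hNpos
      omega
  · right
    refine ⟨η, T, ?_⟩
    have h0 : Zc S E S.z 0 (b + η) 0 = 0 := by
      by_contra h1
      obtain ⟨x, hx, _, hx2⟩ := Zc_ne h1
      rw [add_zero] at hx2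
      exact hB ⟨T.mem, x, hx2, hx⟩
    rw [h0] at hcnt
    intro x hx
    by_contra hne
    have hη : η x = 0 := (z2 (η x)).resolve_right hne
    by_cases hY : x ∈ An E
    · have h1 := Zc_zp (S := S) (E := E) (z := 0) hx (by rw [add_zero]; exact hY)
      omega
    · have h1 : 0 < gp S E η b := by
        unfold gp
        apply Finset.sum_pos'
        · intro x _
          split_ifs
          · exact inn_z b x
          · exact le_rfl
        · refine ⟨x, Finset.mem_univ _, ?_⟩
          rw [if_pos ⟨hη, hY⟩]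
          exact inn_z_pos hx
      omega

/-- **propagation** -/
theorem prop [Finite V] (he : S.e = 0) (hE : Blk S E) {κ b : Dl V} {c : ZMod 2}
    (hc : ∀ a, PP S b a → κ a = c) {x : V} (hx : PP S b x) (hκ : Good S E κ) : Good S E b := by
  rcases hκ with hκ | ⟨η, T, h⟩
  · rcases hE with ⟨ω, A, rfl⟩ | ⟨η, T⟩
    · exact Or.inl (prop_A he A hc hx hκ)
    · exact prop_T he T hc hκ
  · exact prop_1 he T h hc

end Pool.Agent.H34D
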