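import Pool.Agent.H34D.Sm
import Pool.Agent.H36H.Half

/-!
Finite quaternionic structures with `-1 = 1`: direct products of structures with at most two
quaternions and of group extensions are recognized by their subgroups of index 2.
-/

namespace Pool.Agent.Results.MP_d26ff6_al.ReductionTheorem

open QS

/-- `ZSet S H`: the elements `x` of `H` with `q (x, y) = 0` for some `y` outside `H`. -/
def ZSet (S : QStruct) (H : Subgroup S.G) : Set S.G :=
  {x | x ∈ H ∧ ∃ y, y ∉ H ∧ S.q x y = S.zero}

/-- `H` is a sharp subgroup: it has index `2`, it is not equal to `ZSet S H`, and it is generated by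
the products `x * y` of two elements of `H` outside `ZSet S H`. -/
def Sharp (S : QStruct) (H : Subgroup S.G) : Prop :=
  H.index = 2 ∧ (∃ x ∈ H, x ∉ ZSet S H) ∧
    Subgroup.closure {z | ∃ x ∈ H, x ∉ ZSet S H ∧ ∃ y ∈ H, y ∉ ZSet S H ∧ x * y = z} = H

/-- Every element of `H` is a product of two elements of `ZSet S H`. -/
def Full (S : QStruct) (H : Subgroup S.G) : Prop :=
  ∀ h ∈ H, ∃ x ∈ ZSet S H, ∃ y ∈ ZSet S H, x * y = h

/-- The triple law `D⟨1, -abc⟩ ⊆ D⟨1, -a⟩ * D⟨1, -b⟩ * D⟨1, -c⟩`. -/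
def Triple (S : QStruct) : Prop :=
  ∀ a b c y, S.q (a * b * c) y = S.zero →
    ∃ u v w, S.q a u = S.zero ∧ S.q b v = S.zero ∧ S.q c w = S.zero ∧ y = u * v * w

/-- `S` is finite with `-1 = 1` and has at most two quaternions. -/
def Small (S : QStruct) : Prop := Finite S.G ∧ S.neg = 1 ∧ Nat.card S.Q ≤ 2

/-- `S` is the group extension of some finite structure with `-1 = 1`. -/
def IsExt (S : QStruct) : Prop := ∃ T : QStruct, Finite T.G ∧ T.neg = 1 ∧ S = ext T

/-- The direct products of finitely many structures with the property `P`, up to isomorphism. -/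
inductive Prods (P : QStruct → Prop) : QStruct → Prop
  | of (S : QStruct) (h : P S) : Prods P S
  | prod (S T : QStruct) (h1 : Prods P S) (h2 : Prods P T) : Prods P (prod S T)
  | iso (S T : QStruct) (h1 : Iso S T) (h2 : Prods P S) : Prods P T

/-- `U` is a retract of `S` (with `-1 = 1`): there is an endomorphism `ρ` of the group with values in
`U`, the identity on `U`, such that `q (a, b) = 0` implies `q (ρ a, ρ b) = 0`. -/
def Retract (S : QStruct) (U : Subgroup S.G) : Prop :=
  ∃ ρ : S.G →* S.G, (∀ a, ρ a ∈ U) ∧ (∀ u ∈ U, ρ u = u) ∧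
    ∀ a b, S.q a b = S.zero → S.q (ρ a) (ρ b) = S.zero

/-- (QS4) holds inside retracts -/
theorem Retract.linked {S : QStruct} {U : Subgroup S.G} (h : Retract S U) :
    ∀ a ∈ U, ∀ b ∈ U, ∀ c ∈ U, ∀ d ∈ U, S.q a b = S.q c d →
      ∃ x ∈ U, S.q a b = S.q a x ∧ S.q c d = S.q c x := by
  have h' : REG10.Retr S U := h
  exact h'.lsub

/-- The structure induced by `S` (with `-1 = 1`) on a retract `U`: the group is `U`, the
quaternions are the `q (a, b)` with `a, b ∈ U`. -/
def sub (S : QStruct) (hneg : S.neg = 1) (U : Subgroup S.G) (h : Retract S U) : QStruct where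
  G := U
  Q := {β : S.Q // ∃ a b : U, S.q a b = β}
  neg := 1
  zero := ⟨S.zero, 1, 1, S.q_one 1⟩
  q := fun a b => ⟨S.q a b, a, b, rfl⟩
  exp_two := fun a => Subtype.ext (S.exp_two a)
  surj := fun ⟨β, a, b, h⟩ => ⟨a, b, Subtype.ext h⟩
  qs1 := fun a => Subtype.ext (by
    have := S.qs1 (a : S.G)
    rw [hneg] at this
    simpa using this)
  qs2 := fun a b => Subtype.ext (S.qs2 a b)
  qs3 := by
    intro a b c
    rw [Subtype.mk.injEq, Subtype.mk.injEq]
    exact S.qs3 _ _ _
  qs4 := by
    intro a b c d e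
    obtain ⟨x, hx, h1, h2⟩ := h.linked a a.2 b b.2 c c.2 d d.2 (congrArg Subtype.val e)
    exact ⟨⟨x, hx⟩, Subtype.ext h1, Subtype.ext h2⟩

theorem prods_iff {P : QStruct → Prop} {S : QStruct} : Prods P S ↔ H34D.Prods P S := by
  constructor
  · intro h
    induction h with
    | of S h => exact H34D.Prods.of S h
    | prod S T _ _ h1 h2 => exact H34D.Prods.prod S T h1 h2
    | iso S T hi _ h => exact H34D.Prods.iso S T hi h
  · intro h
    induction h with
    | of S h => exact Prods.of S h
    | prod S T _ _ h1 h2 => exact Prods.prod S T h1 h2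
    | iso S T hi _ h => exact Prods.iso S T hi h

theorem mem_pset {S : QStruct} (hneg : S.neg = 1) {H : Subgroup S.G} {x : S.G} :
    x ∈ H34B.PSet S H ↔ x ∈ H ∧ x ∉ ZSet S H := by
  constructor
  · intro h
    have h1 : x ∈ H := h x (by simpa [hneg] using S.qs1 x)
    exact ⟨h1, fun ⟨_, y, h2, h3⟩ => h2 (h y h3)⟩
  · rintro ⟨h1, h2⟩ y hy
    by_contra hc
    exact h2 ⟨h1, y, hc, hy⟩

theorem sharp_iff {S : QStruct} (hneg : S.neg = 1) {H : Subgroup S.G} :
    Sharp S H ↔ H34B.Sharp S H := by
  have e : {z | ∃ x ∈ H, x ∉ ZSet S H ∧ ∃ y ∈ H, y ∉ ZSet S H ∧ x * y = z} =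
      {z | ∃ x ∈ H34B.PSet S H, ∃ y ∈ H34B.PSet S H, x * y = z} := by
    ext z
    constructor
    · rintro ⟨x, h1, h2, y, h3, h4, h5⟩
      exact ⟨x, (mem_pset hneg).2 ⟨h1, h2⟩, y, (mem_pset hneg).2 ⟨h3, h4⟩, h5⟩
    · rintro ⟨x, h1, y, h2, h3⟩
      rw [mem_pset hneg] at h1 h2
      exact ⟨x, h1.1, h1.2, y, h2.1, h2.2, h3⟩
  have e2 : (∃ x ∈ H, x ∉ ZSet S H) ↔ (H34B.PSet S H).Nonempty :=
    ⟨fun ⟨x, h⟩ => ⟨x, (mem_pset hneg).2 h⟩, fun ⟨x, h⟩ => ⟨x, (mem_pset hneg).1 h⟩⟩
  unfold Sharp H34B.Sharp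
  rw [e, e2]
  refine and_congr_right fun _ => and_congr_right fun _ => ⟨fun h => h.ge, fun h => ?_⟩
  refine le_antisymm ?_ h
  rw [Subgroup.closure_le]
  rintro z ⟨x, h1, y, h2, rfl⟩
  exact H.mul_mem ((mem_pset hneg).1 h1).1 ((mem_pset hneg).1 h2).1

theorem zset_eq {S : QStruct} {H : Subgroup S.G} (hH : H.index = 2) :
    insert 1 (ETCO.ZSet S H) = ZSet S H := by
  ext x
  constructor
  · rintro (rfl | ⟨h1, _, h3⟩)
    · refine ⟨H.one_mem, ?_⟩
      by_contra hc
      have : H = ⊤ := by
        ext y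
        simp only [Subgroup.mem_top, iff_true]
        by_contra hy
        exact hc ⟨y, hy, H36H.q_one S y⟩
      rw [this, Subgroup.index_top] at hH
      omega
    · exact ⟨h1, h3⟩
  · rintro ⟨h1, h2⟩
    by_cases hx : x = 1
    · exact Or.inl hx
    · exact Or.inr ⟨h1, hx, h2⟩

theorem sr1 {S : QStruct} (hneg : S.neg = 1) :
    ETCO.SR S ↔ ∀ H : Subgroup S.G, Sharp S H → ¬ Full S H := by
  rw [H36H.sr_iff S hneg]
  refine forall_congr' fun H => ?_
  rw [sharp_iff hneg]
  refine forall_congr' fun hs => ?_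
  rw [zset_eq hs.1]
  constructor
  · rintro ⟨h, h1, h2⟩ h3
    obtain ⟨x, hx, y, hy, e⟩ := h3 h h1
    exact h2 x hx y hy e
  · intro h
    by_contra hc
    apply h
    intro g hg
    by_contra hc'
    exact hc ⟨g, hg, fun a ha b hb e => hc' ⟨a, ha, b, hb, e⟩⟩

theorem sr2 {S : QStruct} (hneg : S.neg = 1) :
    ETCO.SR S ↔ ∀ H : Subgroup S.G, Sharp S H → Subgroup.closure (ZSet S H) ≠ H := by
  refine forall_congr' fun H => ?_
  rw [sharp_iff hneg]
  refine forall_congr' fun hs => ?_
  rw [← zset_eq hs.1, Subgroup.closure_insert_one]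

/-- Let `S` be a finite structure with `-1 = 1`.  (1) `S` is a direct product of structures with at
most two quaternions and of group extensions if and only if no sharp subgroup `H` is generated by
`ZSet S H`, if and only if no sharp subgroup `H` satisfies `H = ZSet S H * ZSet S H`.  (2) `S` is a
direct product of structures with at most two quaternions if and only if it has no sharp subgroup, if
and only if it satisfies the triple law; in this case it is of elementary type.  (3) `S` is of
elementary type if and only if no retract of `S` has a sharp subgroup `H = ZSet S H * ZSet S H`, and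
the elementary type conjecture for `-1 = 1` holds if and only if no finite structure with `-1 = 1` has
such a subgroup. -/
theorem result :
    (∀ S : QStruct, Finite S.G → S.neg = 1 →
      (Prods (fun S => Small S ∨ IsExt S) S ↔
        ∀ H : Subgroup S.G, Sharp S H → Subgroup.closure (ZSet S H) ≠ H) ∧
      (Prods (fun S => Small S ∨ IsExt S) S ↔
        ∀ H : Subgroup S.G, Sharp S H → ¬ Full S H)) ∧
    (∀ S : QStruct, Finite S.G → S.neg = 1 →
      (Prods Small S ↔ ∀ H : Subgroup S.G, ¬ Sharp S H) ∧ (Prods Small S ↔ Triple S) ∧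
      (Prods Small S → ElemType S)) ∧
    (∀ (S : QStruct) (hneg : S.neg = 1), Finite S.G →
      (ElemType S ↔ ∀ (U : Subgroup S.G) (h : Retract S U) (H : Subgroup (sub S hneg U h).G),
        Sharp (sub S hneg U h) H → ¬ Full (sub S hneg U h) H)) ∧
    ((∀ S : QStruct, Finite S.G → S.neg = 1 → ElemType S) ↔
      ∀ S : QStruct, Finite S.G → S.neg = 1 → ∀ H : Subgroup S.G, Sharp S H → ¬ Full S H) := by
  refine ⟨fun S hf hneg => ?_, fun S hf hneg => ?_, ?_, ?_⟩
  · have h1 := prods_iff.trans (H34D.locE_iff_prods.symm.trans (H34D.locE_iff S hf hneg))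
    exact ⟨h1.trans (sr2 hneg), h1.trans (sr1 hneg)⟩
  · have h := H34D.small_iff S hf hneg
    refine ⟨(prods_iff.trans h.1).trans (forall_congr' fun H => not_congr (sharp_iff hneg).symm),
      prods_iff.trans h.2.1, fun h' => h.2.2 (prods_iff.1 h')⟩
  · intro S hneg hf
    refine (H34D.cor2 S hf hneg).trans ?_
    refine forall_congr' fun U => forall_congr' fun h => ?_
    exact sr1 (S := sub S hneg U h) rfl
  · refine H34D.cor3.trans ?_
    exact forall_congr' fun S => forall_congr' fun _ => forall_congr' fun hneg => sr1 hneg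

end Pool.Agent.Results.MP_d26ff6_al.ReductionTheorem
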