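import Pool.Agent.H34D.Cr
import Pool.Agent.H34C.Main

/-!
# Products of structures with at most two quaternions
-/

set_option autoImplicit false
set_option linter.unusedSectionVars false
set_option linter.unusedVariables false

namespace Pool.Agent.H34D

open QS Pool.Agent.H34B
open Pool.Agent.ETCO (SR ZSet)

/-- the finite direct products of structures with the property `P`, up to isomorphism -/
inductive Prods (P : QStruct → Prop) : QStruct → Prop
  | of (S : QStruct) (h : P S) : Prods P S
  | prod (S T : QStruct) (h1 : Prods P S) (h2 : Prods P T) : Prods P (prod S T)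
  | iso (S T : QStruct) (h1 : Iso S T) (h2 : Prods P S) : Prods P T

/-- at most two quaternions -/
def Small (S : QStruct) : Prop := Finite S.G ∧ S.neg = 1 ∧ Nat.card S.Q ≤ 2

/-- group extensions -/
def IsExt (S : QStruct) : Prop := ∃ T : QStruct, Finite T.G ∧ T.neg = 1 ∧ S = ext T

theorem locE_iff_prods {S : QStruct} : LocE S ↔ Prods (fun S => Small S ∨ IsExt S) S := by
  constructor
  · intro h
    induction h with
    | loc S hf hneg h => exact Prods.of S (Or.inl ⟨hf, hneg, h⟩)
    | ext S hf hneg => exact Prods.of _ (Or.inr ⟨S, hf, hneg, rfl⟩)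
    | prod S T _ _ h1 h2 => exact Prods.prod S T h1 h2
    | iso S T hi _ h => exact Prods.iso S T hi h
  · intro h
    induction h with
    | of S h =>
      rcases h with ⟨hf, hneg, h⟩ | ⟨T, hf, hneg, rfl⟩
      · exact LocE.loc S hf hneg h
      · exact LocE.ext T hf hneg
    | prod S T _ _ h1 h2 => exact LocE.prod S T h1 h2
    | iso S T hi _ h => exact LocE.iso S T hi h

/-! ### the triple law -/

theorem triple_iso {S T : QStruct} (h : Iso S T) (hS : Triple S) : Triple T := by
  obtain ⟨φ, h1, h2⟩ := h
  have h0 := ETCO.Iso.zero h2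
  have h0' : ∀ a b : T.G, T.q a b = T.zero ↔ S.q (φ.symm a) (φ.symm b) = S.zero := by
    intro a b
    rw [h0, φ.apply_symm_apply, φ.apply_symm_apply]
  intro a b c y hy
  rw [h0', map_mul, map_mul] at hy
  obtain ⟨u, v, w, hu, hv, hw, e⟩ := hS _ _ _ _ hy
  refine ⟨φ u, φ v, φ w, ?_, ?_, ?_, ?_⟩
  · rw [h0', φ.symm_apply_apply]; exact hu
  · rw [h0', φ.symm_apply_apply]; exact hv
  · rw [h0', φ.symm_apply_apply]; exact hw
  · rw [← map_mul, ← map_mul, ← e, φ.apply_symm_apply]

theorem triple_prod {A B : QStruct} (hA : Triple A) (hB : Triple B) : Triple (prod A B) := by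
  intro a b c y hy
  obtain ⟨h1, h2⟩ := ETCO.prod_zero.1 hy
  obtain ⟨u, v, w, hu, hv, hw, e⟩ := hA a.1 b.1 c.1 y.1 h1
  obtain ⟨u', v', w', hu', hv', hw', e'⟩ := hB a.2 b.2 c.2 y.2 h2
  exact ⟨(u, u'), (v, v'), (w, w'), ETCO.prod_zero.2 ⟨hu, hu'⟩, ETCO.prod_zero.2 ⟨hv, hv'⟩,
    ETCO.prod_zero.2 ⟨hw, hw'⟩, Prod.ext e e'⟩

theorem triple_left {A B : QStruct} (h : Triple (prod A B)) : Triple A := by
  intro a b c y hy
  obtain ⟨u, v, w, hu, hv, hw, e⟩ := h (a, 1) (b, 1) (c, 1) (y, 1)
    (ETCO.prod_zero.2 ⟨hy, B.q_one _⟩)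
  exact ⟨u.1, v.1, w.1, (ETCO.prod_zero.1 hu).1, (ETCO.prod_zero.1 hv).1, (ETCO.prod_zero.1 hw).1,
    congrArg Prod.fst e⟩

theorem triple_right {A B : QStruct} (h : Triple (prod A B)) : Triple B := by
  intro a b c y hy
  obtain ⟨u, v, w, hu, hv, hw, e⟩ := h (1, a) (1, b) (1, c) (1, y)
    (ETCO.prod_zero.2 ⟨A.q_one _, hy⟩)
  exact ⟨u.2, v.2, w.2, (ETCO.prod_zero.1 hu).2, (ETCO.prod_zero.1 hv).2, (ETCO.prod_zero.1 hw).2,
    congrArg Prod.snd e⟩

/-- structures with at most two quaternions have no sharp subgroup -/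
theorem not_sharp_small {S : QStruct} (h : Small S) (H : Subgroup S.G) : ¬ Sharp S H := by
  intro hH
  have h1 := (ETCO.sr_loc h.1 h.2.1 h.2.2)
  have hfQ := ETCO.finQ h.1
  have h2 : GroupValued S := ETCO.gv_loc h.1 h.2.2
  classical
  -- the form
  have hLP : LocalProd S := by
    refine ⟨1, fun _ a b => if S.q a b = S.zero then 0 else 1, ?_, ?_, ?_, ?_⟩
    · intro i a b c
      by_cases h1 : S.q a c = S.zero <;> by_cases h2 : S.q b c = S.zero
      · have h3 : S.q (a * b) c = S.zero := by
          rw [S.qs2]; exact ETCO.q_mul (by rw [S.qs2]; exact h1) (by rw [S.qs2]; exact h2)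
        simp only [h1, h2, h3, if_true, add_zero]
      · have h3 : S.q (a * b) c ≠ S.zero := by
          intro e
          rw [S.qs2, ← S.qs3, S.qs2 c a, S.qs2 c b, h1] at e
          exact h2 e.symm
        simp only [h1, h2, h3, if_true, if_false, zero_add]
      · have h3 : S.q (a * b) c ≠ S.zero := by
          intro e
          rw [S.qs2, ← S.qs3, S.qs2 c a, S.qs2 c b, h2] at e
          exact h1 e
        simp only [h1, h2, h3, if_true, if_false, add_zero]
      · have h3 : S.q (a * b) c = S.zero := by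
          rw [S.qs2, ← S.qs3, S.qs2 c a, S.qs2 c b]
          exact ETCO.q_two h.2.2 h1 h2
        simp only [h1, h2, h3, if_true, if_false]
        decide
    · intro i a b c
      by_cases h1 : S.q a b = S.zero <;> by_cases h2 : S.q a c = S.zero
      · have h3 := ETCO.q_mul h1 h2
        simp only [h1, h2, h3, if_true, add_zero]
      · have h3 : S.q a (b * c) ≠ S.zero := by
          intro e
          exact h2 (((S.qs3 a b c).2 e).symm.trans h1)
        simp only [h1, h2, h3, if_true, if_false, zero_add]
      · have h3 : S.q a (b * c) ≠ S.zero := by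
          intro e
          exact h1 (((S.qs3 a b c).2 e).trans h2)
        simp only [h1, h2, h3, if_true, if_false, add_zero]
      · have h3 : S.q a (b * c) = S.zero := (S.qs3 a b c).1 (ETCO.q_two h.2.2 h1 h2)
        simp only [h1, h2, h3, if_true, if_false]
        decide
    · intro a b c d
      constructor
      · intro e i
        simp only [e]
      · intro hall
        have e := hall 0
        by_cases h1 : S.q a b = S.zero <;> by_cases h2 : S.q c d = S.zero
        · rw [h1, h2]
        · simp only [h1, h2, if_true, if_false] at e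
          exact absurd e zero_ne_one
        · simp only [h1, h2, if_true, if_false] at e
          exact absurd e one_ne_zero
        · exact ETCO.q_two h.2.2 h1 h2
    · intro x
      refine ⟨x 0, ?_⟩
      intro i v
      rw [Subsingleton.elim i 0]
  exact (H34C.main S h.1 h.2.1).1.1 hLP H hH

theorem triple_of_prods {S : QStruct} (h : Prods Small S) : Triple S := by
  induction h with
  | of S h =>
    have h1 := H34C.main S h.1 h.2.1
    exact h1.2.1.1 (h1.1.2 (not_sharp_small h))
  | prod S T _ _ h1 h2 => exact triple_prod h1 h2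
  | iso S T hi _ h => exact triple_iso hi h

/-- elements of the group extension -/
def ep (T : QStruct) (a : T.G) (α : Multiplicative (ZMod 2)) : (ext T).G := (a, α)

/-- group extensions without sharp subgroups are small -/
theorem ext_small {T : QStruct} (hneg : T.neg = 1) (hf : Finite T.G)
    (hH : ∀ H, ¬ Sharp (ext T) H) : Nat.card (ext T).Q ≤ 2 := by
  classical
  by_cases hab : ∃ a b : T.G, a ≠ 1 ∧ b ≠ 1 ∧ a ≠ b
  · exfalso
    obtain ⟨a, b, ha, hb, hne⟩ := hab
    let K : Subgroup (ext T).G := (MonoidHom.snd T.G (Multiplicative (ZMod 2))).ker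
    have hK : ∀ u : (ext T).G, u ∈ K ↔ u.2 = 1 := fun u => Iff.rfl
    have hKi : K.index = 2 := by
      rw [Subgroup.index_eq_two_iff]
      refine ⟨ep T 1 (Multiplicative.ofAdd 1), ?_⟩
      intro u
      have h1 : (u * ep T 1 (Multiplicative.ofAdd 1)).2 = u.2 * Multiplicative.ofAdd 1 := rfl
      rw [hK, hK, h1]
      rcases two_cases u.2 with e | e
      · right
        rw [e]
        refine ⟨rfl, ?_⟩
        decide
      · left
        rw [e]
        refine ⟨?_, ?_⟩
        · decide
        · decide
    have hP : ∀ c : T.G, c ≠ 1 → ep T c 1 ∈ PSet (ext T) K := by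
      intro c hc y hy
      rcases two_cases y.2 with e | e
      · exact (hK _).2 e
      · exfalso
        have hy' : (ext T).q (y.1, Multiplicative.ofAdd 1) (ep T c 1) = (ext T).zero := by
          rw [(ext T).qs2] at hy
          have e2 : y = (y.1, Multiplicative.ofAdd 1) := Prod.ext rfl e
          rw [e2] at hy
          exact hy
        rcases ETCO.ext_rigid hneg hy' with h | h
        · exact hc (congrArg Prod.fst h)
        · have h2 := congrArg Prod.snd h
          have h3 : (1 : Multiplicative (ZMod 2)) = Multiplicative.ofAdd 1 := h2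
          exact absurd h3 (by decide)
    refine hH K ⟨hKi, ⟨_, hP a ha⟩, ?_⟩
    rintro ⟨c, β⟩ hc
    have hβ : β = 1 := hc
    subst hβ
    by_cases hc1 : c = 1
    · subst hc1
      exact Subgroup.one_mem _
    · obtain ⟨d, hd, hdc⟩ : ∃ d : T.G, d ≠ 1 ∧ d ≠ c := by
        by_cases h : a = c
        · exact ⟨b, hb, fun h' => hne (h.trans h'.symm)⟩
        · exact ⟨a, ha, h⟩
      refine Subgroup.subset_closure ⟨ep T d 1, hP d hd, ep T (d * c) 1, hP (d * c) ?_, ?_⟩
      · intro h
        apply hdc
        have h2 : c = d⁻¹ := eq_inv_of_mul_eq_one_right h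
        rw [h2, ETCO.inv_self]
      · show ((d * (d * c), (1 : Multiplicative (ZMod 2)) * 1) : T.G × Multiplicative (ZMod 2)) =
          (c, 1)
        rw [ETCO.mul_self_mul, mul_one]
  · push Not at hab
    have hz : ∀ a b : T.G, T.q a b = T.zero := by
      intro a b
      by_cases ha : a = 1
      · rw [ha]; exact ETCO.one_q b
      · by_cases hb : b = 1
        · rw [hb]; exact T.q_one a
        · rw [hab a b ha hb]
          exact ETCO.q_self hneg b
    have h1 : Nat.card (ext T).Q ≤ Nat.card Bool := by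
      refine Nat.card_le_card_of_injective (fun β => decide (β.1.2 = 1)) ?_
      rintro ⟨⟨p1, p2⟩, hp⟩ ⟨⟨r1, r2⟩, hr⟩ e
      have e1 : p1 = r1 := by
        obtain ⟨a, b, rfl⟩ := T.surj p1
        obtain ⟨c, d, rfl⟩ := T.surj r1
        rw [hz, hz]
      have e2 : p2 = r2 := by
        by_cases h1 : p2 = 1 <;> by_cases h2 : r2 = 1
        · rw [h1, h2]
        · simp [h1, h2] at e
        · simp [h1, h2] at e
        · exact hab p2 r2 h1 h2
      apply Subtype.ext
      show (p1, p2) = (r1, r2)
      rw [e1, e2]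
    have e : Nat.card Bool = 2 := by rw [Nat.card_eq_fintype_card, Fintype.card_bool]
    rwa [e] at h1

theorem prods_of_triple {S : QStruct} (h : LocE S) : Triple S → Prods Small S := by
  induction h with
  | loc S hf hneg h => exact fun _ => Prods.of S ⟨hf, hneg, h⟩
  | ext S hf hneg =>
    intro hT
    have h1 : LocE (ext S) := LocE.ext S hf hneg
    have h2 := H34C.main (ext S) h1.conv.1 h1.conv.2.1
    exact Prods.of _ ⟨h1.conv.1, h1.conv.2.1, ext_small hneg hf (h2.1.1 (h2.2.1.2 hT))⟩
  | prod S T _ _ h1 h2 =>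
    intro hT
    exact Prods.prod S T (h1 (triple_left hT)) (h2 (triple_right hT))
  | iso S T hi _ h =>
    intro hT
    exact Prods.iso S T hi (h (triple_iso (ETCO.Iso.symm hi) hT))

/-- **products of small structures** -/
theorem small_iff (S : QStruct) (hf : Finite S.G) (hneg : S.neg = 1) :
    (Prods Small S ↔ ∀ H : Subgroup S.G, ¬ Sharp S H) ∧ (Prods Small S ↔ Triple S) ∧
      (Prods Small S → ElemType S) := by
  have h1 := H34C.main S hf hneg
  have h2 : Triple S → Prods Small S := by
    intro hT
    have h3 : SR S := fun H hH => absurd hH (h1.1.1 (h1.2.1.2 hT) H)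
    exact prods_of_triple (locE_of_sr _ S rfl hf hneg h3) hT
  refine ⟨⟨fun h => h1.1.1 (h1.2.1.2 (triple_of_prods h)), fun h => h2 (h1.2.1.1 (h1.1.2 h))⟩,
    ⟨triple_of_prods, h2⟩, fun h => h1.2.2 (h1.2.1.2 (triple_of_prods h))⟩

end Pool.Agent.H34D
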